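import Mathlib
import Pool.Agent.Helper47.GX.Nf

/-!
# The `p`-adic numbers in the completions of number fields
-/

set_option autoImplicit false

namespace Pool.Agent.Helper47.GL

open Polynomial NumberField IsDedekindDomain Pool.Agent.Helper47.GX

section

variable {k : Type} [Field k] [NumberField k] (v : HeightOneSpectrum (𝓞 k))

theorem exists_char : ∃ t : ℕ, t.Prime ∧ (t : 𝓞 k) ∈ v.asIdeal := by
  have := v.isMaximal
  let _ : Field (𝓞 k ⧸ v.asIdeal) := Ideal.Quotient.field _
  have hfin : Finite (𝓞 k ⧸ v.asIdeal) := Ideal.finiteQuotientOfFreeOfNeBot _ v.ne_bot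
  have hp : (ringChar (𝓞 k ⧸ v.asIdeal)).Prime :=
    CharP.char_is_prime (𝓞 k ⧸ v.asIdeal) (ringChar (𝓞 k ⧸ v.asIdeal))
  refine ⟨ringChar (𝓞 k ⧸ v.asIdeal), hp, ?_⟩
  rw [← Ideal.Quotient.eq_zero_iff_mem, map_natCast]
  exact ringChar.Nat.cast_ringChar

theorem exists_emb : ∃ (t : ℕ) (_ : Fact t.Prime), Nonempty (ℚ_[t] →+* v.adicCompletion k) := by
  obtain ⟨t, ht, htv⟩ := exists_char v
  have hl := liesOver_span v ht htv
  have hp : Prime (t : ℤ) := Nat.prime_iff_prime_int.1 ht
  let v0 : HeightOneSpectrum ℤ := ⟨Ideal.span {(t : ℤ)}, (Ideal.span_singleton_prime hp.ne_zero).2 hp,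
    by
      rw [Ne, Ideal.span_singleton_eq_bot]
      exact hp.ne_zero⟩
  have hlv : v.asIdeal.LiesOver v0.asIdeal := hl
  let e1 : (v0.valuation ℚ).Completion →+* (v.valuation k).Completion :=
    UniformSpace.Completion.mapRingHom
      (algebraMap (WithVal (v0.valuation ℚ)) (WithVal (v.valuation k)))
      (HeightOneSpectrum.uniformContinuous_algebraMap_liesOver ℚ k v0 v).continuous
  let e2 := HeightOneSpectrum.adicCompletion.equiv ℚ v0
  let e3 := HeightOneSpectrum.adicCompletion.equiv k v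
  let e4 := Rat.HeightOneSpectrum.adicCompletion.padicEquiv v0
  refine ⟨Rat.HeightOneSpectrum.primesEquiv v0, ⟨(Rat.HeightOneSpectrum.primesEquiv v0).2⟩, ⟨?_⟩⟩
  exact (e3.symm : (v.valuation k).Completion →+* v.adicCompletion k).comp (e1.comp
    ((e2 : v0.adicCompletion ℚ →+* (v0.valuation ℚ).Completion).comp
      (e4.symm.toRingEquiv : _ →+* v0.adicCompletion ℚ)))

end

end Pool.Agent.Helper47.GL
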