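import Mathlib
import Pool.Agent.Helper47.GL.Emb

/-!
# Approximation in number fields with integrality outside of a finite set of places
-/

set_option autoImplicit false

namespace Pool.Agent.Helper47.GL

open Polynomial NumberField IsDedekindDomain Pool.Agent.Helper47.GX WithZero Topology
open Pool.Agent.W858.SF

section

variable {k : Type} [Field k] [NumberField k] (v : HeightOneSpectrum (𝓞 k))

/-- the completion as a nontrivially normed field -/
noncomputable def nnf : NontriviallyNormedField (v.adicCompletion k) :=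
  NontriviallyNormedField.ofNormNeOne (by
    obtain ⟨x, hx⟩ := v.valuation_exists_uniformizer k
    refine ⟨FinitePlace.embedding v x, ?_, ?_⟩
    · rw [Ne, map_eq_zero]
      rintro rfl
      rw [map_zero] at hx
      exact exp_ne_zero hx.symm
    · intro h
      rw [FinitePlace.norm_embedding', hx] at h
      have h1 : WithZeroMulInt.toNNReal (HeightOneSpectrum.absNorm_ne_zero v) (exp (-1)) = 1 := by
        exact_mod_cast h
      have h2 := (WithZeroMulInt.toNNReal_strictMono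
        (HeightOneSpectrum.one_lt_absNorm_nnreal v)).injective (h1.trans (map_one _).symm)
      rw [← exp_zero, exp_inj] at h2
      omega)

theorem exists_c (α : v.adicCompletion k) {U : Set (v.adicCompletion k)} (hU : U ∈ 𝓝 α) :
    ∃ c : v.adicCompletion k, c ≠ 0 ∧ ∀ y, vv v (y - α) ≤ vv v c → y ∈ U := by
  letI := nnf v
  obtain ⟨ε, hε, hεU⟩ := Metric.mem_nhds_iff.1 hU
  obtain ⟨c, hc0, hc⟩ := NormedField.exists_norm_lt (v.adicCompletion k) hε
  refine ⟨c, norm_pos_iff.1 hc0, fun y hy => hεU ?_⟩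
  rw [Metric.mem_ball, dist_eq_norm]
  exact lt_of_le_of_lt ((Pool.Agent.W858.SG.norm_le_iff v _ _).2 hy) hc

theorem exists_n {c : v.adicCompletion k} (hc : c ≠ 0) : ∃ n : ℕ, exp (-(n : ℤ)) ≤ vv v c := by
  have h0 : vv v c ≠ 0 := (Valuation.ne_zero_iff _).2 hc
  refine ⟨(log (vv v c)).natAbs, ?_⟩
  rw [← exp_log h0, exp_le_exp, log_exp]
  omega

theorem vv_int (a : 𝓞 k) : vv v (algebraMap (𝓞 k) (v.adicCompletion k) a) = v.intValuation a := by
  rw [IsScalarTower.algebraMap_apply (𝓞 k) k (v.adicCompletion k), vv_algebraMap,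
    HeightOneSpectrum.valuation_of_algebraMap]

theorem vv_pow_le {Q : ℕ} (hQ : (Q : 𝓞 k) ∈ v.asIdeal) (n : ℕ) :
    vv v ((Q : v.adicCompletion k) ^ n) ≤ exp (-(n : ℤ)) := by
  have h1 : (Q : v.adicCompletion k) ^ n = algebraMap (𝓞 k) (v.adicCompletion k) ((Q : 𝓞 k) ^ n) := by
    rw [map_pow, map_natCast]
  rw [h1, vv_int, HeightOneSpectrum.intValuation_le_pow_iff_mem]
  exact Ideal.pow_mem_pow hQ n

theorem finite_Q {Q : ℕ} (hQ : Q ≠ 0) : {v : HeightOneSpectrum (𝓞 k) | (Q : 𝓞 k) ∈ v.asIdeal}.Finite := by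
  have h1 : Ideal.span {(Q : 𝓞 k)} ≠ 0 := by
    rw [Ne, Ideal.zero_eq_bot, Ideal.span_singleton_eq_bot]
    exact_mod_cast hQ
  refine (Ideal.finite_factors h1).subset ?_
  intro v hv
  change v.asIdeal ∣ _
  rw [Ideal.dvd_span_singleton]
  exact hv

/-- **approximation** -/
theorem approx {Q : ℕ} (hQ : Q ≠ 0) (α : ∀ v : HeightOneSpectrum (𝓞 k), v.adicCompletion k)
    (U : ∀ v : HeightOneSpectrum (𝓞 k), Set (v.adicCompletion k)) (hU : ∀ v, U v ∈ 𝓝 (α v))
    (B : ℝ) : ∃ (J : ℕ) (a0 : 𝓞 k),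
      (∀ v : HeightOneSpectrum (𝓞 k), (Q : 𝓞 k) ∈ v.asIdeal →
        algebraMap k (v.adicCompletion k) ((a0 : k) / (Q : k) ^ J) ∈ U v) ∧
      ∀ w : InfinitePlace k, B ≤ w ((a0 : k) / (Q : k) ^ J) := by
  classical
  choose c hc0 hc using fun v => exists_c v (α v) (hU v)
  set T := (finite_Q (k := k) hQ).toFinset with hT
  have hmT : ∀ v : HeightOneSpectrum (𝓞 k), v ∈ T ↔ (Q : 𝓞 k) ∈ v.asIdeal := fun v => by
    rw [hT, Set.Finite.mem_toFinset]
    exact Iff.rfl
  have hc0' : ∀ v : HeightOneSpectrum (𝓞 k), CharZero (v.adicCompletion k) := fun v =>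
    charZero_of_injective_algebraMap (algebraMap k (v.adicCompletion k)).injective
  have hQv : ∀ v : HeightOneSpectrum (𝓞 k), (Q : v.adicCompletion k) ≠ 0 := fun v => by
    have := hc0' v
    exact_mod_cast hQ
  -- the denominator
  have hJ : ∀ v : HeightOneSpectrum (𝓞 k), ∃ J : ℕ, vv v (α v) ≤ exp (J : ℤ) := by
    intro v
    by_cases h0 : α v = 0
    · exact ⟨0, by rw [h0, map_zero]; exact zero_le⟩
    · refine ⟨(log (vv v (α v))).natAbs, ?_⟩
      have h0 : vv v (α v) ≠ 0 := (Valuation.ne_zero_iff _).2 h0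
      rw [← exp_log h0, exp_le_exp, log_exp]
      omega
  choose Jv hJv using hJ
  set J := T.sup Jv with hJ
  have hint : ∀ v ∈ T, vv v ((Q : v.adicCompletion k) ^ J * α v) ≤ 1 := by
    intro v hv
    have h1 : Jv v ≤ J := Finset.le_sup hv
    rw [map_mul]
    calc vv v ((Q : v.adicCompletion k) ^ J) * vv v (α v) ≤ exp (-(J : ℤ)) * exp (Jv v : ℤ) :=
          mul_le_mul' (vv_pow_le v ((hmT v).1 hv) J) (hJv v)
      _ = exp (-(J : ℤ) + Jv v) := by rw [exp_add]
      _ ≤ 1 := by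
          rw [← exp_zero, exp_le_exp]
          omega
  -- integral approximations
  have hb : ∀ v ∈ T, ∃ b : 𝓞 k, vv v (algebraMap (𝓞 k) (v.adicCompletion k) b -
      (Q : v.adicCompletion k) ^ J * α v) ≤ vv v ((Q : v.adicCompletion k) ^ J * c v) := by
    intro v hv
    have hne : vv v ((Q : v.adicCompletion k) ^ J * c v) ≠ 0 :=
      (Valuation.ne_zero_iff _).2 (mul_ne_zero (pow_ne_zero _ (hQv v)) (hc0 v))
    obtain ⟨b, hb⟩ := Pool.Agent.H723R3.exists_approx_int (R := 𝓞 k) v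
      (ξ := (Q : v.adicCompletion k) ^ J * α v) (hint v hv) (Units.mk0 _ hne)
    exact ⟨b, hb.le⟩
  choose! b hb using hb
  have hn : ∀ v : HeightOneSpectrum (𝓞 k), ∃ n : ℕ,
      exp (-(n : ℤ)) ≤ vv v ((Q : v.adicCompletion k) ^ J * c v) := fun v =>
    exists_n v (mul_ne_zero (pow_ne_zero _ (hQv v)) (hc0 v))
  choose nv hnv using hn
  set n := T.sup nv with hn
  have hnle : ∀ v ∈ T, exp (-(n : ℤ)) ≤ vv v ((Q : v.adicCompletion k) ^ J * c v) := by
    intro v hv
    refine le_trans ?_ (hnv v)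
    rw [exp_le_exp]
    have : nv v ≤ n := Finset.le_sup hv
    omega
  obtain ⟨a1, ha1⟩ := IsDedekindDomain.exists_forall_sub_mem_ideal (s := T)
    (fun v : HeightOneSpectrum (𝓞 k) => v.asIdeal) (fun _ => n) (fun v _ => v.prime)
    (fun v _ v' _ hvv' h => hvv' (HeightOneSpectrum.ext h)) (fun v => b v)
  -- large at the infinite places
  obtain ⟨m, hm⟩ := exists_nat_ge ((∑ w : InfinitePlace k, w (a1 : k)) + |B| * (Q : ℝ) ^ J)
  refine ⟨J, a1 + m * (Q : 𝓞 k) ^ n, ?_, ?_⟩
  · intro v hv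
    have hvT := (hmT v).2 hv
    apply hc
    set a0 : 𝓞 k := a1 + m * (Q : 𝓞 k) ^ n with ha0
    have hQJ : (Q : v.adicCompletion k) ^ J ≠ 0 := pow_ne_zero _ (hQv v)
    have h1 : algebraMap k (v.adicCompletion k) ((a0 : k) / (Q : k) ^ J) - α v =
        (algebraMap (𝓞 k) (v.adicCompletion k) a0 - (Q : v.adicCompletion k) ^ J * α v) /
          (Q : v.adicCompletion k) ^ J := by
      rw [map_div₀, map_pow, map_natCast, IsScalarTower.algebraMap_apply (𝓞 k) k (v.adicCompletion k)]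
      field_simp
    have h2 : vv v (algebraMap (𝓞 k) (v.adicCompletion k) a0 - (Q : v.adicCompletion k) ^ J * α v) ≤
        vv v ((Q : v.adicCompletion k) ^ J * c v) := by
      have h3 : algebraMap (𝓞 k) (v.adicCompletion k) a0 - (Q : v.adicCompletion k) ^ J * α v =
          (algebraMap (𝓞 k) (v.adicCompletion k) (a1 - b v) +
            algebraMap (𝓞 k) (v.adicCompletion k) (m * (Q : 𝓞 k) ^ n)) +
          (algebraMap (𝓞 k) (v.adicCompletion k) (b v) - (Q : v.adicCompletion k) ^ J * α v) := by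
        rw [ha0, map_add, map_sub]
        ring
      rw [h3]
      refine (Valuation.map_add _ _ _).trans (max_le ((Valuation.map_add _ _ _).trans (max_le ?_ ?_))
        (hb v hvT))
      · refine le_trans ?_ (hnle v hvT)
        rw [vv_int, HeightOneSpectrum.intValuation_le_pow_iff_mem]
        exact ha1 v hvT
      · refine le_trans ?_ (hnle v hvT)
        rw [vv_int, HeightOneSpectrum.intValuation_le_pow_iff_mem]
        exact Ideal.mul_mem_left _ _ (Ideal.pow_mem_pow hv n)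
    rw [h1, map_div₀]
    have h4 : vv v ((Q : v.adicCompletion k) ^ J) ≠ 0 := (Valuation.ne_zero_iff _).2 hQJ
    rw [div_le_iff₀ (zero_lt_iff.2 h4), ← map_mul, mul_comm (c v)]
    exact h2
  · intro w
    have hQ1 : (1 : ℝ) ≤ (Q : ℝ) := by exact_mod_cast Nat.one_le_iff_ne_zero.2 hQ
    have hQn : (1 : ℝ) ≤ (Q : ℝ) ^ n := one_le_pow₀ hQ1
    have hQJ : (1 : ℝ) ≤ (Q : ℝ) ^ J := one_le_pow₀ hQ1
    have hQJ0 : (0 : ℝ) < (Q : ℝ) ^ J := by linarith
    have h1 : w ((m : k) * (Q : k) ^ n) = m * (Q : ℝ) ^ n := by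
      rw [map_mul, map_pow, w.map_natCast, w.map_natCast]
    have h2 : w ((m : k) * (Q : k) ^ n) ≤
        w (((a1 + m * (Q : 𝓞 k) ^ n : 𝓞 k)) : k) + w (a1 : k) := by
      have h3 : (m : k) * (Q : k) ^ n = ((a1 + m * (Q : 𝓞 k) ^ n : 𝓞 k) : k) + -(a1 : k) := by
        push_cast
        ring
      have h4 : w (-(a1 : k)) = w (a1 : k) := w.1.map_neg _
      rw [h3, ← h4]
      exact w.1.add_le _ _
    have h5 : w (a1 : k) ≤ ∑ w : InfinitePlace k, w (a1 : k) :=
      Finset.single_le_sum (f := fun w : InfinitePlace k => w (a1 : k))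
        (fun w _ => apply_nonneg w _) (Finset.mem_univ w)
    have h6 : (m : ℝ) ≤ m * (Q : ℝ) ^ n := le_mul_of_one_le_right (Nat.cast_nonneg _) hQn
    rw [map_div₀, map_pow, w.map_natCast, le_div_iff₀ hQJ0]
    have h7 : B * (Q : ℝ) ^ J ≤ |B| * (Q : ℝ) ^ J :=
      mul_le_mul_of_nonneg_right (le_abs_self B) hQJ0.le
    linarith

end

end Pool.Agent.Helper47.GL
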