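import Mathlib
import Pool.Agent.Helper47.GX.Bas

/-!
# The product of the conjugates `G(x, ζ^j y)`
-/

set_option autoImplicit false

namespace Pool.Agent.Helper47.GL

open Polynomial Pool.Agent.Helper47.GX

section expandL

variable {R : Type*} [CommRing R] [IsDomain R] {ℓ : ℕ}

theorem exists_expandL (hℓ : 0 < ℓ) {ζ : R} (hζ : IsPrimitiveRoot ζ ℓ) {f : R[X]}
    (hf : f.scaleRoots ζ = f) (hd : ℓ ∣ f.natDegree) : ∃ Q : R[X], f = expand R ℓ Q := by
  refine ⟨contract ℓ f, ?_⟩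
  ext i
  rw [coeff_expand hℓ]
  split_ifs with h
  · rw [coeff_contract hℓ.ne', Nat.div_mul_cancel h]
  · by_contra hne
    have hi : i ≤ f.natDegree := le_natDegree_of_ne_zero hne
    have h1 := congrArg (fun p : R[X] => p.coeff i) hf
    simp only [coeff_scaleRoots] at h1
    have h2 : f.coeff i * (ζ ^ (f.natDegree - i) - 1) = 0 := by
      rw [mul_sub, h1, mul_one, sub_self]
    have h3 : ζ ^ (f.natDegree - i) = 1 := by
      have := (mul_eq_zero.1 h2).resolve_left hne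
      linear_combination this
    have h4 := hζ.dvd_of_pow_eq_one _ h3
    apply h
    have h5 := (Nat.dvd_sub hd h4)
    rwa [Nat.sub_sub_self hi] at h5

/-- the product of the conjugates -/
noncomputable def PL (ℓ : ℕ) (ζ : R) (G : R[X]) : R[X] := ∏ j ∈ Finset.range ℓ, G.scaleRoots (ζ ^ j)

theorem PL_monic {ζ : R} {G : R[X]} (hG : G.Monic) : (PL ℓ ζ G).Monic :=
  monic_prod_of_monic _ _ fun j _ => (monic_scaleRoots_iff _).2 hG

theorem PL_natDegree {ζ : R} {G : R[X]} (hG : G.Monic) :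
    (PL ℓ ζ G).natDegree = ℓ * G.natDegree := by
  rw [PL, natDegree_prod_of_monic _ _ fun j _ => (monic_scaleRoots_iff _).2 hG]
  simp only [natDegree_scaleRoots]
  rw [Finset.sum_const, Finset.card_range, smul_eq_mul]

theorem prod_shift {M : Type*} [CommRing M] [IsDomain M] (h : R → M) {ζ : R} (hζ : ζ ^ ℓ = 1)
    (h1 : h 1 ≠ 0) : ∏ j ∈ Finset.range ℓ, h (ζ ^ (j + 1)) = ∏ j ∈ Finset.range ℓ, h (ζ ^ j) := by
  have h2 := Finset.prod_range_succ (fun j => h (ζ ^ j)) ℓ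
  have h3 := Finset.prod_range_succ' (fun j => h (ζ ^ j)) ℓ
  rw [h3] at h2
  simp only [pow_zero, hζ] at h2
  exact mul_right_cancel₀ h1 h2

theorem prod_scaleRoots' {ι : Type*} (s : Finset ι) (f : ι → R[X]) (r : R) :
    (∏ j ∈ s, f j).scaleRoots r = ∏ j ∈ s, (f j).scaleRoots r := by
  classical
  induction s using Finset.induction_on with
  | empty =>
    rw [Finset.prod_empty, Finset.prod_empty]
    have : (1 : R[X]) = C 1 := by simp
    rw [this, scaleRoots_C]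
  | insert a s ha ih =>
    rw [Finset.prod_insert ha, Finset.prod_insert ha, mul_scaleRoots_of_noZeroDivisors, ih]

theorem PL_scaleRoots {ζ : R} (hζ : ζ ^ ℓ = 1) {G : R[X]} (hG : G.Monic) :
    (PL ℓ ζ G).scaleRoots ζ = PL ℓ ζ G := by
  rw [PL, prod_scaleRoots']
  have h1 : ∀ j, (G.scaleRoots (ζ ^ j)).scaleRoots ζ = G.scaleRoots (ζ ^ (j + 1)) := by
    intro j
    rw [pow_succ, scaleRoots_mul]
  simp only [h1]
  refine prod_shift (fun s => G.scaleRoots s) hζ ?_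
  rw [scaleRoots_one]
  exact hG.ne_zero

theorem PL_map {S : Type*} [CommRing S] [IsDomain S] (φ : R →+* S) {ζ : R} {G : R[X]}
    (hG : G.Monic) : (PL ℓ ζ G).map φ = PL ℓ (φ ζ) (G.map φ) := by
  rw [PL, PL, Polynomial.map_prod]
  refine Finset.prod_congr rfl fun j _ => ?_
  rw [map_scaleRoots, map_pow]
  rw [hG.leadingCoeff, map_one]
  exact one_ne_zero

theorem PL_expand (hℓ : 0 < ℓ) {ζ : R} (hζ : IsPrimitiveRoot ζ ℓ) {G : R[X]} (hG : G.Monic) :
    ∃ Q : R[X], PL ℓ ζ G = expand R ℓ Q :=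
  exists_expandL hℓ hζ (PL_scaleRoots hζ.pow_eq_one hG) (by
    rw [PL_natDegree hG]
    exact dvd_mul_right _ _)

/-- the zeros of the product -/
theorem PL_eval_zero_iff {K : Type*} [Field K] {ζ : K} (hζ : IsPrimitiveRoot ζ ℓ) (hℓ : 0 < ℓ)
    (G : K[X]) (u : K) : (PL ℓ ζ G).eval u = 0 ↔ ∃ j < ℓ, G.eval (ζ ^ j * u) = 0 := by
  have hζ0 : ζ ≠ 0 := hζ.ne_zero hℓ.ne'
  have key : ∀ j, ((G.scaleRoots (ζ ^ j)).eval u = 0 ↔ G.eval ((ζ ^ j)⁻¹ * u) = 0) := by
    intro j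
    have hj : ζ ^ j ≠ 0 := pow_ne_zero _ hζ0
    have h1 : u = ζ ^ j * ((ζ ^ j)⁻¹ * u) := by
      rw [← mul_assoc, mul_inv_cancel₀ hj, one_mul]
    conv_lhs => rw [h1, scaleRoots_eval_mul]
    rw [mul_eq_zero, or_iff_right (pow_ne_zero _ hj)]
  rw [PL, eval_prod, Finset.prod_eq_zero_iff]
  constructor
  · rintro ⟨j, hj, h⟩
    rw [key] at h
    have hj' := Finset.mem_range.1 hj
    rcases Nat.eq_zero_or_pos j with rfl | hj0
    · exact ⟨0, hℓ, by simpa using h⟩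
    · refine ⟨ℓ - j, by omega, ?_⟩
      have : ζ ^ (ℓ - j) = (ζ ^ j)⁻¹ := by
        refine eq_inv_of_mul_eq_one_left ?_
        rw [← pow_add, Nat.sub_add_cancel hj'.le, hζ.pow_eq_one]
      rw [this]
      exact h
  · rintro ⟨j, hj, h⟩
    rcases Nat.eq_zero_or_pos j with rfl | hj0
    · exact ⟨0, Finset.mem_range.2 hℓ, by rw [key]; simpa using h⟩
    · refine ⟨ℓ - j, Finset.mem_range.2 (by omega), ?_⟩
      rw [key]
      have : (ζ ^ (ℓ - j))⁻¹ = ζ ^ j := by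
        refine inv_eq_of_mul_eq_one_right ?_
        rw [← pow_add, Nat.sub_add_cancel hj.le, hζ.pow_eq_one]
      rw [this]
      exact h

end expandL

section CBL

variable {F : Type*} [Field F]

theorem CB_scaleRoots_C {f : F[X][X]} {d : ℕ} (hf : CB f d) (c : F) : CB (f.scaleRoots (C c)) d := by
  have := CB_scaleRoots hf (C c)
  rwa [natDegree_C, mul_zero, add_zero] at this

theorem CB_PL {f : F[X][X]} {d : ℕ} (hf : CB f d) (ℓ : ℕ) (ζ : F) : CB (PL ℓ (C ζ) f) (ℓ * d) := by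
  unfold PL
  induction ℓ with
  | zero =>
    rw [Finset.prod_range_zero, ← C_1]
    exact CB_C 1 (by simp)
  | succ n ih =>
    rw [Finset.prod_range_succ, add_mul, one_mul]
    refine CB_mul ih ?_
    rw [← C_pow]
    exact CB_scaleRoots_C hf _

theorem CB_of_expandL {ℓ : ℕ} (hℓ : 0 < ℓ) {f : F[X][X]} {d : ℕ} (hf : CB (expand F[X] ℓ f) d) :
    CB f d := by
  intro i
  have := hf (i * ℓ)
  rwa [coeff_expand_mul hℓ] at this

theorem CB_expandL {ℓ : ℕ} (hℓ : 0 < ℓ) {f : F[X][X]} {d : ℕ} (hf : CB f d) :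
    CB (expand F[X] ℓ f) d := by
  intro i
  rw [coeff_expand hℓ]
  split_ifs
  · exact hf _
  · simp

end CBL

end Pool.Agent.Helper47.GL
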