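import Mathlib

/-!
# Separability modulo almost all primes
-/

set_option autoImplicit false

namespace Pool.Agent.Helper47.GL

open Polynomial

theorem clear_den (A₀ : ℚ[X]) : ∃ (n : ℤ) (A : ℤ[X]), n ≠ 0 ∧
    A.map (Int.castRingHom ℚ) = C (n : ℚ) * A₀ := by
  obtain ⟨b, hb0, hb⟩ := IsLocalization.integerNormalization_spec (nonZeroDivisors ℤ) A₀
  refine ⟨b, IsLocalization.integerNormalization (nonZeroDivisors ℤ) A₀,
    nonZeroDivisors.ne_zero hb0, ?_⟩
  have h1 : Int.castRingHom ℚ = algebraMap ℤ ℚ := rfl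
  rw [h1, hb]
  ext i
  rw [coeff_C_mul, coeff_smul, zsmul_eq_mul]

theorem exists_disc {F : ℤ[X]} (hF : (F.map (Int.castRingHom ℚ)).Separable) :
    ∃ D : ℕ, D ≠ 0 ∧ ∀ (K : Type) [Field K], (D : K) ≠ 0 →
      (F.map (Int.castRingHom K)).Separable := by
  obtain ⟨A₀, B₀, h⟩ := hF
  obtain ⟨m, A, hm, hA⟩ := clear_den A₀
  obtain ⟨n, B, hn, hB⟩ := clear_den B₀
  have h1 : C n * A * F + C m * B * derivative F = C (m * n) := by
    apply Polynomial.map_injective (Int.castRingHom ℚ) (Int.castRingHom ℚ).injective_int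
    simp only [Polynomial.map_add, Polynomial.map_mul, map_C, hA, hB, ← derivative_map]
    have h2 : (C ((Int.castRingHom ℚ) (m * n)) : ℚ[X]) = C (m : ℚ) * C (n : ℚ) := by
      rw [← C_mul]
      simp
    have h3 : (C ((Int.castRingHom ℚ) m) : ℚ[X]) = C (m : ℚ) := by simp
    have h4 : (C ((Int.castRingHom ℚ) n) : ℚ[X]) = C (n : ℚ) := by simp
    rw [map_mul, C_mul, h3, h4]
    linear_combination (C (m : ℚ) * C (n : ℚ)) * h
  refine ⟨(m * n).natAbs, Int.natAbs_ne_zero.2 (mul_ne_zero hm hn), ?_⟩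
  intro K _ hD
  have hD' : ((m * n : ℤ) : K) ≠ 0 := by
    intro h5
    apply hD
    rcases Int.natAbs_eq (m * n) with h6 | h6
    · rw [h6, Int.cast_natCast] at h5
      exact h5
    · rw [h6, Int.cast_neg, neg_eq_zero, Int.cast_natCast] at h5
      exact h5
  have h7 := congrArg (Polynomial.map (Int.castRingHom K)) h1
  simp only [Polynomial.map_add, Polynomial.map_mul, map_C, ← derivative_map] at h7
  refine ⟨C ((m * n : ℤ) : K)⁻¹ * ((C ((Int.castRingHom K) n)) * A.map (Int.castRingHom K)),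
    C ((m * n : ℤ) : K)⁻¹ * ((C ((Int.castRingHom K) m)) * B.map (Int.castRingHom K)), ?_⟩
  have h8 : (C ((m * n : ℤ) : K)⁻¹ : K[X]) * C ((Int.castRingHom K) (m * n)) = 1 := by
    rw [← C_mul, eq_intCast, inv_mul_cancel₀ hD', C_1]
  linear_combination (C ((m * n : ℤ) : K)⁻¹ : K[X]) * h7 + h8

end Pool.Agent.Helper47.GL
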