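import Mathlib
import Pool.Graph.R_pool_sql_team_seeded_5cf16337.K3h48.MN.Ext

/-!
# The polynomials of the cyclic fields of degree `ℓ`
-/

set_option autoImplicit false
set_option linter.unusedSectionVars false

namespace Pool.Agent.Helper47.GL

open Polynomial Pool.Agent.K3h48.MN

section

variable {ℓ p q : ℕ} [hℓ : Fact ℓ.Prime] [hp : Fact p.Prime] [hq : Fact q.Prime]
  {χ : (ZMod p)ˣ →* Multiplicative (ZMod ℓ)} {ψ : (ZMod q)ˣ →* Multiplicative (ZMod ℓ)}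
  {θ : Option (ZMod ℓ) → CyclotomicField (p * q) ℚ}

theorem exists_pair (ℓ : ℕ) [Fact ℓ.Prime] (B : ℕ) :
    ∃ (p q : ℕ) (_ : Fact p.Prime) (_ : Fact q.Prime)
      (χ : (ZMod p)ˣ →* Multiplicative (ZMod ℓ)) (ψ : (ZMod q)ˣ →* Multiplicative (ZMod ℓ)),
      B < p ∧ B < q ∧ Good χ ψ := by
  have hℓ : ℓ.Prime := Fact.out
  obtain ⟨p, hp, hBp, hp1⟩ := Nat.exists_prime_gt_modEq_one (k := 2 * ℓ) B
    (mul_ne_zero two_ne_zero hℓ.ne_zero)
  obtain ⟨q, hq, hqB, hq1, hqp, hpow⟩ := Pool.Agent.K3h48.MN.exists_q hℓ.pos hp (max B p)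
  have : Fact p.Prime := ⟨hp⟩
  have : Fact q.Prime := ⟨hq⟩
  have hd : ∀ r : ℕ, r.Prime → r ≡ 1 [MOD 2 * ℓ] → 2 * ℓ ∣ r - 1 := fun r hr h =>
    (Nat.modEq_iff_dvd' hr.one_lt.le).1 h.symm
  obtain ⟨χ, hχ⟩ := Pool.Agent.K3h48.MN.exists_char (ℓ := ℓ) (p := p)
    ((Dvd.intro_left 2 rfl).trans (hd p hp hp1))
  obtain ⟨ψ, hψ⟩ := Pool.Agent.K3h48.MN.exists_char (ℓ := ℓ) (p := q)
    ((Dvd.intro_left 2 rfl).trans (hd q hq hq1))
  have hBq : B < q := lt_of_le_of_lt (le_max_left _ _) hqB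
  have hpq : p < q := lt_of_le_of_lt (le_max_right _ _) hqB
  refine ⟨p, q, ⟨hp⟩, ⟨hq⟩, χ, ψ, hBp, hBq, hpq.ne, hχ, hψ, ind_pow_zero χ ⟨1, ?_⟩,
    ind_pow_zero ψ hpow, ind_pow_zero χ (neg_one_pow hℓ.pos (hd p hp hp1)),
    ind_pow_zero ψ (neg_one_pow hℓ.pos (hd q hq hq1))⟩
  rw [one_pow, (ZMod.natCast_eq_natCast_iff _ _ _).2 hqp, Nat.cast_one]

/-- an integral generator and its polynomial -/
theorem exists_theta1 (χ : (ZMod p)ˣ →* Multiplicative (ZMod ℓ))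
    (ψ : (ZMod q)ˣ →* Multiplicative (ZMod ℓ)) (s t : ZMod ℓ) :
    ∃ (θ : CyclotomicField (p * q) ℚ) (P : ℤ[X]), GenBy χ ψ s t θ ∧ P.Monic ∧
      P.map (Int.castRingHom ℚ) = minpoly ℚ θ := by
  obtain ⟨θ, hθ⟩ := Pool.Agent.K3h48.MN.exists_gen χ ψ s t
  have : NeZero (p * q) := ⟨pq_ne⟩
  have : FiniteDimensional ℚ (CyclotomicField (p * q) ℚ) :=
    IsCyclotomicExtension.finiteDimensional {p * q} ℚ _
  have halg : IsAlgebraic ℤ θ :=
    (IsFractionRing.isAlgebraic_iff ℤ ℚ (CyclotomicField (p * q) ℚ)).2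
      (Algebra.IsAlgebraic.isAlgebraic (R := ℚ) θ)
  obtain ⟨n, hn, hint⟩ := halg.exists_integral_multiple
  refine ⟨n • θ, minpoly ℤ (n • θ), ?_, minpoly.monic hint, ?_⟩
  · intro σ m h
    rw [← hθ σ m h, map_zsmul]
    exact ⟨fun h1 => smul_right_injective _ hn h1, fun h1 => by rw [h1]⟩
  · exact (minpoly.isIntegrallyClosed_eq_field_fractions' ℚ hint).symm

theorem exists_theta (χ : (ZMod p)ˣ →* Multiplicative (ZMod ℓ))
    (ψ : (ZMod q)ˣ →* Multiplicative (ZMod ℓ)) :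
    ∃ (θ : Option (ZMod ℓ) → CyclotomicField (p * q) ℚ) (P : Option (ZMod ℓ) → ℤ[X]),
      (∀ i, GenBy χ ψ (cs i).1 (cs i).2 (θ i)) ∧ (∀ i, (P i).Monic) ∧
      ∀ i, (P i).map (Int.castRingHom ℚ) = minpoly ℚ (θ i) := by
  choose θ P h using fun i : Option (ZMod ℓ) => exists_theta1 χ ψ (cs i).1 (cs i).2
  exact ⟨θ, P, fun i => (h i).1, fun i => (h i).2.1, fun i => (h i).2.2⟩

theorem exists_r (hG : Good χ ψ) (B : ℕ) : ∃ r : ℕ, r.Prime ∧ B < r ∧
    ∃ m : ZMod ℓ, m ≠ 0 ∧ ssum (wt χ ψ m) (r : ℚ) ≠ 0 := by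
  obtain ⟨n, hn, h1, h2⟩ := exists_kn hG.surj_left hG.surj_right hG.ne 1 1
  have : NeZero (p * q) := ⟨pq_ne⟩
  have hu : IsUnit (n : ZMod (p * q)) := (ZMod.isUnit_iff_coprime n (p * q)).2 hn
  obtain ⟨r, hBr, hr, hrn⟩ := Nat.forall_exists_prime_gt_and_eq_mod hu B
  have hmod : r ≡ n [MOD p * q] := (ZMod.natCast_eq_natCast_iff _ _ _).1 hrn
  have h3 : (r : ZMod p) = n := (ZMod.natCast_eq_natCast_iff _ _ _).2 (hmod.of_mul_right q)
  have h4 : (r : ZMod q) = n := (ZMod.natCast_eq_natCast_iff _ _ _).2 (hmod.of_mul_left p)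
  have hℓ1 : (1 : ZMod ℓ) ≠ 0 := one_ne_zero
  refine ⟨r, hr, hBr, 1, hℓ1, ?_⟩
  rw [ssum_prime _ hr]
  unfold wt
  rw [h3, h4, h1, h2, mul_one, if_pos rfl]
  exact hℓ1

end

/-- translations of a polynomial -/
theorem comp_inj {K : Type*} [Field K] [CharZero K] {P : K[X]} (hP : 0 < P.natDegree) {u u' : K}
    (h : P.comp (X - C u) = P.comp (X - C u')) : u = u' := by
  by_contra hne
  set A := AlgebraicClosure K
  have hd : P.degree ≠ 0 := by
    rw [degree_eq_natDegree (ne_zero_of_natDegree_gt hP)]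
    exact_mod_cast hP.ne'
  obtain ⟨ρ, hρ⟩ := IsAlgClosed.exists_aeval_eq_zero A P hd
  have hc : CharZero A := charZero_of_injective_algebraMap (algebraMap K A).injective
  have h1 : ∀ z : A, aeval z P = aeval (z + algebraMap K A (u - u')) P := by
    intro z
    have h2 := congrArg (aeval (z + algebraMap K A u)) h
    rw [aeval_comp, aeval_comp, map_sub, map_sub, aeval_X, aeval_C, aeval_C, add_sub_cancel_right]
      at h2
    rw [h2, map_sub, add_sub_assoc]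
  have h3 : ∀ n : ℕ, aeval (ρ + n * algebraMap K A (u - u')) P = 0 := by
    intro n
    induction n with
    | zero => rw [Nat.cast_zero, zero_mul, add_zero, hρ]
    | succ n ih => rw [Nat.cast_succ, add_mul, one_mul, ← add_assoc, ← h1, ih]
  have hs0 : algebraMap K A (u - u') ≠ 0 := by
    rw [Ne, map_eq_zero, sub_eq_zero]
    exact hne
  have h4 : (P.map (algebraMap K A)) = 0 := by
    refine eq_zero_of_infinite_isRoot _ ?_
    refine Set.infinite_of_injective_forall_mem (f := fun n : ℕ => ρ + n * algebraMap K A (u - u'))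
      ?_ ?_
    · intro m n hmn
      have h5 := mul_right_cancel₀ hs0 (add_left_cancel hmn)
      exact_mod_cast h5
    · intro n
      rw [Set.mem_setOf_eq, IsRoot.def, eval_map_algebraMap]
      exact h3 n
  rw [Polynomial.map_eq_zero] at h4
  rw [h4, natDegree_zero] at hP
  exact absurd hP (lt_irrefl 0)

section

variable {ℓ : ℕ} [hℓ : Fact ℓ.Prime]

/-- the polynomial `∏ P_i(x - c)` -/
noncomputable def F0 (P : Option (ZMod ℓ) → ℤ[X]) (M : ℕ) : ℤ[X] :=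
  ∏ i, ∏ c ∈ Finset.range M, (P i).comp (X - C (c : ℤ))

theorem F0_monic {P : Option (ZMod ℓ) → ℤ[X]} (hP : ∀ i, (P i).Monic) (M : ℕ) : (F0 P M).Monic :=
  monic_prod_of_monic _ _ fun i _ => monic_prod_of_monic _ _ fun _ _ => (hP i).comp_X_sub_C _

/-- the polynomial `F0(x - a)` -/
noncomputable def ff (P : Option (ZMod ℓ) → ℤ[X]) (M : ℕ) {k : Type*} [Field k] (a : k) : k[X] :=
  ((F0 P M).map (Int.castRingHom k)).comp (X - C a)

theorem ff_monic {P : Option (ZMod ℓ) → ℤ[X]} (hP : ∀ i, (P i).Monic) (M : ℕ) {k : Type*} [Field k]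
    (a : k) : (ff P M a).Monic :=
  ((F0_monic hP M).map _).comp_X_sub_C _

theorem ff_map (P : Option (ZMod ℓ) → ℤ[X]) (M : ℕ) {k L : Type*} [Field k] [Field L] (φ : k →+* L)
    (a : k) : (ff P M a).map φ = ff P M (φ a) := by
  unfold ff
  rw [Polynomial.map_comp, Polynomial.map_map, Polynomial.map_sub, map_X, map_C]
  congr 2
  exact RingHom.ext_int _ _

theorem ff_eval (P : Option (ZMod ℓ) → ℤ[X]) (M : ℕ) {k : Type*} [Field k] (a x : k) :
    (ff P M a).eval x = ((F0 P M).map (Int.castRingHom k)).eval (x - a) := by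
  unfold ff
  rw [eval_comp, eval_sub, eval_X, eval_C]

variable {p q : ℕ} [hp : Fact p.Prime] [hq : Fact q.Prime]
  {χ : (ZMod p)ˣ →* Multiplicative (ZMod ℓ)} {ψ : (ZMod q)ˣ →* Multiplicative (ZMod ℓ)}
  {θ : Option (ZMod ℓ) → CyclotomicField (p * q) ℚ}

open Classical in
/-- the sets of factors -/
noncomputable def GS (θ : Option (ZMod ℓ) → CyclotomicField (p * q) ℚ) (M : ℕ) {k : Type*} [Field k]
    [CharZero k] (a : k) (i : Option (ZMod ℓ)) : Finset k[X] :=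
  (Finset.range M).image fun c : ℕ =>
    ((minpoly ℚ (θ i)).map (algebraMap ℚ k)).comp (X - C (a + c))

theorem int_theta (x : CyclotomicField (p * q) ℚ) : IsIntegral ℚ x := by
  have : NeZero (p * q) := ⟨pq_ne⟩
  have : FiniteDimensional ℚ (CyclotomicField (p * q) ℚ) :=
    IsCyclotomicExtension.finiteDimensional {p * q} ℚ _
  exact Algebra.IsIntegral.isIntegral x

theorem GS_inj (M : ℕ) {k : Type*} [Field k] [CharZero k] (a : k) (i : Option (ZMod ℓ)) :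
    Function.Injective fun c : ℕ =>
      ((minpoly ℚ (θ i)).map (algebraMap ℚ k)).comp (X - C (a + c)) := by
  intro c c' h
  have h1 : 0 < ((minpoly ℚ (θ i)).map (algebraMap ℚ k)).natDegree := by
    rw [natDegree_map]
    exact minpoly.natDegree_pos (int_theta _)
  exact_mod_cast add_left_cancel (comp_inj h1 h)

theorem GS_card (M : ℕ) {k : Type*} [Field k] [CharZero k] (a : k) (i : Option (ZMod ℓ)) :
    (GS θ M a i).card = M := by
  classical
  unfold GS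
  rw [Finset.card_image_of_injective _ (GS_inj M a i), Finset.card_range]

theorem ff_prod {P : Option (ZMod ℓ) → ℤ[X]}
    (hP : ∀ i, (P i).map (Int.castRingHom ℚ) = minpoly ℚ (θ i)) (M : ℕ) {k : Type*} [Field k]
    [CharZero k] (a : k) : ff P M a = ∏ i, ∏ g ∈ GS θ M a i, g := by
  classical
  unfold ff F0 GS
  rw [Polynomial.map_prod, prod_comp]
  refine Finset.prod_congr rfl fun i _ => ?_
  rw [Polynomial.map_prod, prod_comp, Finset.prod_image (GS_inj M a i).injOn]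
  refine Finset.prod_congr rfl fun c _ => ?_
  have h1 : (P i).map (Int.castRingHom k) = (minpoly ℚ (θ i)).map (algebraMap ℚ k) := by
    rw [← hP i, Polynomial.map_map]
    congr 1
    exact RingHom.ext_int _ _
  rw [Polynomial.map_comp, h1, comp_assoc, Polynomial.map_sub, map_X, map_C]
  congr 1
  rw [sub_comp, X_comp, C_comp, sub_sub, ← C_add]
  simp

theorem GS_factor (hG : Good χ ψ) (hθ : ∀ i, GenBy χ ψ (cs i).1 (cs i).2 (θ i)) {k : Type*}
    [Field k] [NumberField k] {b : k} (hb : Obs χ ψ b) (M : ℕ) (a : k) :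
    ∀ i, ∀ g ∈ GS θ M a i, IsFactor (minpoly ℚ (θ i)) g := by
  classical
  intro i g hg
  unfold GS at hg
  obtain ⟨c, -, rfl⟩ := Finset.mem_image.1 hg
  exact translate hG hθ hb i _

theorem ff_sep (hG : Good χ ψ) (hθ : ∀ i, GenBy χ ψ (cs i).1 (cs i).2 (θ i))
    {P : Option (ZMod ℓ) → ℤ[X]} (hP : ∀ i, (P i).map (Int.castRingHom ℚ) = minpoly ℚ (θ i))
    {k : Type*} [Field k] [NumberField k] {b : k} (hb : Obs χ ψ b) (M : ℕ) (a : k) :
    (ff P M a).Separable ∧ (ff P M a).natDegree = ℓ * ((ℓ + 1) * M) := by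
  have h1 := final_separable hG hθ hb (GS θ M a) (GS_factor hG hθ hb M a)
  rw [← ff_prod hP] at h1
  refine ⟨h1.1, ?_⟩
  rw [h1.2]
  congr 1
  rw [Finset.sum_congr rfl fun i _ => GS_card M a i, Finset.sum_const, smul_eq_mul, Finset.card_univ,
    Fintype.card_option, ZMod.card]

theorem F0_good (hG : Good χ ψ) (hθ : ∀ i, GenBy χ ψ (cs i).1 (cs i).2 (θ i))
    {P : Option (ZMod ℓ) → ℤ[X]} (hP : ∀ i, (P i).map (Int.castRingHom ℚ) = minpoly ℚ (θ i))
    (M : ℕ) : ((F0 P M).map (Int.castRingHom ℚ)).Separable ∧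
      ((F0 P M).map (Int.castRingHom ℚ)).natDegree = ℓ * ((ℓ + 1) * M) := by
  obtain ⟨r, hr, -, hobs⟩ := exists_r hG 0
  have hfin : ¬ ℓ ∣ Module.finrank ℚ ℚ := by
    rw [Module.finrank_self]
    exact hℓ.out.one_lt.ne' ∘ Nat.dvd_one.1
  have hb : Obs χ ψ (r : ℚ) := (obs_nat hfin hr.ne_zero).2 hobs
  have h1 := ff_sep hG hθ hP hb M 0
  unfold ff at h1
  rwa [C_0, sub_zero, comp_X] at h1

theorem F0_natDegree (hG : Good χ ψ) (hθ : ∀ i, GenBy χ ψ (cs i).1 (cs i).2 (θ i))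
    {P : Option (ZMod ℓ) → ℤ[X]} (hP : ∀ i, (P i).map (Int.castRingHom ℚ) = minpoly ℚ (θ i))
    (M : ℕ) : (F0 P M).natDegree = ℓ * ((ℓ + 1) * M) := by
  rw [← (F0_good hG hθ hP M).2, natDegree_map_eq_of_injective (Int.castRingHom ℚ).injective_int]

theorem F0_sep (hG : Good χ ψ) (hθ : ∀ i, GenBy χ ψ (cs i).1 (cs i).2 (θ i))
    {P : Option (ZMod ℓ) → ℤ[X]} (hP : ∀ i, (P i).map (Int.castRingHom ℚ) = minpoly ℚ (θ i))
    (M : ℕ) {K : Type*} [Field K] [CharZero K] : ((F0 P M).map (Int.castRingHom K)).Separable := by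
  have h1 := (F0_good hG hθ hP M).1.map (f := algebraMap ℚ K)
  rw [Polynomial.map_map] at h1
  rwa [RingHom.ext_int ((algebraMap ℚ K).comp (Int.castRingHom ℚ)) (Int.castRingHom K)] at h1

theorem F0_root (hG : Good χ ψ) (hθ : ∀ i, GenBy χ ψ (cs i).1 (cs i).2 (θ i))
    {P : Option (ZMod ℓ) → ℤ[X]} (hP : ∀ i, (P i).map (Int.castRingHom ℚ) = minpoly ℚ (θ i))
    {M : ℕ} (hM : 0 < M) {L : Type*} [Field L] [CharZero L]
    (hL : (∃ (r : ℕ) (_ : Fact r.Prime), Nonempty (ℚ_[r] →+* L)) ∨ Nonempty (ℝ →+* L)) :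
    ∃ x : L, ((F0 P M).map (Int.castRingHom L)).eval x = 0 := by
  obtain ⟨r, hr, -, hobs⟩ := exists_r hG 0
  have hfin : ¬ ℓ ∣ Module.finrank ℚ ℚ := by
    rw [Module.finrank_self]
    exact hℓ.out.one_lt.ne' ∘ Nat.dvd_one.1
  have hb : Obs χ ψ (r : ℚ) := (obs_nat hfin hr.ne_zero).2 hobs
  obtain ⟨x, hx⟩ := final_local hG hθ (GS θ M (0 : ℚ)) (GS_factor hG hθ hb M 0) (fun i => by
    rw [← Finset.card_pos, GS_card]
    exact hM) hL
  refine ⟨x, ?_⟩
  rw [← ff_prod hP] at hx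
  unfold ff at hx
  rw [C_0, sub_zero, comp_X, ← eval_map_algebraMap, Polynomial.map_map,
    RingHom.ext_int ((algebraMap ℚ L).comp (Int.castRingHom ℚ)) (Int.castRingHom L)] at hx
  exact hx

end

end Pool.Agent.Helper47.GL
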