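import Mathlib
import Pool.Agent.Helper47.GX.Nsq

/-!
# Functions of `x` with a simple zero are no `ℓ`-th powers in function fields unramified there
-/

set_option autoImplicit false

namespace Pool.Agent.Helper47.GL

open Polynomial Pool.Agent.Helper47.GX

theorem descentL {k : Type*} [Field k] {ℓ : ℕ} (hℓ : 2 ≤ ℓ) {G : k[X][X]} (hG : G.Monic)
    (hn : 0 < G.natDegree) {α : k}
    (hsq : Squarefree (G.map (evalRingHom α))) {g g1 : k[X]} (hg : g = (X - C α) * g1)
    (hg1 : g1.eval α ≠ 0) :
    ∀ (n : ℕ) (N : k[X][X]) (d : k[X]), d.natDegree ≤ n → G ∣ N ^ ℓ - C (d ^ ℓ * g) → d = 0 := by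
  obtain ⟨e, rfl⟩ : ∃ e, ℓ = e + 2 := ⟨ℓ - 2, by omega⟩
  intro n
  induction n using Nat.strong_induction_on with
  | _ n ih =>
  intro N d hd hdvd
  by_contra hd0
  have hGα : (G.map (evalRingHom α)).Monic := hG.map _
  have hGαd : (G.map (evalRingHom α)).natDegree = G.natDegree := hG.natDegree_map _
  set π : k[X] := X - C α with hπ
  have hπ0 : π ≠ 0 := X_sub_C_ne_zero α
  have hπα : π.eval α = 0 := by simp [hπ]
  set M := N %ₘ G with hM
  have hNM : G ∣ N - M := by
    rw [hM, modByMonic_eq_sub_mul_div]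
    exact ⟨N /ₘ G, by ring⟩
  have h1 : G ∣ M ^ (e + 2) - C (d ^ (e + 2) * g) := by
    have h2 : M ^ (e + 2) - C (d ^ (e + 2) * g) =
        (N ^ (e + 2) - C (d ^ (e + 2) * g)) - (N ^ (e + 2) - M ^ (e + 2)) := by ring
    rw [h2]
    exact dvd_sub hdvd (hNM.trans (sub_dvd_pow_sub_pow N M (e + 2)))
  have hMd : M.natDegree < G.natDegree := by
    by_cases hM0 : M = 0
    · rw [hM0, natDegree_zero]; exact hn
    · have := degree_modByMonic_lt N hG
      exact natDegree_lt_natDegree hM0 this
  -- reduction modulo `x - α`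
  have h3 : G.map (evalRingHom α) ∣ (M.map (evalRingHom α)) ^ (e + 2) := by
    have h4 := Polynomial.map_dvd (evalRingHom α) h1
    rw [Polynomial.map_sub, Polynomial.map_pow, map_C, coe_evalRingHom, eval_mul, hg, eval_mul, hπα,
      zero_mul, mul_zero, C_0, sub_zero] at h4
    exact h4
  have h5 : M.map (evalRingHom α) = 0 := by
    have h6 : G.map (evalRingHom α) ∣ M.map (evalRingHom α) :=
      (hsq.dvd_pow_iff_dvd (by omega)).1 h3
    by_contra h7
    have h8 := natDegree_le_of_dvd h6 h7
    have h9 : (M.map (evalRingHom α)).natDegree ≤ M.natDegree := natDegree_map_le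
    omega
  obtain ⟨M1, hM1⟩ : C π ∣ M := by
    rw [C_dvd_iff_dvd_coeff]
    intro i
    rw [hπ, dvd_iff_isRoot, IsRoot.def]
    have := congrArg (fun p : k[X] => p.coeff i) h5
    simpa [coeff_map] using this
  have h10 : G ∣ C π * (C π ^ e * M1 ^ (e + 2)) - C (d ^ (e + 2) * g1) := by
    apply dvd_of_C_mul hG hπ0
    convert h1 using 1
    rw [hM1, hg, C_mul, C_mul, C_mul]
    ring
  -- `d` vanishes at `α`
  have h11 : d.eval α = 0 := by
    have h12 := Polynomial.map_dvd (evalRingHom α) h10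
    rw [Polynomial.map_sub, Polynomial.map_mul, map_C, map_C, coe_evalRingHom, hπα, C_0, zero_mul,
      zero_sub, dvd_neg] at h12
    have h13 : eval α (d ^ (e + 2) * g1) = 0 := by
      by_contra h14
      have h15 := natDegree_le_of_dvd h12 (C_ne_zero.2 h14)
      rw [natDegree_C] at h15
      omega
    rw [eval_mul, eval_pow] at h13
    exact pow_eq_zero_iff (by omega) |>.1 ((mul_eq_zero.1 h13).resolve_right hg1)
  obtain ⟨d1, hd1⟩ := dvd_iff_isRoot.2 h11
  have hd10 : d1 ≠ 0 := by
    rintro rfl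
    exact hd0 (by rw [hd1, mul_zero])
  have h16 : G ∣ M1 ^ (e + 2) - C (d1 ^ (e + 2) * g) := by
    apply dvd_of_C_mul hG (pow_ne_zero (e + 1) hπ0)
    convert h10 using 1
    rw [hd1, hg, ← hπ]
    simp only [C_mul, C_pow]
    ring
  have h17 : d.natDegree = d1.natDegree + 1 := by
    rw [hd1, natDegree_mul (X_sub_C_ne_zero α) hd10, natDegree_X_sub_C, add_comm]
  exact hd10 (ih d1.natDegree (by omega) M1 d1 le_rfl h16)

/-- `g(x)` is no `ℓ`-th power in the function field of the curve `G(x, y) = 0` if `g` has a simple zero `α`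
and `G(α, y)` has no multiple zeros -/
theorem not_pow {ℓ : ℕ} (hℓ : 2 ≤ ℓ) {k : Type} [Field k] {K : Type} [Field K] [Algebra k[X] K]
    [IsFractionRing k[X] K]
    {E : Type*} [Field E] [Algebra K E] {G : k[X][X]} (hG : G.Monic) (hirr : Irreducible G) {α : k}
    (hsq : Squarefree (G.map (evalRingHom α))) {g g1 : k[X]} (hg : g = (X - C α) * g1)
    (hg1 : g1.eval α ≠ 0) {y : E} (hy : aeval y (G.map (algebraMap k[X] K)) = 0) {s : E}
    (hs : s ∈ IntermediateField.adjoin K {y})
    (hss : s ^ ℓ = algebraMap K E (algebraMap k[X] K g)) : False := by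
  have hn : 0 < G.natDegree := by
    rcases Nat.eq_zero_or_pos G.natDegree with h | h
    · exact absurd (by rw [eq_one_of_monic_natDegree_zero hG h]; exact isUnit_one) hirr.not_isUnit
    · exact h
  have hinj : Function.Injective (algebraMap k[X] K) := IsFractionRing.injective k[X] K
  have hirrK : Irreducible (G.map (algebraMap k[X] K)) :=
    (hG.irreducible_iff_irreducible_map_fraction_map (K := K)).1 hirr
  have hmin : G.map (algebraMap k[X] K) = minpoly K y :=
    minpoly.eq_of_irreducible_of_monic hirrK hy (hG.map _)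
  have hint : IsIntegral K y := ⟨_, hG.map _, hy⟩
  have hs' : s ∈ (IntermediateField.adjoin K {y}).toSubalgebra := hs
  rw [IntermediateField.adjoin_simple_toSubalgebra_of_isAlgebraic hint.isAlgebraic,
    Algebra.adjoin_singleton_eq_range_aeval] at hs'
  obtain ⟨p, hp⟩ := hs'
  obtain ⟨d, q, hd, hq⟩ := Pool.Agent.R410.LW.clear (R := k[X]) (K := K) p
  apply hd
  refine descentL hℓ hG hn hsq hg hg1 d.natDegree q d le_rfl ?_
  rw [← Polynomial.map_dvd_map (algebraMap k[X] K) hinj hG, hmin]
  apply minpoly.dvd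
  have h1 : aeval y (q.map (algebraMap k[X] K)) = algebraMap K E (algebraMap k[X] K d) * s := by
    rw [hq, map_mul, aeval_C, ← hp]
    rfl
  rw [Polynomial.map_sub, Polynomial.map_pow, map_C, map_sub, map_pow, h1, aeval_C, mul_pow, hss,
    map_mul, map_pow, map_mul, map_pow, sub_self]

end Pool.Agent.Helper47.GL
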