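import Mathlib
import Pool.Agent.Helper47.GL.Nsq
import Pool.Agent.Helper47.GL.Bas

/-!
# A plane model of the cyclic covering `w^ℓ = g(x)` of `G(x, y) = 0`
-/

set_option autoImplicit false

namespace Pool.Agent.Helper47.GL

open Polynomial Pool.Agent.Helper47.GX

variable {k : Type} [Field k] {K : Type} [Field K] [Algebra k[X] K] [IsFractionRing k[X] K]
  {Ω : Type} [Field Ω] [IsAlgClosed Ω] [Algebra K Ω] [Algebra.IsAlgebraic K Ω]

/-- an element whose conjugates do not differ by roots of unity is contained in the field generated by its power -/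
theorem mem_of_pow {ℓ : ℕ} (hℓ : 0 < ℓ) (hℓK : (ℓ : K) ≠ 0) {ζ : Ω} (hζ : IsPrimitiveRoot ζ ℓ)
    {P : K[X]} (hP : P ≠ 0) {y : Ω} (hy : aeval y P = 0) (hy0 : y ≠ 0)
    (hS : ∀ u : Ω, aeval u P = 0 → ∀ j, 0 < j → j < ℓ → u ≠ ζ ^ j * y)
    (E : IntermediateField K Ω) (hE : y ^ ℓ ∈ E) : y ∈ E := by
  classical
  have hinty : IsIntegral E y := (Algebra.IsIntegral.isIntegral (R := K) y).tower_top
  set c : E := ⟨y ^ ℓ, hE⟩ with hc
  have hc0 : c ≠ 0 := by
    intro h
    have := congrArg (fun s : E => (s : Ω)) h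
    exact pow_ne_zero ℓ hy0 this
  have hℓE : (ℓ : E) ≠ 0 := by
    intro h
    apply hℓK
    apply (algebraMap K E).injective
    rw [map_natCast, map_zero, h]
  have hsep : (X ^ ℓ - C c : E[X]).Separable := separable_X_pow_sub_C c hℓE hc0
  have h1 : minpoly E y ∣ X ^ ℓ - C c := by
    apply minpoly.dvd
    rw [map_sub, map_pow, aeval_X, aeval_C]
    exact sub_self _
  have h2 : minpoly E y ∣ P.map (algebraMap K E) := by
    apply minpoly.dvd
    rw [aeval_map_algebraMap]
    exact hy
  have hms : (minpoly E y).Separable := hsep.of_dvd h1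
  have hroots : ∀ u ∈ (minpoly E y).aroots Ω, u = y := by
    intro u hu
    rw [mem_aroots] at hu
    have h3 : u ^ ℓ = y ^ ℓ := by
      have h4 := aeval_eq_zero_of_dvd_aeval_eq_zero h1 hu.2
      rw [map_sub, map_pow, aeval_X, aeval_C] at h4
      exact sub_eq_zero.1 h4
    have h5 : aeval u P = 0 := by
      have h4 := aeval_eq_zero_of_dvd_aeval_eq_zero h2 hu.2
      rwa [aeval_map_algebraMap] at h4
    have h6 : (u / y) ^ ℓ = 1 := by
      rw [div_pow, h3, div_self (pow_ne_zero _ hy0)]
    haveI : NeZero ℓ := ⟨hℓ.ne'⟩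
    obtain ⟨j, hj, hju⟩ := hζ.eq_pow_of_pow_eq_one h6
    rcases Nat.eq_zero_or_pos j with rfl | hj0
    · rw [pow_zero] at hju
      rw [eq_comm, div_eq_one_iff_eq hy0] at hju
      exact hju
    · exfalso
      refine hS u h5 j hj0 hj ?_
      rw [hju, div_mul_cancel₀ _ hy0]
  have hnd : ((minpoly E y).aroots Ω).Nodup := nodup_roots hms.map
  have hcard : Multiset.card ((minpoly E y).aroots Ω) = (minpoly E y).natDegree := by
    have h3 : ((minpoly E y).map (algebraMap E Ω)).Splits := IsAlgClosed.splits _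
    have h4 := h3.natDegree_eq_card_roots
    rw [natDegree_map] at h4
    exact h4.symm
  have hle : (minpoly E y).natDegree ≤ 1 := by
    rw [← hcard, ← Multiset.toFinset_card_of_nodup hnd]
    refine Finset.card_le_one.2 ?_
    intro a ha b hb
    rw [Multiset.mem_toFinset] at ha hb
    rw [hroots a ha, hroots b hb]
  have hpos := minpoly.natDegree_pos hinty
  have hone : (minpoly E y).natDegree = 1 := by omega
  obtain ⟨e, he⟩ := minpoly.natDegree_eq_one_iff.1 hone
  rw [← he]
  exact e.2

include K Ω in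
theorem irr_HL {ℓ : ℕ} (hℓ : ℓ.Prime) (hℓk : (ℓ : k) ≠ 0) {ζ : k} (hζ : IsPrimitiveRoot ζ ℓ)
    {G : k[X][X]} (hG : G.Monic) (hirr : Irreducible G)
    (hS : ∀ u v : Ω, aeval u (G.map (algebraMap k[X] K)) = 0 → aeval v (G.map (algebraMap k[X] K)) = 0 →
      ∀ j, 0 < j → j < ℓ → u ≠ algebraMap K Ω (algebraMap k[X] K (C ζ)) ^ j * v)
    (hS0 : ∀ u : Ω, aeval u (G.map (algebraMap k[X] K)) = 0 → u ≠ 0)
    {α : k} (hsq : Squarefree (G.map (evalRingHom α))) {g g1 : k[X]}
    (hg : g = (X - C α) * g1) (hg1 : g1.eval α ≠ 0) {Q : k[X][X]}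
    (hQ : PL ℓ (C ζ) G = expand k[X] ℓ Q) :
    Irreducible (expand k[X] ℓ (Q.scaleRoots g)) := by
  classical
  set GK := G.map (algebraMap k[X] K) with hGK
  have hinj : Function.Injective (algebraMap k[X] K) := IsFractionRing.injective k[X] K
  have hn : 0 < G.natDegree := by
    rcases Nat.eq_zero_or_pos G.natDegree with h | h
    · exact absurd (by rw [eq_one_of_monic_natDegree_zero hG h]; exact isUnit_one) hirr.not_isUnit
    · exact h
  have hGKm : GK.Monic := hG.map _
  have hGKd : GK.natDegree = G.natDegree := hG.natDegree_map _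
  have hGKirr : Irreducible GK := (hG.irreducible_iff_irreducible_map_fraction_map (K := K)).1 hirr
  have hg10 : g1 ≠ 0 := by
    rintro rfl
    exact hg1 (by simp)
  have hg0 : g ≠ 0 := by
    rw [hg]
    exact mul_ne_zero (X_sub_C_ne_zero α) hg10
  have hQm : Q.Monic := by
    have h1 : (expand k[X] ℓ Q).Monic := by
      rw [← hQ]
      exact PL_monic hG
    rwa [monic_expand_iff hℓ.pos] at h1
  have hQd : Q.natDegree = G.natDegree := by
    have h1 := congrArg natDegree hQ
    rw [PL_natDegree hG, natDegree_expand, mul_comm] at h1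
    exact (Nat.eq_of_mul_eq_mul_right hℓ.pos h1).symm
  -- the roots of unity
  set i : k →+* Ω := ((algebraMap K Ω).comp (algebraMap k[X] K)).comp C with hi
  have hζΩ : IsPrimitiveRoot (i ζ) ℓ := hζ.map_of_injective i.injective
  have hℓK : (ℓ : K) ≠ 0 := by
    have h1 : (ℓ : K) = algebraMap k[X] K (C (ℓ : k)) := by rw [map_natCast, map_natCast]
    rw [h1, Ne, map_eq_zero_iff _ hinj, C_eq_zero]
    exact hℓk
  -- the elements
  obtain ⟨y, hy⟩ := IsAlgClosed.exists_aeval_eq_zero Ω GK (by
    rw [degree_eq_natDegree hGKm.ne_zero, hGKd]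
    exact_mod_cast hn.ne')
  obtain ⟨w, hw⟩ := IsAlgClosed.exists_pow_nat_eq (algebraMap K Ω (algebraMap k[X] K g)) hℓ.pos
  have hgΩ : algebraMap K Ω (algebraMap k[X] K g) ≠ 0 := by
    rw [Ne, map_eq_zero, map_eq_zero_iff _ hinj]
    exact hg0
  have hy0 : y ≠ 0 := hS0 y hy
  have hint : IsIntegral K y := ⟨_, hGKm, hy⟩
  set z := y * w with hz
  have hzint : IsIntegral K z := Algebra.IsIntegral.isIntegral z
  -- `y ^ ℓ` is a zero of `Q`
  set QK := Q.map (algebraMap k[X] K) with hQK
  have hQy : aeval (y ^ ℓ) QK = 0 := by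
    have h1 := congrArg (fun f : k[X][X] => aeval y (f.map (algebraMap k[X] K))) hQ
    simp only [map_expand, expand_aeval] at h1
    rw [← h1, PL, Polynomial.map_prod, map_prod]
    refine Finset.prod_eq_zero (Finset.mem_range.2 hℓ.pos) ?_
    rw [pow_zero, scaleRoots_one]
    exact hy
  set H := expand k[X] ℓ (Q.scaleRoots g) with hH
  have hHm : H.Monic := by
    rw [hH, monic_expand_iff hℓ.pos, monic_scaleRoots_iff]
    exact hQm
  have hHd : H.natDegree = G.natDegree * ℓ := by
    rw [hH, natDegree_expand, natDegree_scaleRoots, hQd]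
  have hHK : H.map (algebraMap k[X] K) = expand K ℓ (QK.scaleRoots (algebraMap k[X] K g)) := by
    rw [hH, map_expand, map_scaleRoots]
    rw [hQm.leadingCoeff, map_one]
    exact one_ne_zero
  have hHz : aeval z (H.map (algebraMap k[X] K)) = 0 := by
    rw [hHK, expand_aeval, hz, mul_pow, hw, mul_comm]
    exact scaleRoots_aeval_eq_zero hQy
  -- `y` is contained in `K(z)`
  set Kz := IntermediateField.adjoin K {z} with hKz
  have hzmem : z ∈ Kz := IntermediateField.mem_adjoin_simple_self K z
  have hy2 : y ^ ℓ ∈ Kz := by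
    have h1 : y ^ ℓ = z ^ ℓ / algebraMap K Ω (algebraMap k[X] K g) := by
      rw [eq_div_iff hgΩ, hz, mul_pow, hw]
    rw [h1]
    exact div_mem (pow_mem hzmem ℓ) (Kz.algebraMap_mem _)
  have hymem : y ∈ Kz := by
    refine mem_of_pow hℓ.pos hℓK hζΩ hGKm.ne_zero hy hy0 ?_ Kz hy2
    intro u hu j hj hjℓ
    exact hS u y hu hy j hj hjℓ
  have hle : IntermediateField.adjoin K {y} ≤ Kz := by
    rw [IntermediateField.adjoin_simple_le_iff]
    exact hymem
  set Ky := IntermediateField.adjoin K {y} with hKy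
  have hfy : Module.finrank K Ky = G.natDegree := by
    rw [IntermediateField.adjoin.finrank hint, ← minpoly.eq_of_irreducible_of_monic hGKirr hy hGKm, hGKd]
  have hfz : Module.finrank K Kz = (minpoly K z).natDegree := IntermediateField.adjoin.finrank hzint
  haveI : FiniteDimensional K Kz := IntermediateField.adjoin.finiteDimensional hzint
  -- the degree over `K(y)`
  set E := IntermediateField.extendScalars hle with hE
  have htower : Module.finrank K Ky * Module.finrank Ky E = Module.finrank K Kz := by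
    have h1 : Module.finrank K E = Module.finrank K Kz := rfl
    rw [← h1]
    exact Module.finrank_mul_finrank K Ky E
  set gy : Ky := algebraMap K Ky (algebraMap k[X] K g) with hgy
  have hirrw : Irreducible (X ^ ℓ - C gy : Ky[X]) := by
    apply X_pow_sub_C_irreducible_of_prime hℓ
    intro b hb
    refine not_pow (K := K) hℓ.two_le hG hirr hsq hg hg1 hy (s := (b : Ω)) b.2 ?_
    have := congrArg (fun s : Ky => (s : Ω)) hb
    exact this
  have hmw : minpoly Ky w = X ^ ℓ - C gy := by
    refine (minpoly.eq_of_irreducible_of_monic hirrw ?_ (monic_X_pow_sub_C _ hℓ.ne_zero)).symm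
    rw [map_sub, map_pow, aeval_X, aeval_C, hw]
    exact sub_self _
  have hwmem : w ∈ E := by
    rw [hE, IntermediateField.mem_extendScalars]
    have h1 : w = z / y := by rw [hz, mul_div_cancel_left₀ _ hy0]
    rw [h1]
    exact div_mem hzmem hymem
  have hwint : IsIntegral Ky w := (Algebra.IsIntegral.isIntegral (R := K) w).tower_top
  haveI : FiniteDimensional K E := inferInstanceAs (FiniteDimensional K Kz)
  haveI : FiniteDimensional Ky E := FiniteDimensional.right K Ky E
  have hge1 : ℓ ≤ Module.finrank Ky E := by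
    have h1 : Module.finrank Ky (IntermediateField.adjoin Ky {w}) = ℓ := by
      rw [IntermediateField.adjoin.finrank hwint, hmw, natDegree_X_pow_sub_C]
    have h2 : IntermediateField.adjoin Ky {w} ≤ E := by
      rw [IntermediateField.adjoin_simple_le_iff]
      exact hwmem
    rw [← h1]
    exact IntermediateField.finrank_le_of_le_right h2
  have hge : G.natDegree * ℓ ≤ (minpoly K z).natDegree := by
    rw [← hfz, ← htower, hfy]
    exact Nat.mul_le_mul_left _ hge1
  have hmd : minpoly K z ∣ H.map (algebraMap k[X] K) := minpoly.dvd K z hHz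
  have heq : H.map (algebraMap k[X] K) = minpoly K z := by
    refine eq_of_monic_of_dvd_of_natDegree_le (minpoly.monic hzint) (hHm.map _) hmd ?_
    rw [hHm.natDegree_map, hHd]
    exact hge
  rw [hHm.irreducible_iff_irreducible_map_fraction_map (K := K), heq]
  exact minpoly.irreducible hzint

end Pool.Agent.Helper47.GL
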