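import Mathlib
import Pool.Agent.Helper47.GX.Wt
import Pool.Agent.Helper47.GL.Irr

/-!
# Points of the cyclic covering `w^ℓ = g(x)` of `G(x, y) = 0` over finite fields
-/

set_option autoImplicit false

namespace Pool.Agent.Helper47.GL

open Polynomial Pool.Agent.Helper47.GX

theorem scaleRoots_sep {R : Type*} [Field R] {G : R[X]} (hG : G.Separable) {s : R} (hs : s ≠ 0) :
    (G.scaleRoots s).Separable := by
  have h1 : G.scaleRoots s = C (s ^ G.natDegree) * G.comp (C s⁻¹ * X) := by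
    ext i
    rw [coeff_scaleRoots, coeff_C_mul, comp_C_mul_X_coeff]
    by_cases hi : i ≤ G.natDegree
    · rw [pow_sub₀ _ hs hi, inv_pow]
      ring
    · rw [coeff_eq_zero_of_natDegree_lt (not_le.1 hi)]
      ring
  rw [separable_def'] at hG
  obtain ⟨a, b, h⟩ := hG
  have h2 := congrArg (fun f : R[X] => f.comp (C s⁻¹ * X)) h
  simp only [add_comp, mul_comp, one_comp] at h2
  have hsn : s ^ G.natDegree ≠ 0 := pow_ne_zero _ hs
  have h3 : (C (s ^ G.natDegree)⁻¹ : R[X]) * C (s ^ G.natDegree) = 1 := by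
    rw [← C_mul, inv_mul_cancel₀ hsn, C_1]
  have h4 : (C s : R[X]) * C s⁻¹ = 1 := by
    rw [← C_mul, mul_inv_cancel₀ hs, C_1]
  rw [separable_def', h1]
  refine ⟨C (s ^ G.natDegree)⁻¹ * a.comp (C s⁻¹ * X),
    C (s ^ G.natDegree)⁻¹ * C s * b.comp (C s⁻¹ * X), ?_⟩
  have h5 : derivative (C (s ^ G.natDegree) * G.comp (C s⁻¹ * X)) =
      C (s ^ G.natDegree) * (C s⁻¹ * (derivative G).comp (C s⁻¹ * X)) := by
    rw [derivative_C_mul, derivative_comp, derivative_C_mul, derivative_X, mul_one]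
  rw [h5]
  linear_combination (C (s ^ G.natDegree)⁻¹ * C (s ^ G.natDegree)) * h2 +
    (1 : R[X]) * h3 + (C (s ^ G.natDegree)⁻¹ * C (s ^ G.natDegree) * b.comp (C s⁻¹ * X) *
      (derivative G).comp (C s⁻¹ * X)) * h4

theorem scaleRoots_zero_iff {K : Type*} [Field K] {s : K} (hs : s ≠ 0) (G : K[X]) (u : K) :
    (G.scaleRoots s).eval u = 0 ↔ G.eval (s⁻¹ * u) = 0 := by
  have h1 : u = s * (s⁻¹ * u) := by
    rw [← mul_assoc, mul_inv_cancel₀ hs, one_mul]
  conv_lhs => rw [h1, scaleRoots_eval_mul]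
  rw [mul_eq_zero, or_iff_right (pow_ne_zero _ hs)]

theorem sep_PL {Ω : Type*} [Field Ω] [IsAlgClosed Ω] {ℓ : ℕ} (hℓ : 0 < ℓ) {ζ : Ω}
    (hζ : IsPrimitiveRoot ζ ℓ) {G : Polynomial Ω} (hG : G.Separable)
    (hS : ∀ u v : Ω, G.eval u = 0 → G.eval v = 0 → ∀ j, 0 < j → j < ℓ → u ≠ ζ ^ j * v) :
    (PL ℓ ζ G).Separable := by
  have hζ0 : ζ ≠ 0 := hζ.ne_zero hℓ.ne'
  unfold PL
  apply separable_prod' (s := Finset.range ℓ)
  · intro i hi j hj hij
    have key : ∀ i j, i < j → j < ℓ → IsCoprime (G.scaleRoots (ζ ^ i)) (G.scaleRoots (ζ ^ j)) := by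
      intro i j hij hj
      rw [Polynomial.isCoprime_iff_aeval_ne_zero_of_isAlgClosed (K := Ω) (k := Ω)]
      intro a
      by_contra hno
      push Not at hno
      obtain ⟨h1, h2⟩ := hno
      rw [coe_aeval_eq_eval, scaleRoots_zero_iff (pow_ne_zero _ hζ0)] at h1 h2
      refine hS _ _ h1 h2 (j - i) (by omega) (by omega) ?_
      rw [← mul_assoc]
      congr 1
      rw [eq_comm, mul_inv_eq_iff_eq_mul₀ (pow_ne_zero _ hζ0), eq_comm, inv_mul_eq_iff_eq_mul₀
        (pow_ne_zero _ hζ0), ← pow_add]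
      congr 1
      omega
    rcases lt_or_gt_of_ne hij with h | h
    · exact key i j h (Finset.mem_range.1 hj)
    · exact (key j i h (Finset.mem_range.1 hi)).symm
  · intro i _
    exact scaleRoots_sep hG (pow_ne_zero _ hζ0)

/-- the constant -/
noncomputable def CWL (ℓ n d δ N : ℕ) : ℕ :=
  (Pool.Agent.R410.PW.WC (n * ℓ) (ℓ * d + n * N) ((n * ℓ + n * ℓ) * (ℓ * d + n * N)) +
    (N + (n * ℓ + n * ℓ) * (ℓ * d) + δ) * (n * ℓ) + 1) ^ 2 + n * ℓ

/-- the extraction of a point of the covering from a point of the plane model -/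
theorem extractL {F : Type} [Field F] {ℓ : ℕ} (hℓ : ℓ.Prime) {ζ : F} (hζ : IsPrimitiveRoot ζ ℓ)
    {G A B AP BP Q : F[X][X]} {D DP g : F[X]}
    (hG : G.Monic) (hAB : A * G + B * derivative G = C D)
    (hP : AP * (PL ℓ (C ζ) G) + BP * derivative (PL ℓ (C ζ) G) = C DP)
    (hQm : Q.Monic) (hQ : PL ℓ (C ζ) G = expand F[X] ℓ Q) {x0 z0 : F}
    (hz : (expand F[X] ℓ (Q.scaleRoots g)).evalEval x0 z0 = 0) (hg0 : g.eval x0 ≠ 0)
    (hD0 : D.eval x0 ≠ 0) (hDP0 : DP.eval x0 ≠ 0) :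
    ∃ y0 w0 : F, G.evalEval x0 y0 = 0 ∧ (derivative G).evalEval x0 y0 ≠ 0 ∧ w0 ^ ℓ = g.eval x0 ∧
      w0 ≠ 0 := by
  classical
  have hζ0 : ζ ≠ 0 := hζ.ne_zero hℓ.ne_zero
  set ev := evalRingHom x0 with hev
  set g0 := g.eval x0 with hg0def
  set Q0 := Q.map ev with hQ0
  set G0 := G.map ev with hG0
  have hQ0m : Q0.Monic := hQm.map _
  have hevζ : ev (C ζ) = ζ := by rw [hev, coe_evalRingHom, eval_C]
  have hP0 : PL ℓ ζ G0 = expand F ℓ Q0 := by
    have h1 := congrArg (Polynomial.map ev) hQ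
    rw [PL_map ev hG, map_expand, hevζ] at h1
    exact h1
  have hsep : (PL ℓ ζ G0).Separable := by
    have h1 := sep_of ev hP (by exact hDP0)
    rw [PL_map ev hG, hevζ] at h1
    exact h1
  have hz1 : (Q0.scaleRoots g0).eval (z0 ^ ℓ) = 0 := by
    rw [← map_evalRingHom_eval, map_expand, expand_eval, map_scaleRoots] at hz
    · exact hz
    · rw [hQm.leadingCoeff, map_one]
      exact one_ne_zero
  set T0 := z0 ^ ℓ / g0 with hT0
  have hzT : z0 ^ ℓ = g0 * T0 := by rw [hT0, mul_div_cancel₀ _ hg0]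
  have hQT : Q0.eval T0 = 0 := by
    rw [hzT, scaleRoots_eval_mul] at hz1
    exact (mul_eq_zero.1 hz1).resolve_left (pow_ne_zero _ hg0)
  have hT00 : T0 ≠ 0 := by
    intro h0
    have h1 : (PL ℓ ζ G0).eval 0 = 0 := by
      rw [h0] at hQT
      rw [hP0, expand_eval, zero_pow hℓ.ne_zero]
      exact hQT
    have h2 : (derivative (PL ℓ ζ G0)).eval 0 = 0 := by
      rw [hP0, derivative_expand, eval_mul, eval_mul, eval_pow, eval_X, zero_pow (by
        have := hℓ.two_le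
        omega), mul_zero, mul_zero]
    obtain ⟨a, b, h3⟩ := separable_def' _ |>.1 hsep
    have h4 : eval 0 a * eval 0 (PL ℓ ζ G0) + eval 0 b * eval 0 (derivative (PL ℓ ζ G0)) = 1 := by
      rw [← eval_mul, ← eval_mul, ← eval_add, h3, eval_one]
    rw [h1, h2] at h4
    simp at h4
  have hz00 : z0 ≠ 0 := by
    rintro rfl
    apply hT00
    rw [hT0, zero_pow hℓ.ne_zero, zero_div]
  have key : ∃ y0 : F, G0.eval y0 = 0 ∧ y0 ^ ℓ = T0 := by
    by_cases hsq : ∃ u : F, u ^ ℓ = T0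
    · obtain ⟨u, hu⟩ := hsq
      have h1 : (PL ℓ ζ G0).eval u = 0 := by
        rw [hP0, expand_eval, hu]
        exact hQT
      obtain ⟨j, hj, h2⟩ := (PL_eval_zero_iff hζ hℓ.pos G0 u).1 h1
      refine ⟨ζ ^ j * u, h2, ?_⟩
      rw [mul_pow, ← pow_mul, mul_comm j ℓ, pow_mul, hζ.pow_eq_one, one_pow, one_mul, hu]
    · exfalso
      have hirr : Irreducible (X ^ ℓ - C T0 : F[X]) :=
        X_pow_sub_C_irreducible_of_prime hℓ (fun b hb => hsq ⟨b, hb⟩)
      have hprime := hirr.prime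
      have h1 : (X - C T0) ∣ Q0 := dvd_iff_isRoot.2 hQT
      have h2 : (X ^ ℓ - C T0 : F[X]) ∣ PL ℓ ζ G0 := by
        rw [hP0]
        obtain ⟨q, hq⟩ := h1
        refine ⟨expand F ℓ q, ?_⟩
        rw [hq, map_mul, map_sub, expand_X, expand_C]
      have hscale : ∀ (f : F[X]) (j : ℕ), (X ^ ℓ - C T0 : F[X]) ∣ f →
          (X ^ ℓ - C T0 : F[X]) ∣ f.scaleRoots (ζ ^ j) := by
        rintro f j ⟨q, rfl⟩
        rw [mul_scaleRoots_of_noZeroDivisors]
        refine Dvd.dvd.mul_right ?_ _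
        have h3 : (X ^ ℓ - C T0 : F[X]).scaleRoots (ζ ^ j) = X ^ ℓ - C T0 := by
          ext i
          rw [coeff_scaleRoots, natDegree_X_pow_sub_C, coeff_sub, coeff_X_pow, coeff_C]
          by_cases h0 : i = 0
          · subst h0
            rw [Nat.sub_zero, ← pow_mul, mul_comm j ℓ, pow_mul, hζ.pow_eq_one, one_pow, mul_one]
          · by_cases h1 : i = ℓ
            · subst h1
              rw [Nat.sub_self, pow_zero, mul_one]
            · rw [if_neg h1, if_neg h0]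
              ring
        rw [h3]
      obtain ⟨j, hj, hdj⟩ := (hprime.dvd_finsetProd_iff _).1 h2
      rw [Finset.mem_range] at hj
      -- all the factors are divisible
      have h3 : (X ^ ℓ - C T0 : F[X]) ∣ G0 := by
        have h4 := hscale _ (ℓ - j) hdj
        rwa [← scaleRoots_mul, ← pow_add, Nat.add_sub_cancel' hj.le, hζ.pow_eq_one,
          scaleRoots_one] at h4
      have h5 : (X ^ ℓ - C T0 : F[X]) ∣ G0.scaleRoots (ζ ^ 1) := hscale _ 1 h3
      have h6 : (X ^ ℓ - C T0 : F[X]) * (X ^ ℓ - C T0 : F[X]) ∣ PL ℓ ζ G0 := by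
        have h7 : PL ℓ ζ G0 = G0.scaleRoots (ζ ^ 0) * (G0.scaleRoots (ζ ^ 1) *
            ∏ i ∈ ((Finset.range ℓ).erase 0).erase 1, G0.scaleRoots (ζ ^ i)) := by
          rw [Finset.mul_prod_erase _ (fun i => G0.scaleRoots (ζ ^ i)) (Finset.mem_erase.2
              ⟨one_ne_zero, Finset.mem_range.2 hℓ.one_lt⟩),
            Finset.mul_prod_erase _ (fun i => G0.scaleRoots (ζ ^ i)) (Finset.mem_range.2 hℓ.pos)]
          rfl
        rw [h7, pow_zero, scaleRoots_one]
        exact mul_dvd_mul h3 (h5.mul_right _)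
      have h7 := hsep.squarefree _ h6
      exact hirr.not_isUnit h7
  obtain ⟨y0, hy0, hyT⟩ := key
  have hy00 : y0 ≠ 0 := by
    rintro rfl
    exact hT00 (by rw [← hyT, zero_pow hℓ.ne_zero])
  refine ⟨y0, z0 / y0, ?_, ?_, ?_, div_ne_zero hz00 hy00⟩
  · rw [← map_evalRingHom_eval]
    exact hy0
  · intro h0
    have h1 := congrArg (fun f : F[X][X] => f.evalEval x0 y0) hAB
    simp only [evalEval_add, evalEval_mul, evalEval_C] at h1
    rw [h0, ← map_evalRingHom_eval x0 y0 G] at h1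
    have h2 : eval y0 (map (evalRingHom x0) G) = 0 := hy0
    rw [h2, mul_zero, mul_zero, add_zero] at h1
    exact hD0 h1.symm
  · rw [div_pow, hyT, hzT, mul_div_assoc, div_self hT00, mul_one]

end Pool.Agent.Helper47.GL
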