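import Mathlib
import Pool.Agent.Helper47.GX.Wf
import Pool.Agent.Helper47.GL.Wt

/-!
# Points of the cyclic covering `w^ℓ = g(x)` of `G(x, y) = 0` over finite fields: final form
-/

set_option autoImplicit false

namespace Pool.Agent.Helper47.GL

open Polynomial Pool.Agent.Helper47.GX

/-- the constant -/
noncomputable def CXL (ℓ n d δ N : ℕ) : ℕ := CWL ℓ n d δ N + (n * n * ℓ + n)

theorem WL {F : Type} [Field F] [Finite F] {ℓ : ℕ} (hℓ : ℓ.Prime) {ζ : F}
    (hζ : IsPrimitiveRoot ζ ℓ) {G A B : F[X][X]} {D g : F[X]} (hG : G.Monic)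
    (hn : 0 < G.natDegree) (hAB : A * G + B * derivative G = C D) (hD : D ≠ 0) {δ : ℕ}
    (hδ : D.natDegree ≤ δ) {d : ℕ} (hd : CB G d)
    (hirr : Irreducible (G.map (mapRingHom (algebraMap F (AlgebraicClosure F)))))
    (hg : g.Separable) (hgN : δ < g.natDegree) (h2n : ((G.natDegree * ℓ : ℕ) : F) ≠ 0)
    (hq : CXL ℓ G.natDegree d δ g.natDegree < Nat.card F) :
    ∃ x0 y0 w0 : F, G.evalEval x0 y0 = 0 ∧ (derivative G).evalEval x0 y0 ≠ 0 ∧
      w0 ^ ℓ = g.eval x0 ∧ w0 ≠ 0 := by
  classical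
  set k := AlgebraicClosure F with hk
  set φ := algebraMap F k with hφ
  set K := RatFunc k with hK
  let Om := AlgebraicClosure K
  set Gk := G.map (mapRingHom φ) with hGk
  have hGkm : Gk.Monic := hG.map _
  set GO := (Gk.map (algebraMap k[X] K)).map (algebraMap K Om) with hGO
  have hGOm : GO.Monic := (hGkm.map _).map _
  have hGOd : GO.natDegree = G.natDegree := by
    rw [hGO, (hGkm.map _).natDegree_map, hGkm.natDegree_map, hG.natDegree_map]
  let ι : F →+* Om := ((algebraMap K Om).comp (algebraMap k[X] K)).comp (C.comp φ)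
  have hι : Function.Injective ι := ι.injective
  have hιζ : IsPrimitiveRoot (ι ζ) ℓ := hζ.map_of_injective hι
  set R := GO.roots.toFinset with hR
  have hRc : R.card ≤ G.natDegree := by
    rw [← hGOd]
    exact (Multiset.toFinset_card_le _).trans (card_roots' _)
  set T : Finset Om := ((R ×ˢ R) ×ˢ Finset.range ℓ).image
    (fun s => (ι ζ ^ s.2 * s.1.2 - s.1.1) / (1 - ι ζ ^ s.2)) ∪ R.image (fun s => -s) with hT
  have hTc : T.card ≤ G.natDegree * G.natDegree * ℓ + G.natDegree := by
    refine (Finset.card_union_le _ _).trans (Nat.add_le_add (Finset.card_image_le.trans ?_)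
      (Finset.card_image_le.trans hRc))
    rw [Finset.card_product, Finset.card_product, Finset.card_range]
    exact Nat.mul_le_mul_right _ (Nat.mul_le_mul hRc hRc)
  obtain ⟨c, hc⟩ : ∃ c : F, ι c ∉ T := by
    by_contra hno
    push Not at hno
    have := Fintype.ofFinite F
    have h1 : (Finset.univ : Finset F).image ι ⊆ T := by
      intro a ha
      obtain ⟨b, -, rfl⟩ := Finset.mem_image.1 ha
      exact hno b
    have h2 := Finset.card_le_card h1
    rw [Finset.card_image_of_injective _ hι, Finset.card_univ, ← Nat.card_eq_fintype_card] at h2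
    unfold CXL at hq
    omega
  set L : F[X][X] := X - C (C c) with hL
  have hLm : L.Monic := monic_X_sub_C _
  have hLd : L.natDegree = 1 := natDegree_X_sub_C _
  set Gc := G.comp L with hGc
  have hGcd : Gc.natDegree = G.natDegree := by rw [hGc, natDegree_comp, hLd, mul_one]
  have hGcm : Gc.Monic := hG.comp hLm (by rw [hLd]; norm_num)
  have hdL : derivative Gc = (derivative G).comp L := by
    rw [hGc, derivative_comp, hL, derivative_sub, derivative_X, derivative_C, sub_zero, one_mul]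
  have hABc : A.comp L * Gc + B.comp L * derivative Gc = C D := by
    rw [hdL, hGc, ← mul_comp, ← mul_comp, ← add_comp, hAB, C_comp]
  have hdc : CB Gc d := by
    refine CB_comp hd ?_
    rw [hL, sub_eq_add_neg]
    exact CB_add CB_X (CB_neg (CB_C _ (by rw [natDegree_C])))
  have hev : ∀ (f : F[X][X]) (a b : F), (f.comp L).evalEval a b = f.evalEval a (b - c) := by
    intro f a b
    rw [← map_evalRingHom_eval, ← map_evalRingHom_eval, Polynomial.map_comp, eval_comp]
    congr 1
    simp [hL]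
  have hirrc : Irreducible (Gc.map (mapRingHom φ)) := by
    have h1 : Gc.map (mapRingHom φ) = Gk.comp (X - C (C (φ c))) := by
      rw [hGc, Polynomial.map_comp, hGk]
      congr 1
      simp [hL]
    rw [h1]
    exact irr_comp hirr _
  have hroot : ∀ u : Om, aeval u ((Gc.map (mapRingHom φ)).map (algebraMap k[X] K)) = 0 →
      u - ι c ∈ R := by
    intro u hu
    rw [hR, Multiset.mem_toFinset, mem_roots hGOm.ne_zero, IsRoot.def]
    have h1 : (Gc.map (mapRingHom φ)).map (algebraMap k[X] K) =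
        (Gk.map (algebraMap k[X] K)).comp (X - C (algebraMap k[X] K (C (φ c)))) := by
      rw [hGc, Polynomial.map_comp, Polynomial.map_comp, hGk]
      congr 1
      simp [hL]
    rw [h1, aeval_comp, aeval_def, ← eval_map] at hu
    rw [hGO]
    have h2 : aeval u ((X : K[X]) - C (algebraMap k[X] K (C (φ c)))) = u - ι c := by
      rw [map_sub, aeval_X, aeval_C]
      rfl
    rw [h2] at hu
    exact hu
  have hS : ∀ u v : Om, aeval u ((Gc.map (mapRingHom φ)).map (algebraMap k[X] K)) = 0 →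
      aeval v ((Gc.map (mapRingHom φ)).map (algebraMap k[X] K)) = 0 →
      ∀ j, 0 < j → j < ℓ → u ≠ ι ζ ^ j * v := by
    intro u v hu hv j hj hjℓ huv
    have h1 : (1 - ι ζ ^ j) ≠ 0 := by
      intro h
      have h2 : ι ζ ^ j = 1 := by linear_combination -h
      have h3 := Nat.le_of_dvd hj (hιζ.dvd_of_pow_eq_one _ h2)
      omega
    apply hc
    rw [hT, Finset.mem_union]
    left
    rw [Finset.mem_image]
    refine ⟨((u - ι c, v - ι c), j), Finset.mem_product.2 ⟨Finset.mem_product.2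
      ⟨hroot u hu, hroot v hv⟩, Finset.mem_range.2 hjℓ⟩, ?_⟩
    rw [div_eq_iff h1]
    linear_combination -huv
  have hS0 : ∀ u : Om, aeval u ((Gc.map (mapRingHom φ)).map (algebraMap k[X] K)) = 0 → u ≠ 0 := by
    rintro u hu rfl
    apply hc
    rw [hT, Finset.mem_union]
    right
    rw [Finset.mem_image]
    exact ⟨0 - ι c, hroot 0 hu, by ring⟩
  have hq' : CWL ℓ Gc.natDegree d δ g.natDegree < Nat.card F := by
    rw [hGcd]
    exact lt_of_le_of_lt (Nat.le_add_right _ _) hq
  obtain ⟨x0, y0, w0, h1, h2, h3, h4⟩ := W1L hℓ hζ hGcm (by rw [hGcd]; exact hn) hABc hD hδ hdc hirrc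
    hS hS0 hg hgN (by rw [hGcd]; exact h2n) hq'
  refine ⟨x0, y0 - c, w0, ?_, ?_, h3, h4⟩
  · rw [← hev]
    exact h1
  · rw [← hev, ← hdL]
    exact h2

/-- the constant for all cases -/
noncomputable def CYL (ℓ n d δ N : ℕ) : ℕ := CXL ℓ n d δ N + CX n d δ N

/-- **Weil**: points with nonzero `w` on `w^ℓ = g(x)`, `G(x, y) = 0` -/
theorem weilL {F : Type} [Field F] [Finite F] {ℓ : ℕ} (hℓ : ℓ.Prime)
    {G A B : F[X][X]} {D g : F[X]} (hG : G.Monic)
    (hn : 0 < G.natDegree) (hAB : A * G + B * derivative G = C D) (hD : D ≠ 0) {δ : ℕ}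
    (hδ : D.natDegree ≤ δ) {d : ℕ} (hd : CB G d)
    (hirr : Irreducible (G.map (mapRingHom (algebraMap F (AlgebraicClosure F)))))
    (hg : g.Separable) (hgN : δ < g.natDegree) (h2n : ((2 * G.natDegree * ℓ : ℕ) : F) ≠ 0)
    (hq : CYL ℓ G.natDegree d δ g.natDegree < Nat.card F) :
    ∃ x0 y0 w0 : F, G.evalEval x0 y0 = 0 ∧ (derivative G).evalEval x0 y0 ≠ 0 ∧
      w0 ^ ℓ = g.eval x0 ∧ w0 ≠ 0 := by
  classical
  have _ := Fintype.ofFinite F
  unfold CYL at hq
  have hcast : ((2 * G.natDegree * ℓ : ℕ) : F) = 2 * (G.natDegree : F) * (ℓ : F) := by push_cast; ring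
  rw [hcast] at h2n
  have hℓF : (ℓ : F) ≠ 0 := right_ne_zero_of_mul h2n
  have h2F : (2 : F) ≠ 0 := left_ne_zero_of_mul (left_ne_zero_of_mul h2n)
  have hnF : (G.natDegree : F) ≠ 0 := right_ne_zero_of_mul (left_ne_zero_of_mul h2n)
  by_cases hdiv : ℓ ∣ Nat.card F - 1
  · obtain ⟨γ, hγ⟩ := IsCyclic.exists_generator (α := Fˣ)
    have hord : orderOf γ = Nat.card F - 1 := by
      rw [orderOf_eq_card_of_forall_mem_zpowers hγ, Nat.card_units]
    have hpos : 0 < Nat.card F - 1 := by
      have := Finite.one_lt_card (α := F)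
      omega
    have hprim : IsPrimitiveRoot γ (Nat.card F - 1) := by
      rw [← hord]
      exact IsPrimitiveRoot.orderOf γ
    obtain ⟨e, he⟩ := hdiv
    have h1 : IsPrimitiveRoot (γ ^ e) ℓ := hprim.pow hpos (by rw [he, mul_comm])
    have h2 : IsPrimitiveRoot ((γ ^ e : Fˣ) : F) ℓ := IsPrimitiveRoot.coe_units_iff.2 h1
    refine WL hℓ h2 hG hn hAB hD hδ hd hirr hg hgN ?_ (by omega)
    push_cast
    exact mul_ne_zero hnF hℓF
  · obtain ⟨x0, y0, w0, h1, h2, h3, h4⟩ := W hG hn hAB hD hδ hd hirr hg hgN (by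
      push_cast
      exact mul_ne_zero h2F hnF) (by omega)
    have hcop : (Nat.card Fˣ).Coprime ℓ := by
      rw [Nat.card_units, Nat.coprime_comm]
      exact (Nat.Prime.coprime_iff_not_dvd hℓ).2 hdiv
    have hgx : g.eval x0 ≠ 0 := by
      rw [← h3]
      exact pow_ne_zero _ h4
    obtain ⟨u, hu⟩ := (powCoprime hcop).surjective (Units.mk0 _ hgx)
    refine ⟨x0, y0, u, h1, h2, ?_, u.ne_zero⟩
    have h6 : u ^ ℓ = Units.mk0 _ hgx := hu
    rw [← Units.val_pow_eq_pow_val, h6]
    rfl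

end Pool.Agent.Helper47.GL
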