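import Mathlib
import Pool.Graph.R_seed8.R410.LW.BN1
import Pool.Graph.R_seed8.R410.LW.Bez
import Pool.Agent.Helper47.GL.Wf
import Pool.Agent.Helper47.GX.Good

/-!
# Points of the cyclic covering `w^ℓ = g(x)` of `G(x, y) = 0` modulo the places of good reduction
-/

set_option autoImplicit false

namespace Pool.Agent.Helper47.GL

open Polynomial NumberField IsDedekindDomain Pool.Agent.Helper47.GX

variable {k : Type} [Field k] [NumberField k]

/-- a polynomial in `y` over `𝓞[x]`, irreducible over an algebraic closure of `k` -/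
def AbsIrrK (G : (𝓞 k)[X][X]) : Prop :=
  Irreducible (G.map (mapRingHom (algebraMap (𝓞 k) (AlgebraicClosure k))))

theorem exists_goodL {ℓ : ℕ} (hℓ : ℓ.Prime) (G : (𝓞 k)[X][X]) (hG : G.Monic)
    (hn : 0 < G.natDegree) (hirr : AbsIrrK G) :
    ∃ (δ : ℕ) (E : 𝓞 k) (B : ℕ → ℕ), E ≠ 0 ∧ ∀ v : HeightOneSpectrum (𝓞 k), E ∉ v.asIdeal →
      ∀ g : (𝓞 k)[X], (g.map (Ideal.Quotient.mk v.asIdeal)).Separable →
      δ < (g.map (Ideal.Quotient.mk v.asIdeal)).natDegree →
      B (g.map (Ideal.Quotient.mk v.asIdeal)).natDegree < Ideal.absNorm v.asIdeal →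
      ∃ x0 y0 w0 : 𝓞 k, G.evalEval x0 y0 ∈ v.asIdeal ∧ (derivative G).evalEval x0 y0 ∉ v.asIdeal ∧
        g.eval x0 - w0 ^ ℓ ∈ v.asIdeal ∧ w0 ∉ v.asIdeal := by
  classical
  obtain ⟨D1, hD1, hbn⟩ := Pool.Agent.R410.LW.bn_poly (A := 𝓞 k) (k := k) (kb := AlgebraicClosure k)
    G hG hn (by
    have : ((algebraMap k (AlgebraicClosure k)).comp (algebraMap (𝓞 k) k)) =
      algebraMap (𝓞 k) (AlgebraicClosure k) := (IsScalarTower.algebraMap_eq _ _ _).symm
    rw [this]
    exact hirr)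
  obtain ⟨A, Bz, D, hD, hAB⟩ := Pool.Agent.R410.LW.bezout (ι := algebraMap (𝓞 k) (AlgebraicClosure k))
    (FaithfulSMul.algebraMap_injective (𝓞 k) (AlgebraicClosure k)) hG hirr
  obtain ⟨d, hd⟩ := exists_CB G
  have hN0 : (2 * G.natDegree * ℓ : ℕ) ≠ 0 := by
    have := hℓ.pos
    positivity
  refine ⟨D.natDegree, D1 * D.leadingCoeff * (2 * G.natDegree * ℓ : ℕ),
    CYL ℓ G.natDegree d D.natDegree, ?_, ?_⟩
  · refine mul_ne_zero (mul_ne_zero hD1 (leadingCoeff_ne_zero.2 hD)) ?_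
    exact_mod_cast hN0
  · intro v hv g hg hδg hBg
    have := v.isMaximal
    let _ : Field (𝓞 k ⧸ v.asIdeal) := Ideal.Quotient.field _
    have hfin : Finite (𝓞 k ⧸ v.asIdeal) := Ideal.finiteQuotientOfFreeOfNeBot _ v.ne_bot
    set ψ := Ideal.Quotient.mk v.asIdeal with hψ
    have key : ∀ z : 𝓞 k, z ∉ v.asIdeal → ψ z ≠ 0 := fun z hz h =>
      hz (Ideal.Quotient.eq_zero_iff_mem.1 h)
    have hD1p : ψ D1 ≠ 0 := key _ fun h =>
      hv (v.asIdeal.mul_mem_right _ (v.asIdeal.mul_mem_right _ h))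
    have hDp : ψ D.leadingCoeff ≠ 0 := key _ fun h =>
      hv (v.asIdeal.mul_mem_right _ (v.asIdeal.mul_mem_left _ h))
    have h2p : ψ ((2 * G.natDegree * ℓ : ℕ) : 𝓞 k) ≠ 0 := key _ fun h =>
      hv (v.asIdeal.mul_mem_left _ h)
    set Gp := G.map (mapRingHom ψ) with hGp
    have hGpd : Gp.natDegree = G.natDegree := hG.natDegree_map _
    obtain ⟨x0, y0, w0, h1, h2, h3, h4⟩ := weilL (F := 𝓞 k ⧸ v.asIdeal) hℓ (G := Gp)
      (A := A.map (mapRingHom ψ))
      (B := Bz.map (mapRingHom ψ)) (D := D.map ψ) (g := g.map ψ) (hG.map _) (by rw [hGpd]; exact hn)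
      (by
        rw [hGp, derivative_map, ← Polynomial.map_mul, ← Polynomial.map_mul, ← Polynomial.map_add,
          hAB, map_C]
        rfl)
      (by
        intro h
        apply hDp
        have := congrArg (fun q => q.coeff D.natDegree) h
        simp only [coeff_map, coeff_zero] at this
        exact this)
      (δ := D.natDegree) natDegree_map_le (d := d)
      (by
        intro i
        rw [hGp, coeff_map]
        exact natDegree_map_le.trans (hd i))
      (by
        have := hbn (AlgebraicClosure (𝓞 k ⧸ v.asIdeal))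
          ((algebraMap (𝓞 k ⧸ v.asIdeal) (AlgebraicClosure (𝓞 k ⧸ v.asIdeal))).comp ψ)
          (by
            rw [RingHom.comp_apply]
            exact (map_ne_zero_iff _ (algebraMap (𝓞 k ⧸ v.asIdeal)
              (AlgebraicClosure (𝓞 k ⧸ v.asIdeal))).injective).2 hD1p)
        rw [hGp, Polynomial.map_map, mapRingHom_comp]
        exact this)
      hg hδg (by
        rw [hGpd]
        rwa [map_natCast] at h2p)
      (by
        rw [hGpd]
        have h5 : Nat.card (𝓞 k ⧸ v.asIdeal) = Ideal.absNorm v.asIdeal := by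
          rw [Ideal.absNorm_apply]
          rfl
        rw [h5]
        exact hBg)
    obtain ⟨a, rfl⟩ := Ideal.Quotient.mk_surjective x0
    obtain ⟨b, rfl⟩ := Ideal.Quotient.mk_surjective y0
    obtain ⟨c, rfl⟩ := Ideal.Quotient.mk_surjective w0
    refine ⟨a, b, c, ?_, ?_, ?_, ?_⟩
    · rw [← Ideal.Quotient.eq_zero_iff_mem, ← map_mapRingHom_evalEval]
      exact h1
    · rw [← Ideal.Quotient.eq_zero_iff_mem, ← map_mapRingHom_evalEval, ← derivative_map]
      exact h2
    · rw [← Ideal.Quotient.eq_zero_iff_mem, map_sub, map_pow, h3, eval_map, eval₂_at_apply, sub_self]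
    · rw [← Ideal.Quotient.eq_zero_iff_mem]
      exact h4

end Pool.Agent.Helper47.GL
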