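import Mathlib
import Pool.Agent.Helper47.GL.Wl

/-!
# The right hand side at the places of good reduction
-/

set_option autoImplicit false

namespace Pool.Agent.Helper47.GL

open Polynomial

/-- affine substitutions preserve separability -/
theorem sep_comp_linear {K : Type*} [Field K] {P : K[X]} (hP : P.Separable) {e : K} (he : e ≠ 0)
    (a : K) : (P.comp (C e * X - C a)).Separable := by
  obtain ⟨u, v, h⟩ := hP
  refine ⟨u.comp (C e * X - C a), C e⁻¹ * v.comp (C e * X - C a), ?_⟩
  have h1 := congrArg (fun Q : K[X] => Q.comp (C e * X - C a)) h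
  simp only [add_comp, mul_comp, one_comp] at h1
  have h2 : derivative (C e * X - C a : K[X]) = C e := by
    simp
  have h3 : (C e⁻¹ * C e : K[X]) = 1 := by
    rw [← C_mul, inv_mul_cancel₀ he, C_1]
  rw [derivative_comp, h2, ← h1]
  linear_combination (v.comp (C e * X - C a) * (derivative P).comp (C e * X - C a)) * h3

/-- the polynomial `c e^N F(x - a0/e)` -/
noncomputable def gg (F : ℤ[X]) {R : Type*} [CommRing R] (c e a0 : R) : R[X] :=
  C c * ((F.map (Int.castRingHom R)).scaleRoots e).comp (C e * X - C a0)

variable {F : ℤ[X]}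

theorem gg_map (hF : F.Monic) {R S : Type*} [CommRing R] [IsDomain R] [Field S] (φ : R →+* S)
    (c e a0 : R) : (gg F c e a0).map φ = gg F (φ c) (φ e) (φ a0) := by
  unfold gg
  rw [Polynomial.map_mul, map_C, Polynomial.map_comp, map_scaleRoots _ _ _ (by
    rw [(hF.map _).leadingCoeff, map_one]
    exact one_ne_zero), Polynomial.map_map]
  congr 2
  · congr 2
    exact RingHom.ext_int _ _
  · simp

theorem gg_good (hF : F.Monic) {K : Type*} [Field K] (hs : (F.map (Int.castRingHom K)).Separable)
    {c e : K} (hc : c ≠ 0) (he : e ≠ 0) (a0 : K) :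
    (gg F c e a0).Separable ∧ (gg F c e a0).natDegree = F.natDegree := by
  have h1 : ((F.map (Int.castRingHom K)).scaleRoots e).Separable := scaleRoots_sep hs he
  have h2 := sep_comp_linear h1 he a0
  have hd : (C e * X - C a0 : K[X]).natDegree = 1 := by
    rw [natDegree_sub_C, natDegree_C_mul he, natDegree_X]
  refine ⟨?_, ?_⟩
  · unfold gg
    refine (Associated.separable_iff ?_).1 h2
    exact associated_unit_mul_right _ _ (isUnit_C.2 hc.isUnit)
  · unfold gg
    rw [natDegree_C_mul hc, natDegree_comp, hd, mul_one, natDegree_scaleRoots, hF.natDegree_map]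

theorem gg_eval (hF : F.Monic) {K : Type*} [Field K] {c e : K} (he : e ≠ 0) (a0 x : K) :
    (gg F c e a0).eval x =
      c * (e ^ F.natDegree * (F.map (Int.castRingHom K)).eval (x - a0 / e)) := by
  unfold gg
  have h1 : e * x - a0 = e * (x - a0 / e) := by
    field_simp
  rw [eval_mul, eval_C, eval_comp, eval_sub, eval_mul, eval_C, eval_X, eval_C, h1,
    scaleRoots_eval_mul, hF.natDegree_map]

end Pool.Agent.Helper47.GL
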