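import Mathlib
import Pool.Agent.Helper47.GL.Apx

/-!
# Lifting of points by Hensel's lemma in the completions of number fields
-/

set_option autoImplicit false

namespace Pool.Agent.Helper47.GL

open Polynomial NumberField IsDedekindDomain Pool.Agent.Helper47.GX WithZero
open Pool.Agent.W858.SF

section

variable {k : Type} [Field k] [NumberField k] (v : HeightOneSpectrum (𝓞 k))

/-- the integers of `k` in the integers of the completion -/
noncomputable def ii : 𝓞 k →+* (vv v).valuationSubring where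
  toFun := fun r => ⟨algebraMap (𝓞 k) (v.adicCompletion k) r,
    Pool.Agent.H723R3.algebraMap_R_mem v r⟩
  map_one' := Subtype.ext (map_one _)
  map_mul' := fun _ _ => Subtype.ext (map_mul _ _ _)
  map_zero' := Subtype.ext (map_zero _)
  map_add' := fun _ _ => Subtype.ext (map_add _ _ _)

theorem ii_coe (r : 𝓞 k) : ((ii v r : (vv v).valuationSubring) : v.adicCompletion k) =
    algebraMap (𝓞 k) (v.adicCompletion k) r := rfl

theorem ii_mem (r : 𝓞 k) : ii v r ∈ IsLocalRing.maximalIdeal (vv v).valuationSubring ↔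
    r ∈ v.asIdeal := by
  rw [mem_max, ii_coe, vv_int, HeightOneSpectrum.intValuation_lt_one_iff_mem]

theorem ii_unit (r : 𝓞 k) : IsUnit (ii v r) ↔ r ∉ v.asIdeal := by
  rw [← ii_mem, IsLocalRing.mem_maximalIdeal, mem_nonunits_iff, not_not]

theorem ev_coe (P : (𝓞 k)[X][X]) (x0 : 𝓞 k) (y : (vv v).valuationSubring) :
    (P.map (mapRingHom (algebraMap (𝓞 k) (v.adicCompletion k)))).evalEval
      (algebraMap (𝓞 k) (v.adicCompletion k) x0) (y : v.adicCompletion k) =
    ((((P.map (evalRingHom x0)).map (ii v)).eval y : (vv v).valuationSubring) :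
      v.adicCompletion k) := by
  rw [← map_evalRingHom_eval, Polynomial.map_map]
  have h1 : (evalRingHom (algebraMap (𝓞 k) (v.adicCompletion k) x0)).comp
      (mapRingHom (algebraMap (𝓞 k) (v.adicCompletion k))) =
      ((vv v).valuationSubring.subtype).comp ((ii v).comp (evalRingHom x0)) := by
    refine Polynomial.ringHom_ext (fun a => ?_) ?_
    · simp only [RingHom.comp_apply, coe_mapRingHom, map_C, coe_evalRingHom, eval_C]
      rfl
    · simp only [RingHom.comp_apply, coe_mapRingHom, map_X, coe_evalRingHom, eval_X]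
      rfl
  rw [h1, ← Polynomial.map_map, ← Polynomial.map_map]
  exact eval_map_apply (vv v).valuationSubring.subtype y

/-- **Hensel's lemma** for the points of `w^ℓ = g(x)`, `G(x, y) = 0` -/
theorem lift_point {ℓ : ℕ} (hℓ : 0 < ℓ) (hℓv : (ℓ : 𝓞 k) ∉ v.asIdeal) {G : (𝓞 k)[X][X]}
    (hG : G.Monic) {g : (𝓞 k)[X]} {x0 y0 w0 : 𝓞 k} (h1 : G.evalEval x0 y0 ∈ v.asIdeal)
    (h2 : (derivative G).evalEval x0 y0 ∉ v.asIdeal) (h3 : g.eval x0 - w0 ^ ℓ ∈ v.asIdeal)
    (h4 : w0 ∉ v.asIdeal) :
    ∃ y w : v.adicCompletion k,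
      (G.map (mapRingHom (algebraMap (𝓞 k) (v.adicCompletion k)))).evalEval
        (algebraMap (𝓞 k) (v.adicCompletion k) x0) y = 0 ∧
      ((derivative G).map (mapRingHom (algebraMap (𝓞 k) (v.adicCompletion k)))).evalEval
        (algebraMap (𝓞 k) (v.adicCompletion k) x0) y ≠ 0 ∧
      w ≠ 0 ∧ w ^ ℓ = algebraMap (𝓞 k) (v.adicCompletion k) (g.eval x0) := by
  have hH := Pool.Agent.Q52.SecW.henselian_vv v
  -- the coordinate `y`
  have hev : ∀ P : (𝓞 k)[X][X], ((P.map (evalRingHom x0)).map (ii v)).eval (ii v y0) =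
      ii v (P.evalEval x0 y0) := by
    intro P
    rw [← map_evalRingHom_eval]
    exact eval_map_apply (ii v) y0
  obtain ⟨y, hy, hyy⟩ := hH.is_henselian ((G.map (evalRingHom x0)).map (ii v)) ((hG.map _).map _)
    (ii v y0) (by rw [hev, ii_mem]; exact h1) (by
      rw [derivative_map, derivative_map, hev, ii_unit]
      exact h2)
  -- the coordinate `w`
  obtain ⟨w, hw, hww⟩ := hH.is_henselian (X ^ ℓ - C (ii v (g.eval x0))) (monic_X_pow_sub_C _ hℓ.ne')
    (ii v w0) (by
      rw [eval_sub, eval_pow, eval_X, eval_C, ← map_pow, ← map_sub, ii_mem, ← neg_sub]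
      exact v.asIdeal.neg_mem h3) (by
      rw [derivative_sub, derivative_X_pow, derivative_C, sub_zero, eval_mul, eval_C, eval_pow, eval_X]
      refine IsUnit.mul ?_ (((ii_unit v _).2 h4).pow _)
      rw [← map_natCast (ii v), ii_unit]
      exact hℓv)
  refine ⟨y, w, ?_, ?_, ?_, ?_⟩
  · rw [ev_coe]
    rw [IsRoot.def] at hy
    rw [hy]
    rfl
  · rw [ev_coe]
    intro h
    have h5 : (((derivative G).map (evalRingHom x0)).map (ii v)).eval y = 0 := Subtype.ext h
    have h6 := (((derivative G).map (evalRingHom x0)).map (ii v)).sub_dvd_eval_sub y (ii v y0)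
    rw [h5, zero_sub, hev, dvd_neg] at h6
    have h7 := Ideal.mem_of_dvd _ h6 hyy
    exact h2 ((ii_mem v _).1 h7)
  · intro h
    have h5 : w = 0 := Subtype.ext h
    rw [h5, zero_sub] at hww
    have h6 := (IsLocalRing.maximalIdeal (vv v).valuationSubring).neg_mem hww
    rw [neg_neg, ii_mem] at h6
    exact h4 h6
  · rw [IsRoot.def, eval_sub, eval_pow, eval_X, eval_C, sub_eq_zero] at hw
    have := congrArg (fun s : (vv v).valuationSubring => (s : v.adicCompletion k)) hw
    push_cast at this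
    rw [this]
    rfl

end

end Pool.Agent.Helper47.GL
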