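import Mathlib

/-!
# Values of polynomials and powers over complete fields
-/

set_option autoImplicit false

namespace Pool.Agent.Helper47.GL

open Polynomial Filter Topology

section

variable {E : Type*} [NontriviallyNormedField E] [CompleteSpace E]

/-- near a simple zero a polynomial has values in every class modulo `ℓ`-th powers -/
theorem exists_value {F : E[X]} {ρ : E} (h0 : F.eval ρ = 0) (h1 : (derivative F).eval ρ ≠ 0)
    (r : E) {ℓ : ℕ} (hℓ : ℓ ≠ 0) : ∃ u s : E, s ≠ 0 ∧ F.eval u = r * s ^ ℓ := by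
  have h2 := (F.hasStrictDerivAt ρ).map_nhds_eq h1
  rw [h0] at h2
  have h3 : Set.range (fun x => F.eval x) ∈ 𝓝 (0 : E) := by
    rw [← h2]
    exact Filter.range_mem_map
  have h4 : Tendsto (fun s : E => r * s ^ ℓ) (𝓝 0) (𝓝 0) := by
    have h5 : Continuous (fun s : E => r * s ^ ℓ) := by fun_prop
    have h6 := h5.tendsto 0
    rwa [zero_pow hℓ, mul_zero] at h6
  have h7 : ∀ᶠ s in 𝓝[≠] (0 : E), s ≠ 0 ∧ r * s ^ ℓ ∈ Set.range (fun x => F.eval x) := by
    refine Filter.Eventually.and ?_ ?_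
    · exact eventually_mem_nhdsWithin
    · exact (h4.eventually h3).filter_mono nhdsWithin_le_nhds
  obtain ⟨s, hs, u, hu⟩ := h7.exists
  exact ⟨u, s, hs, hu⟩

/-- the classes modulo `ℓ`-th powers are open -/
theorem open_value {F : E[X]} {u s r : E} (hr : r ≠ 0) (hs : s ≠ 0) {ℓ : ℕ} (hℓ : (ℓ : E) ≠ 0)
    (h : F.eval u = r * s ^ ℓ) : ∀ᶠ u' in 𝓝 u, ∃ s' : E, s' ≠ 0 ∧ F.eval u' = r * s' ^ ℓ := by
  have hd : HasStrictDerivAt (fun z : E => z ^ ℓ) (ℓ * s ^ (ℓ - 1)) s := hasStrictDerivAt_pow ℓ s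
  have h2 := hd.map_nhds_eq (mul_ne_zero hℓ (pow_ne_zero _ hs))
  have h3 : (fun z : E => z ^ ℓ) '' {z | z ≠ 0} ∈ 𝓝 (s ^ ℓ) := by
    rw [← h2]
    exact Filter.image_mem_map (isOpen_ne.mem_nhds hs)
  have h4 : Tendsto (fun u' => r⁻¹ * F.eval u') (𝓝 u) (𝓝 (s ^ ℓ)) := by
    have h5 : Continuous (fun u' => r⁻¹ * F.eval u') := by fun_prop
    have h6 := h5.tendsto u
    rwa [h, ← mul_assoc, inv_mul_cancel₀ hr, one_mul] at h6
  filter_upwards [h4.eventually h3] with u' hu'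
  obtain ⟨s', hs', h5⟩ := hu'
  refine ⟨s', hs', ?_⟩
  have h6 : s' ^ ℓ = r⁻¹ * F.eval u' := h5
  rw [h6, ← mul_assoc, mul_inv_cancel₀ hr, one_mul]

end

end Pool.Agent.Helper47.GL
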