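import Mathlib

/-!
# The infinite places
-/

set_option autoImplicit false

namespace Pool.Agent.Helper47.GL

open Polynomial NumberField Filter

section

variable {F : ℤ[X]}

theorem real_case (hF : F.Monic) (hd : Even F.natDegree) (hpos : 0 < F.natDegree) {r : ℕ}
    (hr : 0 < r) {ℓ : ℕ} (hℓ : ℓ ≠ 0) :
    ∃ R : ℝ, ∀ z : ℝ, R ≤ ‖z‖ →
      ∃ s : ℝ, s ≠ 0 ∧ (F.map (Int.castRingHom ℝ)).eval z = r * s ^ ℓ := by
  set P := F.map (Int.castRingHom ℝ) with hP
  have hPm : P.Monic := hF.map _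
  have hPd : P.natDegree = F.natDegree := hF.natDegree_map _
  have h1 : ∀ᶠ x : ℝ in atTop, 0 < P.eval x := by
    refine (P.tendsto_atTop_of_leadingCoeff_nonneg ?_ ?_).eventually_gt_atTop 0
    · rw [← natDegree_pos_iff_degree_pos, hPd]
      exact hpos
    · rw [hPm.leadingCoeff]
      exact zero_le_one
  have h2 : ∀ᶠ x : ℝ in atTop, 0 < (P.comp (-X)).eval x := by
    have hnd : (-X : ℝ[X]).natDegree = 1 := by rw [natDegree_neg, natDegree_X]
    have hlc : (P.comp (-X)).leadingCoeff = 1 := by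
      rw [leadingCoeff_comp (by rw [hnd]; exact one_ne_zero), hPm.leadingCoeff, leadingCoeff_neg,
        leadingCoeff_X, one_mul, hPd, hd.neg_one_pow]
    refine (Polynomial.tendsto_atTop_of_leadingCoeff_nonneg _ ?_ ?_).eventually_gt_atTop 0
    · rw [← natDegree_pos_iff_degree_pos, natDegree_comp, hnd, mul_one, hPd]
      exact hpos
    · rw [hlc]
      exact zero_le_one
  obtain ⟨R, hR⟩ := eventually_atTop.1 (h1.and h2)
  refine ⟨R, fun z hz => ?_⟩
  have h3 : 0 < P.eval z := by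
    rw [Real.norm_eq_abs] at hz
    rcases abs_choice z with h | h
    · rw [h] at hz
      exact (hR z hz).1
    · rw [h] at hz
      have h4 := (hR (-z) hz).2
      rwa [eval_comp, eval_neg, eval_X, neg_neg] at h4
  have hr' : (0 : ℝ) < r := by exact_mod_cast hr
  refine ⟨(P.eval z / r) ^ ((ℓ : ℝ)⁻¹), (Real.rpow_pos_of_pos (div_pos h3 hr') _).ne', ?_⟩
  rw [Real.rpow_inv_natCast_pow (div_pos h3 hr').le hℓ]
  field_simp

theorem complex_case (hF : F.Monic) (hpos : 0 < F.natDegree) {r : ℕ}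
    (hr : 0 < r) {ℓ : ℕ} (hℓ : ℓ ≠ 0) :
    ∃ R : ℝ, ∀ z : ℂ, R ≤ ‖z‖ →
      ∃ s : ℂ, s ≠ 0 ∧ (F.map (Int.castRingHom ℂ)).eval z = r * s ^ ℓ := by
  set P := F.map (Int.castRingHom ℂ) with hP
  have hPd : P.natDegree = F.natDegree := hF.natDegree_map _
  have h1 : Tendsto (fun z : ℂ => ‖P.eval z‖) (comap norm atTop) atTop :=
    P.tendsto_norm_atTop (z := fun z => z) (by
      rw [← natDegree_pos_iff_degree_pos, hPd]
      exact hpos) tendsto_comap
  have h2 := h1.eventually_gt_atTop 0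
  rw [eventually_comap] at h2
  obtain ⟨R, hR⟩ := eventually_atTop.1 h2
  refine ⟨R, fun z hz => ?_⟩
  have h3 : P.eval z ≠ 0 := norm_pos_iff.1 (hR _ hz z rfl)
  have hr' : (r : ℂ) ≠ 0 := by exact_mod_cast hr.ne'
  obtain ⟨s, hs⟩ := IsAlgClosed.exists_pow_nat_eq (P.eval z / r) (Nat.pos_of_ne_zero hℓ)
  refine ⟨s, ?_, ?_⟩
  · rintro rfl
    rw [zero_pow hℓ] at hs
    exact div_ne_zero h3 hr' hs.symm
  · rw [hs]
    field_simp

theorem inf_case (hF : F.Monic) (hd : Even F.natDegree) (hpos : 0 < F.natDegree) {r : ℕ}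
    (hr : 0 < r) {ℓ : ℕ} (hℓ : ℓ ≠ 0) {k : Type} [Field k] [NumberField k] (w : InfinitePlace k) :
    ∃ R : ℝ, ∀ z : w.Completion, R ≤ ‖z‖ →
      ∃ s : w.Completion, s ≠ 0 ∧ (F.map (Int.castRingHom w.Completion)).eval z = r * s ^ ℓ := by
  have key : ∀ (E : Type) [NormedField E] (e : w.Completion ≃+* E), (∀ z, ‖e z‖ = ‖z‖) →
      (∃ R : ℝ, ∀ z : E, R ≤ ‖z‖ → ∃ s : E, s ≠ 0 ∧
        (F.map (Int.castRingHom E)).eval z = r * s ^ ℓ) →
      ∃ R : ℝ, ∀ z : w.Completion, R ≤ ‖z‖ →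
        ∃ s : w.Completion, s ≠ 0 ∧
          (F.map (Int.castRingHom w.Completion)).eval z = r * s ^ ℓ := by
    rintro E _ e he ⟨R, hR⟩
    refine ⟨R, fun z hz => ?_⟩
    obtain ⟨s, hs, h⟩ := hR (e z) (by rw [he]; exact hz)
    refine ⟨e.symm s, (map_ne_zero_iff _ e.symm.injective).2 hs, ?_⟩
    apply e.injective
    have h1 : F.map (Int.castRingHom E) =
        (F.map (Int.castRingHom w.Completion)).map (e : w.Completion →+* E) := by
      rw [Polynomial.map_map]
      congr 1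
      exact RingHom.ext_int _ _
    rw [map_mul, map_pow, map_natCast, RingEquiv.apply_symm_apply, ← h, h1]
    exact (eval_map_apply (e : w.Completion →+* E) z).symm
  rcases w.isReal_or_isComplex with hw | hw
  · exact key ℝ (InfinitePlace.Completion.ringEquivRealOfIsReal hw) (fun z => by
      have := (InfinitePlace.Completion.isometry_extensionEmbeddingOfIsReal hw).norm_map_of_map_zero
        (map_zero _) z
      exact this) (real_case hF hd hpos hr hℓ)
  · exact key ℂ (InfinitePlace.Completion.ringEquivComplexOfIsComplex hw) (fun z => by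
      have := (InfinitePlace.Completion.isometry_extensionEmbedding w).norm_map_of_map_zero
        (map_zero _) z
      exact this) (complex_case hF hpos hr hℓ)

end

end Pool.Agent.Helper47.GL
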