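import Mathlib
import Pool.Agent.Helper47.GL.Dat
import Pool.Agent.Helper47.GL.Gd
import Pool.Agent.Helper47.GL.Hen
import Pool.Agent.Helper47.GL.Ift
import Pool.Agent.Helper47.GL.Inf
import Pool.Agent.Helper47.GL.Gp
import Pool.Agent.Helper47.GL.Bz

/-!
# Local points of the cyclic coverings
-/

set_option autoImplicit false

namespace Pool.Agent.Helper47.GL

open Polynomial NumberField IsDedekindDomain Pool.Agent.Helper47.GX Topology

/-- the points of `G(x, y) = 0` at which `x` is unramified -/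
def PtK {R : Type*} [CommRing R] (G : R[X][X]) {K : Type*} [Field K] (φ : R →+* K) (x y : K) :
    Prop :=
  (G.map (mapRingHom φ)).evalEval x y = 0 ∧ ((derivative G).map (mapRingHom φ)).evalEval x y ≠ 0

section

variable {k : Type} [Field k] [NumberField k]

theorem cz (v : HeightOneSpectrum (𝓞 k)) : CharZero (v.adicCompletion k) :=
  charZero_of_injective_algebraMap (algebraMap k (v.adicCompletion k)).injective

theorem local_param {F : ℤ[X]} (hsep : (F.map (Int.castRingHom ℚ)).Separable)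
    (hroot : ∀ (L : Type) [Field L] [CharZero L],
      (∃ (r : ℕ) (_ : Fact r.Prime), Nonempty (ℚ_[r] →+* L)) →
      ∃ x : L, (F.map (Int.castRingHom L)).eval x = 0) {ℓ : ℕ} (hℓ : ℓ ≠ 0) {r : ℕ} (hr : 0 < r)
    (v : HeightOneSpectrum (𝓞 k)) (x : v.adicCompletion k) :
    ∃ α : v.adicCompletion k, {a : v.adicCompletion k | ∃ s : v.adicCompletion k, s ≠ 0 ∧
      (F.map (Int.castRingHom (v.adicCompletion k))).eval (x - a) = r * s ^ ℓ} ∈ 𝓝 α := by
  have hc := cz v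
  obtain ⟨ρ, hρ⟩ := hroot (v.adicCompletion k) (exists_emb v)
  have hs : (F.map (Int.castRingHom (v.adicCompletion k))).Separable := by
    have h1 := hsep.map (f := algebraMap ℚ (v.adicCompletion k))
    rw [Polynomial.map_map] at h1
    rwa [RingHom.ext_int ((algebraMap ℚ (v.adicCompletion k)).comp (Int.castRingHom ℚ))
      (Int.castRingHom (v.adicCompletion k))] at h1
  have hρ' : (derivative (F.map (Int.castRingHom (v.adicCompletion k)))).eval ρ ≠ 0 := by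
    intro h0
    obtain ⟨A, B, hAB⟩ := hs
    have h1 := congrArg (eval ρ) hAB
    rw [eval_add, eval_mul, eval_mul, h0, hρ, mul_zero, mul_zero, add_zero, eval_one] at h1
    exact zero_ne_one h1
  have hcs : CompleteSpace (v.adicCompletion k) := inferInstance
  obtain ⟨u, s, hs0, hu⟩ := @exists_value _ (nnf v) hcs _ _ hρ hρ' (r : v.adicCompletion k) _ hℓ
  have hr' : (r : v.adicCompletion k) ≠ 0 := by exact_mod_cast hr.ne'
  have hℓ' : (ℓ : v.adicCompletion k) ≠ 0 := by exact_mod_cast hℓ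
  have h2 := @open_value _ (nnf v) hcs _ _ _ _ hr' hs0 _ hℓ' hu
  refine ⟨x - u, ?_⟩
  have h3 : Filter.Tendsto (fun a : v.adicCompletion k => x - a) (𝓝 (x - u)) (𝓝 u) := by
    have h4 : Continuous (fun a : v.adicCompletion k => x - a) := by fun_prop
    have h5 := h4.tendsto (x - u)
    rwa [sub_sub_cancel] at h5
  exact h3.eventually h2

theorem good_place {F : ℤ[X]} (hF : F.Monic) {D : ℕ} (hD : ∀ (K : Type) [Field K], (D : K) ≠ 0 →
      (F.map (Int.castRingHom K)).Separable) {ℓ : ℕ} (hℓ : ℓ.Prime) {N1 : ℕ}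
    (hdeg : F.natDegree = ℓ * N1) {r : ℕ} (hr : 0 < r)
    {G : (𝓞 k)[X][X]} (hG : G.Monic) {δ : ℕ} {E : 𝓞 k} {B : ℕ → ℕ}
    (hgood : ∀ v : HeightOneSpectrum (𝓞 k), E ∉ v.asIdeal →
      ∀ g : (𝓞 k)[X], (g.map (Ideal.Quotient.mk v.asIdeal)).Separable →
      δ < (g.map (Ideal.Quotient.mk v.asIdeal)).natDegree →
      B (g.map (Ideal.Quotient.mk v.asIdeal)).natDegree < Ideal.absNorm v.asIdeal →
      ∃ x0 y0 w0 : 𝓞 k, G.evalEval x0 y0 ∈ v.asIdeal ∧ (derivative G).evalEval x0 y0 ∉ v.asIdeal ∧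
        g.eval x0 - w0 ^ ℓ ∈ v.asIdeal ∧ w0 ∉ v.asIdeal)
    (hδ : δ < F.natDegree) (v : HeightOneSpectrum (𝓞 k)) (hEv : E ∉ v.asIdeal)
    (hℓv : (ℓ : 𝓞 k) ∉ v.asIdeal) (hrv : (r : 𝓞 k) ∉ v.asIdeal) (hDv : (D : 𝓞 k) ∉ v.asIdeal)
    (hBv : B F.natDegree < Ideal.absNorm v.asIdeal) {Q : ℕ} (hQv : (Q : 𝓞 k) ∉ v.asIdeal) (J : ℕ)
    (a0 : 𝓞 k) :
    ∃ x y w : v.adicCompletion k, PtK G (algebraMap (𝓞 k) (v.adicCompletion k)) x y ∧ w ≠ 0 ∧
      (r : v.adicCompletion k) * w ^ ℓ = (F.map (Int.castRingHom (v.adicCompletion k))).eval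
        (x - algebraMap k (v.adicCompletion k) ((a0 : k) / (Q : k) ^ J)) := by
  have hc := cz v
  have := v.isMaximal
  let _ : Field (𝓞 k ⧸ v.asIdeal) := Ideal.Quotient.field _
  have hpr : v.asIdeal.IsPrime := v.isPrime
  set e : 𝓞 k := (Q : 𝓞 k) ^ J with he
  set c : 𝓞 k := (r : 𝓞 k) ^ (ℓ - 1) with hc'
  have hev : e ∉ v.asIdeal := fun h => hQv (hpr.mem_of_pow_mem _ h)
  have hcv : c ∉ v.asIdeal := fun h => hrv (hpr.mem_of_pow_mem _ h)
  set ψ := Ideal.Quotient.mk v.asIdeal with hψ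
  have key : ∀ z : 𝓞 k, z ∉ v.asIdeal → ψ z ≠ 0 := fun z hz h =>
    hz (Ideal.Quotient.eq_zero_iff_mem.1 h)
  have hFs : (F.map (Int.castRingHom (𝓞 k ⧸ v.asIdeal))).Separable := by
    apply hD
    have h1 := key _ hDv
    rwa [map_natCast] at h1
  have hgood1 := gg_good hF hFs (key c hcv) (key e hev) (ψ a0)
  rw [← gg_map hF ψ c e a0] at hgood1
  obtain ⟨x0, y0, w0, h1, h2, h3, h4⟩ := hgood v hEv (gg F c e a0) hgood1.1
    (by rw [hgood1.2]; exact hδ) (by rw [hgood1.2]; exact hBv)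
  obtain ⟨y, w', hy1, hy2, hw0, hw⟩ := lift_point v hℓ.pos hℓv hG h1 h2 h3 h4
  set φ := algebraMap (𝓞 k) (v.adicCompletion k) with hφ
  have he0 : e ≠ 0 := fun h => hev (by rw [h]; exact v.asIdeal.zero_mem)
  have hφe : φ e ≠ 0 := by
    rw [hφ, Ne, FaithfulSMul.algebraMap_eq_zero_iff]
    exact he0
  have hr' : (r : v.adicCompletion k) ≠ 0 := by exact_mod_cast hr.ne'
  have h5 : φ ((gg F c e a0).eval x0) = φ c * (φ e ^ F.natDegree *
      (F.map (Int.castRingHom (v.adicCompletion k))).eval (φ x0 - φ a0 / φ e)) := by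
    rw [← gg_eval hF hφe, ← gg_map hF φ]
    exact (eval_map_apply φ x0).symm
  refine ⟨φ x0, y, w' / (r * φ e ^ N1), ⟨hy1, hy2⟩,
    div_ne_zero hw0 (mul_ne_zero hr' (pow_ne_zero _ hφe)), ?_⟩
  have h6 : algebraMap k (v.adicCompletion k) ((a0 : k) / (Q : k) ^ J) = φ a0 / φ e := by
    rw [map_div₀, map_pow, map_natCast, he, map_pow, map_natCast, hφ,
      IsScalarTower.algebraMap_apply (𝓞 k) k (v.adicCompletion k)]
  have h7 : (r : v.adicCompletion k) * φ c = r ^ ℓ := by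
    rw [hc', map_pow, map_natCast, ← pow_succ', Nat.sub_add_cancel hℓ.one_lt.le]
  have h8 : (φ e ^ N1) ^ ℓ = φ e ^ F.natDegree := by
    rw [← pow_mul, hdeg, mul_comm ℓ]
  rw [h6, div_pow, hw, h5, mul_pow, h8, ← h7]
  have hφc : φ c ≠ 0 := by
    rw [hφ, Ne, FaithfulSMul.algebraMap_eq_zero_iff]
    exact fun h => hcv (by rw [h]; exact v.asIdeal.zero_mem)
  field_simp

theorem core {F : ℤ[X]} (hF : F.Monic) (hsep : (F.map (Int.castRingHom ℚ)).Separable)
    (hroot : ∀ (L : Type) [Field L] [CharZero L],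
      (∃ (r : ℕ) (_ : Fact r.Prime), Nonempty (ℚ_[r] →+* L)) →
      ∃ x : L, (F.map (Int.castRingHom L)).eval x = 0) {ℓ : ℕ} (hℓ : ℓ.Prime) {N1 : ℕ}
    (hdeg : F.natDegree = ℓ * N1) (heven : Even F.natDegree) {r : ℕ} (hr : 0 < r)
    {G : (𝓞 k)[X][X]} (hG : G.Monic) {δ : ℕ} {E : 𝓞 k} {B : ℕ → ℕ} (hE : E ≠ 0)
    (hgood : ∀ v : HeightOneSpectrum (𝓞 k), E ∉ v.asIdeal →
      ∀ g : (𝓞 k)[X], (g.map (Ideal.Quotient.mk v.asIdeal)).Separable →
      δ < (g.map (Ideal.Quotient.mk v.asIdeal)).natDegree →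
      B (g.map (Ideal.Quotient.mk v.asIdeal)).natDegree < Ideal.absNorm v.asIdeal →
      ∃ x0 y0 w0 : 𝓞 k, G.evalEval x0 y0 ∈ v.asIdeal ∧ (derivative G).evalEval x0 y0 ∉ v.asIdeal ∧
        g.eval x0 - w0 ^ ℓ ∈ v.asIdeal ∧ w0 ∉ v.asIdeal)
    (hδ : δ < F.natDegree) (S : Finset (HeightOneSpectrum (𝓞 k)))
    (x y : ∀ v : HeightOneSpectrum (𝓞 k), v.adicCompletion k)
    (hxy : ∀ v, PtK G (algebraMap (𝓞 k) (v.adicCompletion k)) (x v) (y v))
    (xi : ∀ w : InfinitePlace k, w.Completion) :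
    ∃ a : k,
      (∀ v : HeightOneSpectrum (𝓞 k), ∃ x y w : v.adicCompletion k,
        PtK G (algebraMap (𝓞 k) (v.adicCompletion k)) x y ∧ w ≠ 0 ∧
        (r : v.adicCompletion k) * w ^ ℓ = (F.map (Int.castRingHom (v.adicCompletion k))).eval
          (x - algebraMap k (v.adicCompletion k) a)) ∧
      (∀ v ∈ S, ∃ w : v.adicCompletion k, w ≠ 0 ∧
        (r : v.adicCompletion k) * w ^ ℓ = (F.map (Int.castRingHom (v.adicCompletion k))).eval
          (x v - algebraMap k (v.adicCompletion k) a)) ∧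
      ∀ w : InfinitePlace k, ∃ s : w.Completion, s ≠ 0 ∧
        (r : w.Completion) * s ^ ℓ = (F.map (Int.castRingHom w.Completion)).eval
          (xi w - algebraMap k w.Completion a) := by
  classical
  have hF0 : 0 < F.natDegree := lt_of_le_of_lt (Nat.zero_le _) hδ
  obtain ⟨D, hD0, hD⟩ := exists_disc hsep
  choose α hα using fun v => local_param hsep hroot hℓ.ne_zero hr v (x v)
  choose R hR using fun w : InfinitePlace k => inf_case hF heven hF0 hr hℓ.ne_zero w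
  -- the product of the exceptional places
  set Q : ℕ := r * ℓ * D * Ideal.absNorm (Ideal.span {E}) * (B F.natDegree).factorial *
    ∏ v ∈ S, Ideal.absNorm v.asIdeal with hQ
  have hQ0 : Q ≠ 0 := by
    rw [hQ]
    refine mul_ne_zero (mul_ne_zero (mul_ne_zero (mul_ne_zero (mul_ne_zero hr.ne' hℓ.ne_zero) hD0)
      ?_) (Nat.factorial_ne_zero _)) ?_
    · rw [Ne, Ideal.absNorm_eq_zero_iff, Ideal.span_singleton_eq_bot]
      exact hE
    · refine Finset.prod_ne_zero_iff.2 fun v _ => ?_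
      rw [Ne, Ideal.absNorm_eq_zero_iff]
      exact v.ne_bot
  have hdvd : ∀ n : ℕ, n ∣ Q → ∀ v : HeightOneSpectrum (𝓞 k), (n : 𝓞 k) ∈ v.asIdeal →
      (Q : 𝓞 k) ∈ v.asIdeal := by
    rintro n ⟨m, hm⟩ v hv
    rw [hm, Nat.cast_mul]
    exact v.asIdeal.mul_mem_right _ hv
  have hQr : r ∣ Q := ⟨ℓ * D * Ideal.absNorm (Ideal.span {E}) * (B F.natDegree).factorial *
    ∏ v ∈ S, Ideal.absNorm v.asIdeal, by rw [hQ]; ring⟩
  have hQℓ : ℓ ∣ Q := ⟨r * D * Ideal.absNorm (Ideal.span {E}) * (B F.natDegree).factorial *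
    ∏ v ∈ S, Ideal.absNorm v.asIdeal, by rw [hQ]; ring⟩
  have hQD : D ∣ Q := ⟨r * ℓ * Ideal.absNorm (Ideal.span {E}) * (B F.natDegree).factorial *
    ∏ v ∈ S, Ideal.absNorm v.asIdeal, by rw [hQ]; ring⟩
  have hQE : Ideal.absNorm (Ideal.span {E}) ∣ Q := ⟨r * ℓ * D * (B F.natDegree).factorial *
    ∏ v ∈ S, Ideal.absNorm v.asIdeal, by rw [hQ]; ring⟩
  have hQB : (B F.natDegree).factorial ∣ Q := ⟨r * ℓ * D * Ideal.absNorm (Ideal.span {E}) *
    ∏ v ∈ S, Ideal.absNorm v.asIdeal, by rw [hQ]; ring⟩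
  have hQS : ∀ v ∈ S, Ideal.absNorm v.asIdeal ∣ Q := by
    intro v hv
    rw [hQ]
    exact (Finset.dvd_prod_of_mem _ hv).mul_left _
  obtain ⟨J, a0, ha, hw⟩ := approx hQ0 α _ hα (∑ w : InfinitePlace k, (‖xi w‖ + |R w|))
  refine ⟨(a0 : k) / (Q : k) ^ J, ?_, ?_, ?_⟩
  · intro v
    by_cases hv : (Q : 𝓞 k) ∈ v.asIdeal
    · obtain ⟨s, hs0, hs⟩ := ha v hv
      exact ⟨x v, y v, s, hxy v, hs0, hs.symm⟩
    · have hn : ∀ n : ℕ, n ∣ Q → (n : 𝓞 k) ∉ v.asIdeal := fun n hn h => hv (hdvd n hn v h)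
      refine good_place hF hD hℓ hdeg hr hG hgood hδ v ?_ (hn _ hQℓ) (hn _ hQr) (hn _ hQD) ?_ hv J a0
      · intro h
        apply hn _ hQE
        have h1 : ((Ideal.absNorm (Ideal.span {E}) : ℕ) : 𝓞 k) ∈ Ideal.span {E} :=
          Ideal.absNorm_mem _
        exact (Ideal.span_singleton_le_iff_mem _).2 h h1
      · by_contra h
        push Not at h
        have h1 : Ideal.absNorm v.asIdeal ∣ (B F.natDegree).factorial := by
          refine Nat.dvd_factorial (Nat.pos_of_ne_zero ?_) h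
          rw [Ne, Ideal.absNorm_eq_zero_iff]
          exact v.ne_bot
        exact hn _ (h1.trans hQB) (Ideal.absNorm_mem _)
  · intro v hv
    obtain ⟨s, hs0, hs⟩ := ha v (hdvd _ (hQS v hv) v (Ideal.absNorm_mem _))
    exact ⟨s, hs0, hs.symm⟩
  · intro w
    have h1 : ‖xi w‖ + |R w| ≤ ∑ w : InfinitePlace k, (‖xi w‖ + |R w|) :=
      Finset.single_le_sum (f := fun w : InfinitePlace k => ‖xi w‖ + |R w|)
        (fun w _ => add_nonneg (norm_nonneg _) (abs_nonneg _)) (Finset.mem_univ w)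
    have h2 : ‖algebraMap k w.Completion ((a0 : k) / (Q : k) ^ J)‖ =
        w ((a0 : k) / (Q : k) ^ J) :=
      InfinitePlace.Completion.norm_coe w _
    obtain ⟨s, hs0, hs⟩ := hR w (xi w - algebraMap k w.Completion ((a0 : k) / (Q : k) ^ J)) (by
      have h3 := norm_sub_norm_le (algebraMap k w.Completion ((a0 : k) / (Q : k) ^ J)) (xi w)
      rw [norm_sub_rev] at h3
      have h4 := hw w
      have h5 := le_abs_self (R w)
      rw [h2] at h3
      linarith)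
    exact ⟨s, hs0, hs.symm⟩

end

end Pool.Agent.Helper47.GL
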