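import Mathlib
import Pool.Agent.Helper47.GX.Geo
import Pool.Agent.Helper47.GL.Nsq

/-!
# Geometric irreducibility of the cyclic covers
-/

set_option autoImplicit false

namespace Pool.Agent.Helper47.GL

open Polynomial Pool.Agent.Helper47.GX

/-- `f(x)` is no `ℓ`-th power in the function field of `G(x, y) = 0` over `A` -/
theorem geoL {R : Type*} [CommRing R] {A : Type} [Field A] [IsAlgClosed A] {φ : R →+* A}
    (hφi : Function.Injective φ) {G P Q : R[X][X]} {D : R[X]} {f : A[X]}
    (hG : G.Monic) (hirr : Irreducible (G.map (mapRingHom φ)))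
    (hD : D ≠ 0) (hAB : P * G + Q * derivative G = C D)
    (hf : f.Separable) (hd : D.natDegree < f.natDegree) {ℓ : ℕ} (hℓ : 2 ≤ ℓ) {E : Type*}
    [Field E] [Algebra A E] {x y w : E} (hx : Transcendental A x)
    (hxy : (G.map (mapRingHom ((algebraMap A E).comp φ))).evalEval x y = 0)
    (hw : w ∈ IntermediateField.adjoin A {x, y}) (hww : w ^ ℓ = aeval x f) : False := by
  classical
  have hDk : D.map φ ≠ 0 := (Polynomial.map_ne_zero_iff hφi).2 hD
  obtain ⟨α, hα, hDα⟩ := exists_root hf hDk (by
    rw [natDegree_map_eq_of_injective hφi]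
    exact hd)
  set Gk := G.map (mapRingHom φ) with hGk
  -- squarefreeness
  have hsq : Squarefree (Gk.map (evalRingHom α)) := by
    apply Separable.squarefree
    rw [separable_def']
    have h1 : (P.map (mapRingHom φ)).map (evalRingHom α) * Gk.map (evalRingHom α) +
        (Q.map (mapRingHom φ)).map (evalRingHom α) * derivative (Gk.map (evalRingHom α)) =
        C ((D.map φ).eval α) := by
      rw [derivative_map, hGk, derivative_map, ← Polynomial.map_mul, ← Polynomial.map_mul,
        ← Polynomial.map_mul, ← Polynomial.map_mul, ← Polynomial.map_add, ← Polynomial.map_add, hAB,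
        map_C, map_C]
      rfl
    refine ⟨C ((D.map φ).eval α)⁻¹ * (P.map (mapRingHom φ)).map (evalRingHom α),
      C ((D.map φ).eval α)⁻¹ * (Q.map (mapRingHom φ)).map (evalRingHom α), ?_⟩
    have h2 : C ((D.map φ).eval α)⁻¹ * C ((D.map φ).eval α) = 1 := by
      rw [← C_mul, inv_mul_cancel₀ hDα, C_1]
    linear_combination (C ((D.map φ).eval α)⁻¹) * h1 + h2
  obtain ⟨g1, hg1⟩ := dvd_iff_isRoot.2 (show IsRoot f α from hα)
  have hg1α : g1.eval α ≠ 0 := by
    have h1 := hf.eval₂_derivative_ne_zero (RingHom.id _) (x := α) (by rw [eval₂_id]; exact hα)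
    rw [eval₂_id, hg1] at h1
    simpa using h1
  let K := FractionRing A[X]
  have hinj : Function.Injective (aeval x : A[X] →ₐ[A] E) := transcendental_iff_injective.1 hx
  let j : K →+* E := IsFractionRing.lift (A := A[X]) (K := K)
    (g := ((aeval x : A[X] →ₐ[A] E) : A[X] →+* E)) hinj
  have hj : ∀ q : A[X], j (algebraMap A[X] K q) = aeval x q := fun q =>
    IsFractionRing.lift_algebraMap hinj q
  let _ : Algebra K E := j.toAlgebra
  have _ : IsScalarTower A K E := IsScalarTower.of_algebraMap_eq (fun c => by
    have h1 : algebraMap A K c = algebraMap A[X] K (C c) := by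
      rw [IsScalarTower.algebraMap_apply A A[X] K]
      rfl
    rw [h1]
    show _ = j _
    rw [hj, aeval_C])
  have hy : aeval y (Gk.map (algebraMap A[X] K)) = 0 := by
    rw [← hxy, aeval_def, eval₂_map, ← mapRingHom_comp, ← Polynomial.map_map, ← hGk,
      ← map_evalRingHom_eval, Polynomial.map_map, eval_map]
    congr 1
    refine RingHom.ext fun q => ?_
    show j (algebraMap A[X] K q) = (q.map (algebraMap A E)).eval x
    rw [hj, eval_map_algebraMap]
  refine not_pow (K := K) (E := E) hℓ (hG.map (mapRingHom φ)) hirr hsq hg1 hg1α hy (s := w) ?_ ?_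
  · have hle : IntermediateField.adjoin A {x, y} ≤
        (IntermediateField.adjoin K {y}).restrictScalars A := by
      rw [IntermediateField.adjoin_le_iff]
      rintro z (rfl | hz)
      · have h1 : z = algebraMap K E (algebraMap A[X] K X) := by
          show z = j _
          rw [hj, aeval_X]
        show z ∈ IntermediateField.adjoin K {y}
        rw [h1]
        exact (IntermediateField.adjoin K {y}).algebraMap_mem _
      · rw [Set.mem_singleton_iff] at hz
        rw [hz]
        exact IntermediateField.mem_adjoin_simple_self K y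
    exact hle hw
  · rw [hww]
    exact (hj _).symm

end Pool.Agent.Helper47.GL
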