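import Mathlib
import Pool.Agent.Helper47.GL.Core
import Pool.Agent.Helper47.GL.GeoL

/-!
# Cyclic coverings of curves over number fields
-/

set_option autoImplicit false

namespace Pool.Agent.Helper47.GL

open Polynomial NumberField IsDedekindDomain Pool.Agent.Helper47.GX Pool.Agent.K3h48.MN

section

variable {k : Type} [Field k] [NumberField k]

theorem final {ℓ : ℕ} [hℓ : Fact ℓ.Prime] (hk : ¬ ℓ ∣ Module.finrank ℚ k) (G : (𝓞 k)[X][X])
    (hG : G.Monic) (hirr : AbsIrrK G) (S : Finset (HeightOneSpectrum (𝓞 k)))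
    (x y : ∀ v : HeightOneSpectrum (𝓞 k), v.adicCompletion k)
    (hxy : ∀ v, PtK G (algebraMap (𝓞 k) (v.adicCompletion k)) (x v) (y v))
    (xi : ∀ w : InfinitePlace k, w.Completion) (N : ℕ) :
    ∃ (p q : ℕ) (_ : Fact p.Prime) (_ : Fact q.Prime) (χ : (ZMod p)ˣ →* Multiplicative (ZMod ℓ))
      (ψ : (ZMod q)ˣ →* Multiplicative (ZMod ℓ)) (θ : Option (ZMod ℓ) → CyclotomicField (p * q) ℚ)
      (M r : ℕ) (a : k), N < p ∧ N < q ∧ Good χ ψ ∧ (∀ i, GenBy χ ψ (cs i).1 (cs i).2 (θ i)) ∧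
      N ≤ M ∧ ℓ ∣ M ∧ 0 < M ∧ r.Prime ∧ N < r ∧ Obs χ ψ (r : k) ∧
      (∀ v : HeightOneSpectrum (𝓞 k), ∃ x y w : v.adicCompletion k,
        PtK G (algebraMap (𝓞 k) (v.adicCompletion k)) x y ∧ w ≠ 0 ∧
        (r : v.adicCompletion k) * w ^ ℓ =
          eval₂ (algebraMap k (v.adicCompletion k)) x (∏ i, ∏ g ∈ GS θ M a i, g)) ∧
      (∀ v ∈ S, ∃ w : v.adicCompletion k, w ≠ 0 ∧
        (r : v.adicCompletion k) * w ^ ℓ =
          eval₂ (algebraMap k (v.adicCompletion k)) (x v) (∏ i, ∏ g ∈ GS θ M a i, g)) ∧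
      (∀ w : InfinitePlace k, ∃ s : w.Completion, s ≠ 0 ∧
        (r : w.Completion) * s ^ ℓ =
          eval₂ (algebraMap k w.Completion) (xi w) (∏ i, ∏ g ∈ GS θ M a i, g)) ∧
      ∀ (E : Type*) [Field E] [Algebra (AlgebraicClosure k) E] (x y : E),
        Transcendental (AlgebraicClosure k) x →
        (G.map (mapRingHom ((algebraMap (AlgebraicClosure k) E).comp
          (algebraMap (𝓞 k) (AlgebraicClosure k))))).evalEval x y = 0 →
        ∀ w ∈ IntermediateField.adjoin (AlgebraicClosure k) {x, y}, (r : E) * w ^ ℓ ≠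
          eval₂ ((algebraMap (AlgebraicClosure k) E).comp (algebraMap k (AlgebraicClosure k))) x
            (∏ i, ∏ g ∈ GS θ M a i, g) := by
  have hn : 0 < G.natDegree := by
    rcases Nat.eq_zero_or_pos G.natDegree with h | h
    · refine absurd ?_ (show Irreducible _ from hirr).not_isUnit
      rw [eq_one_of_monic_natDegree_zero hG h, Polynomial.map_one]
      exact isUnit_one
    · exact h
  obtain ⟨δ, E, B, hE, hgood⟩ := exists_goodL hℓ.out G hG hn hirr
  have hφi : Function.Injective (algebraMap (𝓞 k) (AlgebraicClosure k)) :=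
    FaithfulSMul.algebraMap_injective (𝓞 k) (AlgebraicClosure k)
  obtain ⟨A', B', D', hD', hAB'⟩ := Pool.Agent.R410.LW.bezout
    (ι := algebraMap (𝓞 k) (AlgebraicClosure k)) hφi hG hirr
  obtain ⟨p, q, hp, hq, χ, ψ, hNp, hNq, hGood⟩ := exists_pair ℓ N
  obtain ⟨θ, P, hθ, hPm, hP⟩ := exists_theta χ ψ
  obtain ⟨r, hr, hNr, hobs⟩ := exists_r hGood N
  have hb : Obs χ ψ (r : k) := (obs_nat hk hr.ne_zero).2 hobs
  set M : ℕ := ℓ * (N + δ + D'.natDegree + 1) with hM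
  have hM0 : 0 < M := by
    rw [hM]
    have := hℓ.out.pos
    positivity
  have hMle : N + δ + D'.natDegree + 1 ≤ M := by
    rw [hM]
    exact Nat.le_mul_of_pos_left _ hℓ.out.pos
  have hdeg := F0_natDegree hGood hθ hP M
  have hdegM : M ≤ (F0 P M).natDegree := by
    rw [hdeg, ← mul_assoc]
    refine Nat.le_mul_of_pos_left _ ?_
    have := hℓ.out.pos
    positivity
  have heven : Even (F0 P M).natDegree := by
    rw [hdeg, ← mul_assoc]
    exact (Nat.even_mul_succ_self ℓ).mul_right M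
  obtain ⟨a, h1, h2, h3⟩ := core (k := k) (F0_monic hPm M) (F0_good hGood hθ hP M).1
    (fun L _ _ hL => F0_root hGood hθ hP hM0 (Or.inl hL)) hℓ.out hdeg heven hr.pos hG hE hgood
    (by omega) S x y hxy xi
  have hev : ∀ {K : Type _} [Field K] (φ : k →+* K) (z : K),
      eval₂ φ z (∏ i, ∏ g ∈ GS θ M a i, g) =
        ((F0 P M).map (Int.castRingHom K)).eval (z - φ a) := by
    intro K _ φ z
    rw [← ff_prod hP, ← eval_map, ff_map, ff_eval]
  refine ⟨p, q, hp, hq, χ, ψ, θ, M, r, a, hNp, hNq, hGood, hθ, by omega, Dvd.intro _ rfl, hM0, hr,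
    hNr, hb, ?_, ?_, ?_, ?_⟩
  · intro v
    obtain ⟨x, y, w, hxy, hw, h4⟩ := h1 v
    exact ⟨x, y, w, hxy, hw, by rw [h4, hev]⟩
  · intro v hv
    obtain ⟨w, hw, h4⟩ := h2 v hv
    exact ⟨w, hw, by rw [h4, hev]⟩
  · intro w
    obtain ⟨s, hs, h4⟩ := h3 w
    exact ⟨s, hs, by rw [h4, hev]⟩
  · intro E _ _ x y hx hxy w hw hww
    have hc : CharZero (AlgebraicClosure k) :=
      charZero_of_injective_algebraMap (algebraMap k (AlgebraicClosure k)).injective
    have hcE : CharZero E :=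
      charZero_of_injective_algebraMap (algebraMap (AlgebraicClosure k) E).injective
    have hr' : (r : AlgebraicClosure k) ≠ 0 := by exact_mod_cast hr.ne_zero
    have hrE : (r : E) ≠ 0 := by exact_mod_cast hr.ne_zero
    set f := ff P M (algebraMap k (AlgebraicClosure k) a) with hf
    have hfs : f.Separable := by
      rw [hf, ← ff_map]
      exact (ff_sep hGood hθ hP hb M a).1.map
    have hfd : f.natDegree = (F0 P M).natDegree := by
      rw [hf, ← ff_map, natDegree_map, (ff_sep hGood hθ hP hb M a).2, hdeg]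
    have hu : IsUnit (C (r : AlgebraicClosure k)⁻¹ : (AlgebraicClosure k)[X]) :=
      isUnit_C.2 (inv_ne_zero hr').isUnit
    refine geoL (ℓ := ℓ) (f := C (r : AlgebraicClosure k)⁻¹ * f) hφi hG hirr hD' hAB'
      (hfs.unit_mul hu) ?_ hℓ.out.two_le hx hxy hw ?_
    · rw [natDegree_C_mul (inv_ne_zero hr'), hfd]
      omega
    · rw [map_mul, aeval_C, map_inv₀, map_natCast]
      have h5 : aeval x f = (r : E) * w ^ ℓ := by
        rw [hww, ← ff_prod hP, ← eval₂_map, ff_map, ← hf, aeval_def]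
      rw [h5]
      field_simp

/-- there are no points over the extensions of degree prime to `ℓ` -/
theorem no_points {ℓ p q : ℕ} [hℓ : Fact ℓ.Prime] [hp : Fact p.Prime] [hq : Fact q.Prime]
    {χ : (ZMod p)ˣ →* Multiplicative (ZMod ℓ)} {ψ : (ZMod q)ˣ →* Multiplicative (ZMod ℓ)}
    {θ : Option (ZMod ℓ) → CyclotomicField (p * q) ℚ} (hG : Good χ ψ)
    (hθ : ∀ i, GenBy χ ψ (cs i).1 (cs i).2 (θ i)) {r : ℕ} (hb : Obs χ ψ (r : k)) (M : ℕ) (a : k)
    (L : Type) [Field L] [NumberField L] [Algebra k L] (hL : ¬ ℓ ∣ Module.finrank k L) (x w : L) :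
    (r : L) * w ^ ℓ ≠ aeval x (∏ i, ∏ g ∈ GS θ M a i, g) := by
  intro h
  refine ext_no_points hG hθ hb (GS θ M a) (GS_factor hG hθ hb M a) (dvd_refl ℓ) hL x w ?_
  rw [map_natCast, h, eval_map_algebraMap]

theorem no_infinity {ℓ p q : ℕ} [hℓ : Fact ℓ.Prime] [hp : Fact p.Prime] [hq : Fact q.Prime]
    {χ : (ZMod p)ˣ →* Multiplicative (ZMod ℓ)} {ψ : (ZMod q)ˣ →* Multiplicative (ZMod ℓ)}
    {θ : Option (ZMod ℓ) → CyclotomicField (p * q) ℚ} (hG : Good χ ψ)
    (hθ : ∀ i, GenBy χ ψ (cs i).1 (cs i).2 (θ i)) {r : ℕ} (hb : Obs χ ψ (r : k))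
    (L : Type) [Field L] [NumberField L] [Algebra k L] (hL : ¬ ℓ ∣ Module.finrank k L) (ρ : L) :
    ρ ^ ℓ ≠ r := by
  intro h
  have haL := hb.ext L hL
  rw [map_natCast] at haL
  have h0 : (r : L) ≠ 0 := haL.ne_zero
  have hρ : ρ ≠ 0 := by
    rintro rfl
    rw [zero_pow hℓ.out.ne_zero] at h
    exact h0 h.symm
  refine final_no_infinity hG hθ haL ρ⁻¹ ?_
  rw [inv_pow, h, mul_inv_cancel₀ h0]

universe v w

/-- there are no sections over the extensions of degree prime to `ℓ` -/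
theorem no_section {ℓ p q : ℕ} [hℓ : Fact ℓ.Prime] [hp : Fact p.Prime] [hq : Fact q.Prime]
    {χ : (ZMod p)ˣ →* Multiplicative (ZMod ℓ)} {ψ : (ZMod q)ˣ →* Multiplicative (ZMod ℓ)}
    {θ : Option (ZMod ℓ) → CyclotomicField (p * q) ℚ} (hG : Good χ ψ)
    (hθ : ∀ i, GenBy χ ψ (cs i).1 (cs i).2 (θ i)) {r : ℕ} (hb : Obs χ ψ (r : k)) {M : ℕ}
    (hM : ℓ ∣ M) (a : k)
    (L : Type) [Field L] [NumberField L] [Algebra k L] (hL : ¬ ℓ ∣ Module.finrank k L)
    {F : Type v} {Ω : Type w} [Field F] [Field Ω] [Algebra L F] [Algebra F Ω] [Algebra L Ω]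
    [IsScalarTower L F Ω] [IsAlgClosed Ω] [Algebra.IsAlgebraic F Ω] (x w : F)
    (hx : Transcendental L x) (hxw : (r : F) * w ^ ℓ =
      aeval x ((∏ i, ∏ g ∈ GS θ M a i, g).map (algebraMap k L)))
    (U : Set (ValuationSubring F)) (hU : ∀ O ∈ U, ∀ c : L, algebraMap L F c ∈ O) :
    IsEmpty (Pool.Agent.W620.SC.GSection L F Ω U) := by
  refine ext_no_section hG hθ hb (GS θ M a) (GS_factor hG hθ hb M a) (dvd_refl ℓ) hL x w ?_ ?_ U hU
    (Or.inl fun i => by rw [GS_card]; exact hM)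
  · rintro rfl
    rw [zero_pow hℓ.out.ne_zero, mul_zero] at hxw
    refine hx ⟨_, ?_, hxw.symm⟩
    refine (Monic.map _ ?_).ne_zero
    exact monic_prod_of_monic _ _ fun i _ => monic_prod_of_monic _ _ fun g hg =>
      (GS_factor hG hθ hb M a i g hg).monic
  · rw [map_natCast, map_natCast, hxw]

end

end Pool.Agent.Helper47.GL
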