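import Mathlib
import Pool.Agent.Helper47.GL.Fin
import Pool.Graph.R_pool_sql_team_seeded_5cf16337.K3h48.BM.Cycles

/-!
# Cyclic coverings of curves over number fields: given characters
-/

set_option autoImplicit false

namespace Pool.Agent.Helper47.GL

open Polynomial NumberField IsDedekindDomain Pool.Agent.Helper47.GX Pool.Agent.K3h48.MN

section

variable {ℓ p q : ℕ} [hℓ : Fact ℓ.Prime] [hp : Fact p.Prime] [hq : Fact q.Prime]
  {χ : (ZMod p)ˣ →* Multiplicative (ZMod ℓ)} {ψ : (ZMod q)ˣ →* Multiplicative (ZMod ℓ)}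
  {θ : Option (ZMod ℓ) → CyclotomicField (p * q) ℚ}

theorem exists_r' (hG : Good χ ψ) (B : ℕ) : ∃ r : ℕ, r.Prime ∧ B < r ∧
    ssum (wt χ ψ 1) (r : ℚ) = 1 := by
  obtain ⟨n, hn, h1, h2⟩ := exists_kn hG.surj_left hG.surj_right hG.ne 1 1
  have : NeZero (p * q) := ⟨pq_ne⟩
  have hu : IsUnit (n : ZMod (p * q)) := (ZMod.isUnit_iff_coprime n (p * q)).2 hn
  obtain ⟨r, hBr, hr, hrn⟩ := Nat.forall_exists_prime_gt_and_eq_mod hu B
  have hmod : r ≡ n [MOD p * q] := (ZMod.natCast_eq_natCast_iff _ _ _).1 hrn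
  have h3 : (r : ZMod p) = n := (ZMod.natCast_eq_natCast_iff _ _ _).2 (hmod.of_mul_right q)
  have h4 : (r : ZMod q) = n := (ZMod.natCast_eq_natCast_iff _ _ _).2 (hmod.of_mul_left p)
  refine ⟨r, hr, hBr, ?_⟩
  rw [ssum_prime _ hr]
  unfold wt
  rw [h3, h4, h1, h2, mul_one, if_pos rfl]

variable {k : Type} [Field k] [NumberField k]

theorem final_gen (hGood : Good χ ψ) (hθ : ∀ i, GenBy χ ψ (cs i).1 (cs i).2 (θ i))
    {P : Option (ZMod ℓ) → ℤ[X]} (hPm : ∀ i, (P i).Monic)
    (hP : ∀ i, (P i).map (Int.castRingHom ℚ) = minpoly ℚ (θ i)) (G : (𝓞 k)[X][X])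
    (hG : G.Monic) (hirr : AbsIrrK G) :
    ∃ M₀ : ℕ, ∀ M : ℕ, M₀ < M → ∀ r : ℕ, r.Prime → Obs χ ψ (r : k) →
      ∀ (S : Finset (HeightOneSpectrum (𝓞 k)))
        (x y : ∀ v : HeightOneSpectrum (𝓞 k), v.adicCompletion k)
        (_ : ∀ v, PtK G (algebraMap (𝓞 k) (v.adicCompletion k)) (x v) (y v))
        (xi : ∀ w : InfinitePlace k, w.Completion), ∃ a : k,
      (∀ v : HeightOneSpectrum (𝓞 k), ∃ x y w : v.adicCompletion k,
        PtK G (algebraMap (𝓞 k) (v.adicCompletion k)) x y ∧ w ≠ 0 ∧
        (r : v.adicCompletion k) * w ^ ℓ =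
          eval₂ (algebraMap k (v.adicCompletion k)) x (∏ i, ∏ g ∈ GS θ M a i, g)) ∧
      (∀ v ∈ S, ∃ w : v.adicCompletion k, w ≠ 0 ∧
        (r : v.adicCompletion k) * w ^ ℓ =
          eval₂ (algebraMap k (v.adicCompletion k)) (x v) (∏ i, ∏ g ∈ GS θ M a i, g)) ∧
      (∀ w : InfinitePlace k, ∃ s : w.Completion, s ≠ 0 ∧
        (r : w.Completion) * s ^ ℓ =
          eval₂ (algebraMap k w.Completion) (xi w) (∏ i, ∏ g ∈ GS θ M a i, g)) ∧
      ∀ (E : Type*) [Field E] [Algebra (AlgebraicClosure k) E] (x y : E),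
        Transcendental (AlgebraicClosure k) x →
        (G.map (mapRingHom ((algebraMap (AlgebraicClosure k) E).comp
          (algebraMap (𝓞 k) (AlgebraicClosure k))))).evalEval x y = 0 →
        ∀ w ∈ IntermediateField.adjoin (AlgebraicClosure k) {x, y}, (r : E) * w ^ ℓ ≠
          eval₂ ((algebraMap (AlgebraicClosure k) E).comp (algebraMap k (AlgebraicClosure k))) x
            (∏ i, ∏ g ∈ GS θ M a i, g) := by
  have hn : 0 < G.natDegree := by
    rcases Nat.eq_zero_or_pos G.natDegree with h | h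
    · refine absurd ?_ (show Irreducible _ from hirr).not_isUnit
      rw [eq_one_of_monic_natDegree_zero hG h, Polynomial.map_one]
      exact isUnit_one
    · exact h
  obtain ⟨δ, E, B, hE, hgood⟩ := exists_goodL hℓ.out G hG hn hirr
  have hφi : Function.Injective (algebraMap (𝓞 k) (AlgebraicClosure k)) :=
    FaithfulSMul.algebraMap_injective (𝓞 k) (AlgebraicClosure k)
  obtain ⟨A', B', D', hD', hAB'⟩ := Pool.Agent.R410.LW.bezout
    (ι := algebraMap (𝓞 k) (AlgebraicClosure k)) hφi hG hirr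
  refine ⟨δ + D'.natDegree, fun M hM r hr hb S x y hxy xi => ?_⟩
  have hM0 : 0 < M := by omega
  have hdeg := F0_natDegree hGood hθ hP M
  have hdegM : M ≤ (F0 P M).natDegree := by
    rw [hdeg, ← mul_assoc]
    refine Nat.le_mul_of_pos_left _ ?_
    have := hℓ.out.pos
    positivity
  have heven : Even (F0 P M).natDegree := by
    rw [hdeg, ← mul_assoc]
    exact (Nat.even_mul_succ_self ℓ).mul_right M
  obtain ⟨a, h1, h2, h3⟩ := core (k := k) (F0_monic hPm M) (F0_good hGood hθ hP M).1
    (fun L _ _ hL => F0_root hGood hθ hP hM0 (Or.inl hL)) hℓ.out hdeg heven hr.pos hG hE hgood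
    (by omega) S x y hxy xi
  have hev : ∀ {K : Type _} [Field K] (φ : k →+* K) (z : K),
      eval₂ φ z (∏ i, ∏ g ∈ GS θ M a i, g) =
        ((F0 P M).map (Int.castRingHom K)).eval (z - φ a) := by
    intro K _ φ z
    rw [← ff_prod hP, ← eval_map, ff_map, ff_eval]
  refine ⟨a, ?_, ?_, ?_, ?_⟩
  · intro v
    obtain ⟨x, y, w, hxy, hw, h4⟩ := h1 v
    exact ⟨x, y, w, hxy, hw, by rw [h4, hev]⟩
  · intro v hv
    obtain ⟨w, hw, h4⟩ := h2 v hv
    exact ⟨w, hw, by rw [h4, hev]⟩
  · intro w
    obtain ⟨s, hs, h4⟩ := h3 w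
    exact ⟨s, hs, by rw [h4, hev]⟩
  · intro E _ _ x y hx hxy w hw hww
    have hc : CharZero (AlgebraicClosure k) :=
      charZero_of_injective_algebraMap (algebraMap k (AlgebraicClosure k)).injective
    have hcE : CharZero E :=
      charZero_of_injective_algebraMap (algebraMap (AlgebraicClosure k) E).injective
    have hr' : (r : AlgebraicClosure k) ≠ 0 := by exact_mod_cast hr.ne_zero
    have hrE : (r : E) ≠ 0 := by exact_mod_cast hr.ne_zero
    set f := ff P M (algebraMap k (AlgebraicClosure k) a) with hf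
    have hfs : f.Separable := by
      rw [hf, ← ff_map]
      exact (ff_sep hGood hθ hP hb M a).1.map
    have hfd : f.natDegree = (F0 P M).natDegree := by
      rw [hf, ← ff_map, natDegree_map, (ff_sep hGood hθ hP hb M a).2, hdeg]
    have hu : IsUnit (C (r : AlgebraicClosure k)⁻¹ : (AlgebraicClosure k)[X]) :=
      isUnit_C.2 (inv_ne_zero hr').isUnit
    refine geoL (ℓ := ℓ) (f := C (r : AlgebraicClosure k)⁻¹ * f) hφi hG hirr hD' hAB'
      (hfs.unit_mul hu) ?_ hℓ.out.two_le hx hxy hw ?_
    · rw [natDegree_C_mul (inv_ne_zero hr'), hfd]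
      omega
    · rw [map_mul, aeval_C, map_inv₀, map_natCast]
      have h5 : aeval x f = (r : E) * w ^ ℓ := by
        rw [hww, ← ff_prod hP, ← eval₂_map, ff_map, ← hf, aeval_def]
      rw [h5]
      field_simp

end

theorem prod_erase_eq {I E : Type*} [Fintype I] [CommMonoid E] (d1 d2 : DecidableEq I) (i : I)
    (f : I → E) : (@Finset.erase I d1 Finset.univ i).prod f =
      (@Finset.erase I d2 Finset.univ i).prod f := by
  rw [Subsingleton.elim d1 d2]

section unramified

/-- the divisor of a factor is divisible by `ℓ` -/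
theorem unr {k : Type*} [Field k] {ℓ : ℕ} {r : k} (hr : r ≠ 0) {M M' : k[X]}
    (hM : M.Monic) (hMd : ℓ ∣ M.natDegree) (hcop : IsCoprime M M')
    {F : Type*} [Field F] [Algebra k F] {x w : F}
    (hxw : algebraMap k F r * w ^ ℓ = aeval x (M * M')) (O : ValuationSubring F)
    (hO : ∀ c : k, algebraMap k F c ∈ O) : ∃ t : F, O.valuation (aeval x M) = O.valuation t ^ ℓ := by
  have hu : ∀ c : k, c ≠ 0 → O.valuation (algebraMap k F c) = 1 := by
    intro c hc
    refine le_antisymm ((O.valuation_le_one_iff _).2 (hO c)) ?_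
    have h1 := (O.valuation_le_one_iff _).2 (hO c⁻¹)
    rw [map_inv₀, map_inv₀] at h1
    have h2 : O.valuation (algebraMap k F c) ≠ 0 := by
      rw [Ne, map_eq_zero, map_eq_zero]
      exact hc
    exact (inv_le_one₀ (zero_lt_iff.2 h2)).1 h1
  by_cases hx : x ∈ O
  · have hpol : ∀ R : k[X], aeval x R ∈ O := by
      intro R
      rw [aeval_eq_sum_range]
      refine sum_mem fun i _ => ?_
      rw [Algebra.smul_def]
      exact mul_mem (hO _) (pow_mem hx i)
    have hle : ∀ R : k[X], O.valuation (aeval x R) ≤ 1 := fun R => (O.valuation_le_one_iff _).2 (hpol R)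
    obtain ⟨A, B, hAB⟩ := hcop
    by_cases h1 : O.valuation (aeval x M) = 1
    · exact ⟨1, by rw [h1, map_one, one_pow]⟩
    · have h2 : O.valuation (aeval x M') = 1 := by
        by_contra h3
        have h4 : O.valuation (aeval x M) < 1 := lt_of_le_of_ne (hle M) h1
        have h5 : O.valuation (aeval x M') < 1 := lt_of_le_of_ne (hle M') h3
        have h6 := congrArg (aeval x) hAB
        rw [map_add, map_mul, map_mul, map_one] at h6
        have h7 : O.valuation (aeval x A * aeval x M + aeval x B * aeval x M') < 1 := by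
          refine Valuation.map_add_lt _ ?_ ?_
          · rw [map_mul]
            refine lt_of_le_of_lt (mul_le_mul' (hle A) le_rfl) ?_
            rw [one_mul]
            exact h4
          · rw [map_mul]
            refine lt_of_le_of_lt (mul_le_mul' (hle B) le_rfl) ?_
            rw [one_mul]
            exact h5
        rw [h6, map_one] at h7
        exact lt_irrefl _ h7
      refine ⟨w, ?_⟩
      have h3 := congrArg O.valuation hxw
      rw [map_mul, map_pow, hu r hr, one_mul, map_mul, map_mul, h2, mul_one] at h3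
      exact h3.symm
  · obtain ⟨e, he⟩ := hMd
    refine ⟨x ^ e, ?_⟩
    have hx1 : 1 < O.valuation x := by
      rw [← not_le]
      exact fun h => hx ((O.valuation_le_one_iff _).1 h)
    have h1 : O.valuation (aeval x M) = O.valuation x ^ M.natDegree := by
      rw [aeval_eq_sum_range, Finset.sum_range_succ]
      have h2 : O.valuation (M.coeff M.natDegree • x ^ M.natDegree) =
          O.valuation x ^ M.natDegree := by
        rw [hM.coeff_natDegree, one_smul, map_pow]
      rw [Valuation.map_add_eq_of_lt_right, h2]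
      rw [h2]
      refine Valuation.map_sum_lt _ (pow_ne_zero _ (zero_lt_one.trans hx1).ne') fun i hi => ?_
      rw [Algebra.smul_def, map_mul, map_pow]
      calc O.valuation (algebraMap k F (M.coeff i)) * O.valuation x ^ i ≤ 1 * O.valuation x ^ i :=
            mul_le_mul' ((O.valuation_le_one_iff _).2 (hO _)) le_rfl
        _ = O.valuation x ^ i := one_mul _
        _ < O.valuation x ^ M.natDegree := pow_lt_pow_right₀ hx1 (Finset.mem_range.1 hi)
    rw [h1, map_pow, ← pow_mul, he, mul_comm]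

end unramified

end Pool.Agent.Helper47.GL
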