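import Mathlib
import Pool.Agent.Helper47.GL.Fin2

/-!
# Cyclic coverings of varieties of arbitrary dimension over number fields
-/

set_option autoImplicit false

namespace Pool.Agent.Helper47.GL

open Polynomial NumberField IsDedekindDomain Pool.Agent.Helper47.GX Pool.Agent.K3h48.MN

section

variable {k : Type} [Field k] [NumberField k] {m : ℕ}

variable (k m) in
/-- an algebraic closure of `k(t)` -/
abbrev KV : Type := AlgebraicClosure (FractionRing (MvPolynomial (Fin m) (𝓞 k)))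

/-- the points of `G(t, x, y) = 0` with `∂G/∂y ≠ 0` -/
def PtV (G : (MvPolynomial (Fin m) (𝓞 k))[X][X]) {K : Type*} [Field K] (φ : 𝓞 k →+* K)
    (t : Fin m → K) (x y : K) : Prop :=
  (G.map (mapRingHom (MvPolynomial.eval₂Hom φ t))).evalEval x y = 0 ∧
    ((derivative G).map (mapRingHom (MvPolynomial.eval₂Hom φ t))).evalEval x y ≠ 0

/-- irreducibility over an algebraic closure of `k(t)` -/
def AbsIrrV (G : (MvPolynomial (Fin m) (𝓞 k))[X][X]) : Prop :=
  Irreducible (G.map (mapRingHom (algebraMap (MvPolynomial (Fin m) (𝓞 k))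
    (AlgebraicClosure (FractionRing (MvPolynomial (Fin m) (𝓞 k)))))))

variable (k m) in
theorem algV_inj : Function.Injective (algebraMap (MvPolynomial (Fin m) (𝓞 k))
    (AlgebraicClosure (FractionRing (MvPolynomial (Fin m) (𝓞 k))))) := by
  rw [IsScalarTower.algebraMap_eq (MvPolynomial (Fin m) (𝓞 k))
    (FractionRing (MvPolynomial (Fin m) (𝓞 k)))]
  exact (algebraMap (FractionRing (MvPolynomial (Fin m) (𝓞 k)))
    (AlgebraicClosure (FractionRing (MvPolynomial (Fin m) (𝓞 k))))).injective.comp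
      (IsFractionRing.injective _ _)

theorem exists_nonzero {κ : Type*} [Field κ] [Finite κ] {P : MvPolynomial (Fin m) κ} (hP : P ≠ 0)
    (hd : ∀ i, P.degreeOf i < Nat.card κ) : ∃ t : Fin m → κ, MvPolynomial.eval t P ≠ 0 := by
  classical
  have _ := Fintype.ofFinite κ
  by_contra hcon
  push Not at hcon
  refine hP (MvPolynomial.eq_zero_of_eval_zero_at_prod_finset P (fun _ => Finset.univ) (fun i => ?_)
    fun t _ => hcon t)
  rw [Finset.card_univ, ← Nat.card_eq_fintype_card]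
  exact hd i

theorem exists_goodV {ℓ : ℕ} (hℓ : ℓ.Prime) (G : (MvPolynomial (Fin m) (𝓞 k))[X][X]) (hG : G.Monic)
    (hn : 0 < G.natDegree) (hirr : AbsIrrV G) :
    ∃ (δ : ℕ) (E : 𝓞 k) (B : ℕ → ℕ), E ≠ 0 ∧ ∀ v : HeightOneSpectrum (𝓞 k), E ∉ v.asIdeal →
      ∀ g : (𝓞 k)[X], (g.map (Ideal.Quotient.mk v.asIdeal)).Separable →
      δ < (g.map (Ideal.Quotient.mk v.asIdeal)).natDegree →
      B (g.map (Ideal.Quotient.mk v.asIdeal)).natDegree < Ideal.absNorm v.asIdeal →
      ∃ (t0 : Fin m → 𝓞 k) (x0 y0 w0 : 𝓞 k),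
        (G.map (mapRingHom (MvPolynomial.eval t0))).evalEval x0 y0 ∈ v.asIdeal ∧
        (derivative (G.map (mapRingHom (MvPolynomial.eval t0)))).evalEval x0 y0 ∉ v.asIdeal ∧
        g.eval x0 - w0 ^ ℓ ∈ v.asIdeal ∧ w0 ∉ v.asIdeal := by
  classical
  obtain ⟨D1, hD1, hbn⟩ := Pool.Agent.R410.LW.bn_poly (A := MvPolynomial (Fin m) (𝓞 k))
    (k := FractionRing (MvPolynomial (Fin m) (𝓞 k)))
    (kb := AlgebraicClosure (FractionRing (MvPolynomial (Fin m) (𝓞 k)))) G hG hn (by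
    have : ((algebraMap (FractionRing (MvPolynomial (Fin m) (𝓞 k)))
        (AlgebraicClosure (FractionRing (MvPolynomial (Fin m) (𝓞 k))))).comp
        (algebraMap (MvPolynomial (Fin m) (𝓞 k)) (FractionRing (MvPolynomial (Fin m) (𝓞 k))))) =
      algebraMap (MvPolynomial (Fin m) (𝓞 k))
        (AlgebraicClosure (FractionRing (MvPolynomial (Fin m) (𝓞 k)))) :=
      (IsScalarTower.algebraMap_eq _ _ _).symm
    rw [this]
    exact hirr)
  obtain ⟨A, Bz, D, hD, hAB⟩ := Pool.Agent.R410.LW.bezout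
    (ι := algebraMap (MvPolynomial (Fin m) (𝓞 k))
      (AlgebraicClosure (FractionRing (MvPolynomial (Fin m) (𝓞 k)))))
    (algV_inj k m) hG hirr
  obtain ⟨d, hd⟩ := exists_CB G
  set H : MvPolynomial (Fin m) (𝓞 k) := D1 * D.leadingCoeff with hH
  have hH0 : H ≠ 0 := mul_ne_zero hD1 (leadingCoeff_ne_zero.2 hD)
  obtain ⟨s, hs⟩ := MvPolynomial.ne_zero_iff.1 hH0
  have hN0 : (2 * G.natDegree * ℓ : ℕ) ≠ 0 := by
    have := hℓ.pos
    positivity
  refine ⟨D.natDegree, H.coeff s * (2 * G.natDegree * ℓ : ℕ),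
    fun N => CYL ℓ G.natDegree d D.natDegree N + ∑ i, H.degreeOf i, ?_, ?_⟩
  · refine mul_ne_zero hs ?_
    exact_mod_cast hN0
  · intro v hv g hg hδg hBg
    have := v.isMaximal
    let _ : Field (𝓞 k ⧸ v.asIdeal) := Ideal.Quotient.field _
    have hfin : Finite (𝓞 k ⧸ v.asIdeal) := Ideal.finiteQuotientOfFreeOfNeBot _ v.ne_bot
    set ψ := Ideal.Quotient.mk v.asIdeal with hψ
    have key : ∀ z : 𝓞 k, z ∉ v.asIdeal → ψ z ≠ 0 := fun z hz h =>
      hz (Ideal.Quotient.eq_zero_iff_mem.1 h)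
    have hsv : ψ (H.coeff s) ≠ 0 := key _ fun h => hv (v.asIdeal.mul_mem_right _ h)
    have h2p : ψ ((2 * G.natDegree * ℓ : ℕ) : 𝓞 k) ≠ 0 := key _ fun h =>
      hv (v.asIdeal.mul_mem_left _ h)
    have hHv : MvPolynomial.map ψ H ≠ 0 := by
      intro h
      apply hsv
      rw [← MvPolynomial.coeff_map, h, MvPolynomial.coeff_zero]
    have hcard : Nat.card (𝓞 k ⧸ v.asIdeal) = Ideal.absNorm v.asIdeal := by
      rw [Ideal.absNorm_apply]
      rfl
    have hBg1 : CYL ℓ G.natDegree d D.natDegree (g.map ψ).natDegree <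
        Nat.card (𝓞 k ⧸ v.asIdeal) := by
      rw [hcard]
      have h1 : CYL ℓ G.natDegree d D.natDegree (g.map ψ).natDegree + ∑ i, H.degreeOf i <
        Ideal.absNorm v.asIdeal := hBg
      omega
    obtain ⟨tb, htb⟩ := exists_nonzero hHv (fun i => by
      have h1 : CYL ℓ G.natDegree d D.natDegree (g.map ψ).natDegree + ∑ i, H.degreeOf i <
        Ideal.absNorm v.asIdeal := hBg
      have h2 : H.degreeOf i ≤ ∑ i, H.degreeOf i :=
        Finset.single_le_sum (f := fun i => H.degreeOf i) (fun _ _ => Nat.zero_le _)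
          (Finset.mem_univ i)
      have h3 : (MvPolynomial.map ψ H).degreeOf i ≤ H.degreeOf i := by
        rw [MvPolynomial.degreeOf_le_iff]
        intro u hu
        exact MvPolynomial.monomial_le_degreeOf i (MvPolynomial.support_map_subset _ _ hu)
      rw [hcard]
      omega)
    choose t0 ht0 using fun i => Ideal.Quotient.mk_surjective (I := v.asIdeal) (tb i)
    set Φ : MvPolynomial (Fin m) (𝓞 k) →+* 𝓞 k ⧸ v.asIdeal :=
      (MvPolynomial.eval tb).comp (MvPolynomial.map ψ) with hΦ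
    have hΦt : Φ = ψ.comp (MvPolynomial.eval t0) := by
      refine MvPolynomial.ringHom_ext (fun c => ?_) fun i => ?_
      · rw [hΦ, RingHom.comp_apply, RingHom.comp_apply, MvPolynomial.map_C, MvPolynomial.eval_C,
          MvPolynomial.eval_C]
      · rw [hΦ, RingHom.comp_apply, RingHom.comp_apply, MvPolynomial.map_X, MvPolynomial.eval_X,
          MvPolynomial.eval_X, ht0 i]
    have hΦH : Φ H ≠ 0 := htb
    have hD1p : Φ D1 ≠ 0 := fun h => hΦH (by rw [hH, map_mul, h, zero_mul])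
    have hDp : Φ D.leadingCoeff ≠ 0 := fun h => hΦH (by rw [hH, map_mul, h, mul_zero])
    set Gp := G.map (mapRingHom Φ) with hGp
    have hGpd : Gp.natDegree = G.natDegree := hG.natDegree_map _
    obtain ⟨x0, y0, w0, h1, h2, h3, h4⟩ := weilL (F := 𝓞 k ⧸ v.asIdeal) hℓ (G := Gp)
      (A := A.map (mapRingHom Φ))
      (B := Bz.map (mapRingHom Φ)) (D := D.map Φ) (g := g.map ψ) (hG.map _) (by rw [hGpd]; exact hn)
      (by
        rw [hGp, derivative_map, ← Polynomial.map_mul, ← Polynomial.map_mul, ← Polynomial.map_add,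
          hAB, map_C]
        rfl)
      (by
        intro h
        apply hDp
        have := congrArg (fun q => q.coeff D.natDegree) h
        simp only [coeff_map, coeff_zero] at this
        exact this)
      (δ := D.natDegree) natDegree_map_le (d := d)
      (by
        intro i
        rw [hGp, coeff_map]
        exact natDegree_map_le.trans (hd i))
      (by
        have := hbn (AlgebraicClosure (𝓞 k ⧸ v.asIdeal))
          ((algebraMap (𝓞 k ⧸ v.asIdeal) (AlgebraicClosure (𝓞 k ⧸ v.asIdeal))).comp Φ)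
          (by
            rw [RingHom.comp_apply]
            exact (map_ne_zero_iff _ (algebraMap (𝓞 k ⧸ v.asIdeal)
              (AlgebraicClosure (𝓞 k ⧸ v.asIdeal))).injective).2 hD1p)
        rw [hGp, Polynomial.map_map, mapRingHom_comp]
        exact this)
      hg hδg (by
        rw [hGpd]
        rwa [map_natCast] at h2p)
      (by
        rw [hGpd]
        exact hBg1)
    obtain ⟨a, rfl⟩ := Ideal.Quotient.mk_surjective x0
    obtain ⟨b, rfl⟩ := Ideal.Quotient.mk_surjective y0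
    obtain ⟨c, rfl⟩ := Ideal.Quotient.mk_surjective w0
    have hGt : Gp = (G.map (mapRingHom (MvPolynomial.eval t0))).map (mapRingHom ψ) := by
      rw [hGp, hΦt, Polynomial.map_map, mapRingHom_comp]
    refine ⟨t0, a, b, c, ?_, ?_, ?_, ?_⟩
    · rw [← Ideal.Quotient.eq_zero_iff_mem, ← map_mapRingHom_evalEval, ← hGt]
      exact h1
    · rw [← Ideal.Quotient.eq_zero_iff_mem, ← map_mapRingHom_evalEval, ← derivative_map, ← hGt]
      exact h2
    · rw [← Ideal.Quotient.eq_zero_iff_mem, map_sub, map_pow, h3, eval_map, eval₂_at_apply, sub_self]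
    · rw [← Ideal.Quotient.eq_zero_iff_mem]
      exact h4

omit [NumberField k] in
theorem ptV_eval (G : (MvPolynomial (Fin m) (𝓞 k))[X][X]) {K : Type*} [Field K] (φ : 𝓞 k →+* K)
    (t0 : Fin m → 𝓞 k) : (G.map (mapRingHom (MvPolynomial.eval t0))).map (mapRingHom φ) =
      G.map (mapRingHom (MvPolynomial.eval₂Hom φ (fun i => φ (t0 i)))) := by
  rw [Polynomial.map_map, mapRingHom_comp]
  congr 2
  refine MvPolynomial.ringHom_ext (fun c => ?_) fun i => ?_
  · rw [RingHom.comp_apply, MvPolynomial.eval_C, MvPolynomial.coe_eval₂Hom, MvPolynomial.eval₂_C]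
  · rw [RingHom.comp_apply, MvPolynomial.eval_X, MvPolynomial.coe_eval₂Hom, MvPolynomial.eval₂_X]

theorem good_placeV {F : ℤ[X]} (hF : F.Monic) {D : ℕ} (hD : ∀ (K : Type) [Field K], (D : K) ≠ 0 →
      (F.map (Int.castRingHom K)).Separable) {ℓ : ℕ} (hℓ : ℓ.Prime) {N1 : ℕ}
    (hdeg : F.natDegree = ℓ * N1) {r : ℕ} (hr : 0 < r)
    {G : (MvPolynomial (Fin m) (𝓞 k))[X][X]} (hG : G.Monic) {δ : ℕ} {E : 𝓞 k} {B : ℕ → ℕ}
    (hgood : ∀ v : HeightOneSpectrum (𝓞 k), E ∉ v.asIdeal →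
      ∀ g : (𝓞 k)[X], (g.map (Ideal.Quotient.mk v.asIdeal)).Separable →
      δ < (g.map (Ideal.Quotient.mk v.asIdeal)).natDegree →
      B (g.map (Ideal.Quotient.mk v.asIdeal)).natDegree < Ideal.absNorm v.asIdeal →
      ∃ (t0 : Fin m → 𝓞 k) (x0 y0 w0 : 𝓞 k),
        (G.map (mapRingHom (MvPolynomial.eval t0))).evalEval x0 y0 ∈ v.asIdeal ∧
        (derivative (G.map (mapRingHom (MvPolynomial.eval t0)))).evalEval x0 y0 ∉ v.asIdeal ∧
        g.eval x0 - w0 ^ ℓ ∈ v.asIdeal ∧ w0 ∉ v.asIdeal)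
    (hδ : δ < F.natDegree) (v : HeightOneSpectrum (𝓞 k)) (hEv : E ∉ v.asIdeal)
    (hℓv : (ℓ : 𝓞 k) ∉ v.asIdeal) (hrv : (r : 𝓞 k) ∉ v.asIdeal) (hDv : (D : 𝓞 k) ∉ v.asIdeal)
    (hBv : B F.natDegree < Ideal.absNorm v.asIdeal) {Q : ℕ} (hQv : (Q : 𝓞 k) ∉ v.asIdeal) (J : ℕ)
    (a0 : 𝓞 k) :
    ∃ (t : Fin m → v.adicCompletion k) (x y w : v.adicCompletion k),
      PtV G (algebraMap (𝓞 k) (v.adicCompletion k)) t x y ∧ w ≠ 0 ∧
      (r : v.adicCompletion k) * w ^ ℓ = (F.map (Int.castRingHom (v.adicCompletion k))).eval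
        (x - algebraMap k (v.adicCompletion k) ((a0 : k) / (Q : k) ^ J)) := by
  have hc := cz v
  have := v.isMaximal
  let _ : Field (𝓞 k ⧸ v.asIdeal) := Ideal.Quotient.field _
  have hpr : v.asIdeal.IsPrime := v.isPrime
  set e : 𝓞 k := (Q : 𝓞 k) ^ J with he
  set c : 𝓞 k := (r : 𝓞 k) ^ (ℓ - 1) with hc'
  have hev : e ∉ v.asIdeal := fun h => hQv (hpr.mem_of_pow_mem _ h)
  have hcv : c ∉ v.asIdeal := fun h => hrv (hpr.mem_of_pow_mem _ h)
  set ψ := Ideal.Quotient.mk v.asIdeal with hψ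
  have key : ∀ z : 𝓞 k, z ∉ v.asIdeal → ψ z ≠ 0 := fun z hz h =>
    hz (Ideal.Quotient.eq_zero_iff_mem.1 h)
  have hFs : (F.map (Int.castRingHom (𝓞 k ⧸ v.asIdeal))).Separable := by
    apply hD
    have h1 := key _ hDv
    rwa [map_natCast] at h1
  have hgood1 := gg_good hF hFs (key c hcv) (key e hev) (ψ a0)
  rw [← gg_map hF ψ c e a0] at hgood1
  obtain ⟨t0, x0, y0, w0, h1, h2, h3, h4⟩ := hgood v hEv (gg F c e a0) hgood1.1
    (by rw [hgood1.2]; exact hδ) (by rw [hgood1.2]; exact hBv)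
  obtain ⟨y, w', hy1, hy2, hw0, hw⟩ := lift_point v hℓ.pos hℓv (hG.map _) h1 h2 h3 h4
  set φ := algebraMap (𝓞 k) (v.adicCompletion k) with hφ
  have he0 : e ≠ 0 := fun h => hev (by rw [h]; exact v.asIdeal.zero_mem)
  have hφe : φ e ≠ 0 := by
    rw [hφ, Ne, FaithfulSMul.algebraMap_eq_zero_iff]
    exact he0
  have hr' : (r : v.adicCompletion k) ≠ 0 := by exact_mod_cast hr.ne'
  have h5 : φ ((gg F c e a0).eval x0) = φ c * (φ e ^ F.natDegree *
      (F.map (Int.castRingHom (v.adicCompletion k))).eval (φ x0 - φ a0 / φ e)) := by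
    rw [← gg_eval hF hφe, ← gg_map hF φ]
    exact (eval_map_apply φ x0).symm
  rw [ptV_eval] at hy1
  rw [derivative_map, ptV_eval] at hy2
  refine ⟨fun i => φ (t0 i), φ x0, y, w' / (r * φ e ^ N1), ⟨hy1, hy2⟩,
    div_ne_zero hw0 (mul_ne_zero hr' (pow_ne_zero _ hφe)), ?_⟩
  have h6 : algebraMap k (v.adicCompletion k) ((a0 : k) / (Q : k) ^ J) = φ a0 / φ e := by
    rw [map_div₀, map_pow, map_natCast, he, map_pow, map_natCast, hφ,
      IsScalarTower.algebraMap_apply (𝓞 k) k (v.adicCompletion k)]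
  have h7 : (r : v.adicCompletion k) * φ c = r ^ ℓ := by
    rw [hc', map_pow, map_natCast, ← pow_succ', Nat.sub_add_cancel hℓ.one_lt.le]
  have h8 : (φ e ^ N1) ^ ℓ = φ e ^ F.natDegree := by
    rw [← pow_mul, hdeg, mul_comm ℓ]
  rw [h6, div_pow, hw, h5, mul_pow, h8, ← h7]
  have hφc : φ c ≠ 0 := by
    rw [hφ, Ne, FaithfulSMul.algebraMap_eq_zero_iff]
    exact fun h => hcv (by rw [h]; exact v.asIdeal.zero_mem)
  field_simp

theorem coreV {F : ℤ[X]} (hF : F.Monic) (hsep : (F.map (Int.castRingHom ℚ)).Separable)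
    (hroot : ∀ (L : Type) [Field L] [CharZero L],
      (∃ (r : ℕ) (_ : Fact r.Prime), Nonempty (ℚ_[r] →+* L)) →
      ∃ x : L, (F.map (Int.castRingHom L)).eval x = 0) {ℓ : ℕ} (hℓ : ℓ.Prime) {N1 : ℕ}
    (hdeg : F.natDegree = ℓ * N1) (heven : Even F.natDegree) {r : ℕ} (hr : 0 < r)
    {G : (MvPolynomial (Fin m) (𝓞 k))[X][X]} (hG : G.Monic) {δ : ℕ} {E : 𝓞 k} {B : ℕ → ℕ}
    (hE : E ≠ 0)
    (hgood : ∀ v : HeightOneSpectrum (𝓞 k), E ∉ v.asIdeal →
      ∀ g : (𝓞 k)[X], (g.map (Ideal.Quotient.mk v.asIdeal)).Separable →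
      δ < (g.map (Ideal.Quotient.mk v.asIdeal)).natDegree →
      B (g.map (Ideal.Quotient.mk v.asIdeal)).natDegree < Ideal.absNorm v.asIdeal →
      ∃ (t0 : Fin m → 𝓞 k) (x0 y0 w0 : 𝓞 k),
        (G.map (mapRingHom (MvPolynomial.eval t0))).evalEval x0 y0 ∈ v.asIdeal ∧
        (derivative (G.map (mapRingHom (MvPolynomial.eval t0)))).evalEval x0 y0 ∉ v.asIdeal ∧
        g.eval x0 - w0 ^ ℓ ∈ v.asIdeal ∧ w0 ∉ v.asIdeal)
    (hδ : δ < F.natDegree) (S : Finset (HeightOneSpectrum (𝓞 k)))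
    (t : ∀ v : HeightOneSpectrum (𝓞 k), Fin m → v.adicCompletion k)
    (x y : ∀ v : HeightOneSpectrum (𝓞 k), v.adicCompletion k)
    (hxy : ∀ v, PtV G (algebraMap (𝓞 k) (v.adicCompletion k)) (t v) (x v) (y v))
    (xi : ∀ w : InfinitePlace k, w.Completion) :
    ∃ a : k,
      (∀ v : HeightOneSpectrum (𝓞 k), ∃ (t : Fin m → v.adicCompletion k)
        (x y w : v.adicCompletion k),
        PtV G (algebraMap (𝓞 k) (v.adicCompletion k)) t x y ∧ w ≠ 0 ∧
        (r : v.adicCompletion k) * w ^ ℓ = (F.map (Int.castRingHom (v.adicCompletion k))).eval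
          (x - algebraMap k (v.adicCompletion k) a)) ∧
      (∀ v ∈ S, ∃ w : v.adicCompletion k, w ≠ 0 ∧
        (r : v.adicCompletion k) * w ^ ℓ = (F.map (Int.castRingHom (v.adicCompletion k))).eval
          (x v - algebraMap k (v.adicCompletion k) a)) ∧
      ∀ w : InfinitePlace k, ∃ s : w.Completion, s ≠ 0 ∧
        (r : w.Completion) * s ^ ℓ = (F.map (Int.castRingHom w.Completion)).eval
          (xi w - algebraMap k w.Completion a) := by
  classical
  have hF0 : 0 < F.natDegree := lt_of_le_of_lt (Nat.zero_le _) hδ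
  obtain ⟨D, hD0, hD⟩ := exists_disc hsep
  choose α hα using fun v => local_param hsep hroot hℓ.ne_zero hr v (x v)
  choose R hR using fun w : InfinitePlace k => inf_case hF heven hF0 hr hℓ.ne_zero w
  -- the product of the exceptional places
  set Q : ℕ := r * ℓ * D * Ideal.absNorm (Ideal.span {E}) * (B F.natDegree).factorial *
    ∏ v ∈ S, Ideal.absNorm v.asIdeal with hQ
  have hQ0 : Q ≠ 0 := by
    rw [hQ]
    refine mul_ne_zero (mul_ne_zero (mul_ne_zero (mul_ne_zero (mul_ne_zero hr.ne' hℓ.ne_zero) hD0)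
      ?_) (Nat.factorial_ne_zero _)) ?_
    · rw [Ne, Ideal.absNorm_eq_zero_iff, Ideal.span_singleton_eq_bot]
      exact hE
    · refine Finset.prod_ne_zero_iff.2 fun v _ => ?_
      rw [Ne, Ideal.absNorm_eq_zero_iff]
      exact v.ne_bot
  have hdvd : ∀ n : ℕ, n ∣ Q → ∀ v : HeightOneSpectrum (𝓞 k), (n : 𝓞 k) ∈ v.asIdeal →
      (Q : 𝓞 k) ∈ v.asIdeal := by
    rintro n ⟨m, hm⟩ v hv
    rw [hm, Nat.cast_mul]
    exact v.asIdeal.mul_mem_right _ hv
  have hQr : r ∣ Q := ⟨ℓ * D * Ideal.absNorm (Ideal.span {E}) * (B F.natDegree).factorial *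
    ∏ v ∈ S, Ideal.absNorm v.asIdeal, by rw [hQ]; ring⟩
  have hQℓ : ℓ ∣ Q := ⟨r * D * Ideal.absNorm (Ideal.span {E}) * (B F.natDegree).factorial *
    ∏ v ∈ S, Ideal.absNorm v.asIdeal, by rw [hQ]; ring⟩
  have hQD : D ∣ Q := ⟨r * ℓ * Ideal.absNorm (Ideal.span {E}) * (B F.natDegree).factorial *
    ∏ v ∈ S, Ideal.absNorm v.asIdeal, by rw [hQ]; ring⟩
  have hQE : Ideal.absNorm (Ideal.span {E}) ∣ Q := ⟨r * ℓ * D * (B F.natDegree).factorial *
    ∏ v ∈ S, Ideal.absNorm v.asIdeal, by rw [hQ]; ring⟩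
  have hQB : (B F.natDegree).factorial ∣ Q := ⟨r * ℓ * D * Ideal.absNorm (Ideal.span {E}) *
    ∏ v ∈ S, Ideal.absNorm v.asIdeal, by rw [hQ]; ring⟩
  have hQS : ∀ v ∈ S, Ideal.absNorm v.asIdeal ∣ Q := by
    intro v hv
    rw [hQ]
    exact (Finset.dvd_prod_of_mem _ hv).mul_left _
  obtain ⟨J, a0, ha, hw⟩ := approx hQ0 α _ hα (∑ w : InfinitePlace k, (‖xi w‖ + |R w|))
  refine ⟨(a0 : k) / (Q : k) ^ J, ?_, ?_, ?_⟩
  · intro v
    by_cases hv : (Q : 𝓞 k) ∈ v.asIdeal
    · obtain ⟨s, hs0, hs⟩ := ha v hv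
      exact ⟨t v, x v, y v, s, hxy v, hs0, hs.symm⟩
    · have hn : ∀ n : ℕ, n ∣ Q → (n : 𝓞 k) ∉ v.asIdeal := fun n hn h => hv (hdvd n hn v h)
      refine good_placeV hF hD hℓ hdeg hr hG hgood hδ v ?_ (hn _ hQℓ) (hn _ hQr) (hn _ hQD) ?_ hv
        J a0
      · intro h
        apply hn _ hQE
        have h1 : ((Ideal.absNorm (Ideal.span {E}) : ℕ) : 𝓞 k) ∈ Ideal.span {E} :=
          Ideal.absNorm_mem _
        exact (Ideal.span_singleton_le_iff_mem _).2 h h1
      · by_contra h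
        push Not at h
        have h1 : Ideal.absNorm v.asIdeal ∣ (B F.natDegree).factorial := by
          refine Nat.dvd_factorial (Nat.pos_of_ne_zero ?_) h
          rw [Ne, Ideal.absNorm_eq_zero_iff]
          exact v.ne_bot
        exact hn _ (h1.trans hQB) (Ideal.absNorm_mem _)
  · intro v hv
    obtain ⟨s, hs0, hs⟩ := ha v (hdvd _ (hQS v hv) v (Ideal.absNorm_mem _))
    exact ⟨s, hs0, hs.symm⟩
  · intro w
    have h1 : ‖xi w‖ + |R w| ≤ ∑ w : InfinitePlace k, (‖xi w‖ + |R w|) :=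
      Finset.single_le_sum (f := fun w : InfinitePlace k => ‖xi w‖ + |R w|)
        (fun w _ => add_nonneg (norm_nonneg _) (abs_nonneg _)) (Finset.mem_univ w)
    have h2 : ‖algebraMap k w.Completion ((a0 : k) / (Q : k) ^ J)‖ =
        w ((a0 : k) / (Q : k) ^ J) :=
      InfinitePlace.Completion.norm_coe w _
    obtain ⟨s, hs0, hs⟩ := hR w (xi w - algebraMap k w.Completion ((a0 : k) / (Q : k) ^ J)) (by
      have h3 := norm_sub_norm_le (algebraMap k w.Completion ((a0 : k) / (Q : k) ^ J)) (xi w)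
      rw [norm_sub_rev] at h3
      have h4 := hw w
      have h5 := le_abs_self (R w)
      rw [h2] at h3
      linarith)
    exact ⟨s, hs0, hs.symm⟩

end

section

variable {ℓ p q : ℕ} [hℓ : Fact ℓ.Prime] [hp : Fact p.Prime] [hq : Fact q.Prime]
  {χ : (ZMod p)ˣ →* Multiplicative (ZMod ℓ)} {ψ : (ZMod q)ˣ →* Multiplicative (ZMod ℓ)}
  {θ : Option (ZMod ℓ) → CyclotomicField (p * q) ℚ}
  {k : Type} [Field k] [NumberField k] {m : ℕ}

theorem final_genV (hGood : Good χ ψ) (hθ : ∀ i, GenBy χ ψ (cs i).1 (cs i).2 (θ i))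
    {P : Option (ZMod ℓ) → ℤ[X]} (hPm : ∀ i, (P i).Monic)
    (hP : ∀ i, (P i).map (Int.castRingHom ℚ) = minpoly ℚ (θ i))
    (G : (MvPolynomial (Fin m) (𝓞 k))[X][X]) (hG : G.Monic) (hirr : AbsIrrV G) :
    ∃ M₀ : ℕ, ∀ M : ℕ, M₀ < M → ∀ r : ℕ, r.Prime → Obs χ ψ (r : k) →
      ∀ (S : Finset (HeightOneSpectrum (𝓞 k)))
        (t : ∀ v : HeightOneSpectrum (𝓞 k), Fin m → v.adicCompletion k)
        (x y : ∀ v : HeightOneSpectrum (𝓞 k), v.adicCompletion k)
        (_ : ∀ v, PtV G (algebraMap (𝓞 k) (v.adicCompletion k)) (t v) (x v) (y v))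
        (xi : ∀ w : InfinitePlace k, w.Completion), ∃ a : k,
      (∀ v : HeightOneSpectrum (𝓞 k), ∃ (t : Fin m → v.adicCompletion k)
        (x y w : v.adicCompletion k),
        PtV G (algebraMap (𝓞 k) (v.adicCompletion k)) t x y ∧ w ≠ 0 ∧
        (r : v.adicCompletion k) * w ^ ℓ =
          eval₂ (algebraMap k (v.adicCompletion k)) x (∏ i, ∏ g ∈ GS θ M a i, g)) ∧
      (∀ v ∈ S, ∃ w : v.adicCompletion k, w ≠ 0 ∧
        (r : v.adicCompletion k) * w ^ ℓ =
          eval₂ (algebraMap k (v.adicCompletion k)) (x v) (∏ i, ∏ g ∈ GS θ M a i, g)) ∧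
      (∀ w : InfinitePlace k, ∃ s : w.Completion, s ≠ 0 ∧
        (r : w.Completion) * s ^ ℓ =
          eval₂ (algebraMap k w.Completion) (xi w) (∏ i, ∏ g ∈ GS θ M a i, g)) ∧
      ∀ (E : Type*) [Field E]
        [Algebra (AlgebraicClosure (FractionRing (MvPolynomial (Fin m) (𝓞 k)))) E] (x y : E),
        Transcendental (AlgebraicClosure (FractionRing (MvPolynomial (Fin m) (𝓞 k)))) x →
        (G.map (mapRingHom ((algebraMap (AlgebraicClosure
          (FractionRing (MvPolynomial (Fin m) (𝓞 k)))) E).comp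
          (algebraMap (MvPolynomial (Fin m) (𝓞 k)) (AlgebraicClosure
            (FractionRing (MvPolynomial (Fin m) (𝓞 k)))))))).evalEval x y = 0 →
        ∀ w ∈ IntermediateField.adjoin (AlgebraicClosure
          (FractionRing (MvPolynomial (Fin m) (𝓞 k)))) {x, y},
        ∀ φ : k →+* E, (∀ c : k, φ c ∈
          (algebraMap (AlgebraicClosure (FractionRing (MvPolynomial (Fin m) (𝓞 k)))) E).range) →
        (r : E) * w ^ ℓ ≠ eval₂ φ x (∏ i, ∏ g ∈ GS θ M a i, g) := by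
  have hn : 0 < G.natDegree := by
    rcases Nat.eq_zero_or_pos G.natDegree with h | h
    · refine absurd ?_ (show Irreducible _ from hirr).not_isUnit
      rw [eq_one_of_monic_natDegree_zero hG h, Polynomial.map_one]
      exact isUnit_one
    · exact h
  obtain ⟨δ, E, B, hE, hgood⟩ := exists_goodV hℓ.out G hG hn hirr
  obtain ⟨A', B', D', hD', hAB'⟩ := Pool.Agent.R410.LW.bezout
    (ι := algebraMap (MvPolynomial (Fin m) (𝓞 k))
      (AlgebraicClosure (FractionRing (MvPolynomial (Fin m) (𝓞 k))))) (algV_inj k m) hG hirr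
  refine ⟨δ + D'.natDegree, fun M hM r hr hb S t x y hxy xi => ?_⟩
  have hM0 : 0 < M := by omega
  have hdeg := F0_natDegree hGood hθ hP M
  have hdegM : M ≤ (F0 P M).natDegree := by
    rw [hdeg, ← mul_assoc]
    refine Nat.le_mul_of_pos_left _ ?_
    have := hℓ.out.pos
    positivity
  have heven : Even (F0 P M).natDegree := by
    rw [hdeg, ← mul_assoc]
    exact (Nat.even_mul_succ_self ℓ).mul_right M
  obtain ⟨a, h1, h2, h3⟩ := coreV (k := k) (F0_monic hPm M) (F0_good hGood hθ hP M).1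
    (fun L _ _ hL => F0_root hGood hθ hP hM0 (Or.inl hL)) hℓ.out hdeg heven hr.pos hG hE hgood
    (by omega) S t x y hxy xi
  have hev : ∀ {K : Type _} [Field K] (φ : k →+* K) (z : K),
      eval₂ φ z (∏ i, ∏ g ∈ GS θ M a i, g) =
        ((F0 P M).map (Int.castRingHom K)).eval (z - φ a) := by
    intro K _ φ z
    rw [← ff_prod hP, ← eval_map, ff_map, ff_eval]
  refine ⟨a, ?_, ?_, ?_, ?_⟩
  · intro v
    obtain ⟨t, x, y, w, hxy, hw, h4⟩ := h1 v
    exact ⟨t, x, y, w, hxy, hw, by rw [h4, hev]⟩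
  · intro v hv
    obtain ⟨w, hw, h4⟩ := h2 v hv
    exact ⟨w, hw, by rw [h4, hev]⟩
  · intro w
    obtain ⟨s, hs, h4⟩ := h3 w
    exact ⟨s, hs, by rw [h4, hev]⟩
  · intro E _ _ x y hx hxy w hw φ hφ hww
    have hc : CharZero (AlgebraicClosure (FractionRing (MvPolynomial (Fin m) (𝓞 k)))) :=
      charZero_of_injective_algebraMap (algV_inj k m)
    have hcE : CharZero E := charZero_of_injective_algebraMap
      (algebraMap (AlgebraicClosure (FractionRing (MvPolynomial (Fin m) (𝓞 k)))) E).injective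
    have hr' : (r : AlgebraicClosure (FractionRing (MvPolynomial (Fin m) (𝓞 k)))) ≠ 0 := by
      exact_mod_cast hr.ne_zero
    have hrE : (r : E) ≠ 0 := by exact_mod_cast hr.ne_zero
    obtain ⟨a', ha'⟩ := hφ a
    set f := ff P M a' with hf
    have hfs : f.Separable := by
      rw [hf]
      unfold ff
      have h5 := F0_sep hGood hθ hP M
        (K := AlgebraicClosure (FractionRing (MvPolynomial (Fin m) (𝓞 k))))
      have h6 := sep_comp_linear h5
        (one_ne_zero (α := AlgebraicClosure (FractionRing (MvPolynomial (Fin m) (𝓞 k))))) a'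
      rwa [C_1, one_mul] at h6
    have hfd : f.natDegree = (F0 P M).natDegree := by
      rw [hf]
      unfold ff
      rw [natDegree_comp, natDegree_X_sub_C, mul_one, (F0_monic hPm M).natDegree_map]
    have hu : IsUnit (C (r : AlgebraicClosure (FractionRing (MvPolynomial (Fin m) (𝓞 k))))⁻¹ :
        (AlgebraicClosure (FractionRing (MvPolynomial (Fin m) (𝓞 k))))[X]) :=
      isUnit_C.2 (inv_ne_zero hr').isUnit
    refine geoL (ℓ := ℓ)
      (f := C (r : AlgebraicClosure (FractionRing (MvPolynomial (Fin m) (𝓞 k))))⁻¹ * f)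
      (algV_inj k m) hG hirr hD' hAB' (hfs.unit_mul hu) ?_ hℓ.out.two_le hx hxy hw ?_
    · rw [natDegree_C_mul (inv_ne_zero hr'), hfd]
      omega
    · rw [map_mul, aeval_C, map_inv₀, map_natCast]
      have h5 : aeval x f = (r : E) * w ^ ℓ := by
        rw [hww, ← ff_prod hP, ← eval_map, ff_map, ff_eval, aeval_def, ← eval_map, hf, ff_map,
          ff_eval, ha']
      rw [h5]
      field_simp

end

end Pool.Agent.Helper47.GL
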